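import Pool.Agent.Rohlin.Iso.Base
import Pool.Agent.Rohlin.DiscTop
import Pool.Agent.Rohlin.Octic.StarDisc

/-!
# The conjecture in terms of isotopy types: from discs to ovals, type I, subschemes
-/

set_option autoImplicit false

namespace Pool.Agent.Rohlin

open Set Topology

/-! ### isotopies -/

theorem isotopic_refl (X : Set RP2) : Isotopic X X := by
  refine ⟨fun _ => Homeomorph.refl RP2, continuous_snd, rfl, ?_⟩
  simp

theorem Isotopic.hasScheme {m : ℕ} {X Y : Set RP2} {S : Scheme} (h : Isotopic X Y)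
    (hX : HasScheme m X S) : HasScheme m Y S := by
  obtain ⟨g, -, -, rfl⟩ := h
  have h1 := hX.preimage (g 1).symm
  rwa [Homeomorph.preimage_symm] at h1

/-- type I is a property of the isotopy type -/
theorem dividing_of_isotopic (h1 : IsTypeOne 8 S15) {A B : RealCurve 8}
    (hA : HasScheme 8 A.real S15) (h : Isotopic A.real B.real) : B.Dividing :=
  h1 B (h.hasScheme hA)

/-! ### discs -/

theorem IsDisc.isConnected_frontier {Δ : Set RP2} (h : IsDisc Δ) : IsConnected (frontier Δ) := by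
  have hcl := h.isClosed
  obtain ⟨δ, hc, hi, hr, hint⟩ := h
  have h1 : frontier Δ = range fun z : Metric.sphere (0 : ℂ) 1 =>
      δ ⟨z, Metric.sphere_subset_closedBall z.2⟩ := by
    rw [hcl.frontier_eq, hint]
    ext p
    constructor
    · rintro ⟨h2, h3⟩
      rw [← hr] at h2
      obtain ⟨z, rfl⟩ := h2
      have h4 : ‖(z : ℂ)‖ = 1 := by
        refine le_antisymm (mem_closedBall_zero_iff.1 z.2) (not_lt.1 fun h => h3 ⟨z, h, rfl⟩)
      exact ⟨⟨z, mem_sphere_zero_iff_norm.2 h4⟩, rfl⟩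
    · rintro ⟨z, rfl⟩
      refine ⟨hr ▸ mem_range_self _, ?_⟩
      rintro ⟨w, hw, hwz⟩
      have h5 := hi hwz
      have h6 : ‖(w : ℂ)‖ = 1 := by
        rw [h5]
        exact mem_sphere_zero_iff_norm.1 z.2
      rw [mem_setOf_eq, h6] at hw
      exact lt_irrefl _ hw
  have h2 : IsConnected (Metric.sphere (0 : ℂ) 1) :=
    isConnected_sphere (by rw [Complex.rank_real_complex]; exact_mod_cast Nat.one_lt_two) 0
      zero_le_one
  have h3 : ConnectedSpace (Metric.sphere (0 : ℂ) 1) := isConnected_iff_connectedSpace.1 h2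
  rw [h1]
  exact isConnected_range (hc.comp (Continuous.subtype_mk continuous_subtype_val _))

/-- the discs of a scheme in even degree -/
structure HasDiscs (X : Set RP2) (S : Scheme) (Δ : Fin S.n → Set RP2) : Prop where
  disc : ∀ i, IsDisc (Δ i)
  nest : ∀ i j, i ≠ j → S.le i j → Δ i ⊆ interior (Δ j)
  disj : ∀ i j, ¬ S.le i j → ¬ S.le j i → Disjoint (Δ i) (Δ j)
  eq : X = ⋃ i, frontier (Δ i)

theorem HasScheme.exists_hasDiscs {m : ℕ} (hm : Even m) {X : Set RP2} {S : Scheme}
    (h : HasScheme m X S) : ∃ Δ, HasDiscs X S Δ := by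
  obtain ⟨Δ, J, h1, h2, h3, -, -, h4, -, h5⟩ := h
  rcases h4 with ⟨-, rfl⟩ | ⟨ho, -⟩
  · exact ⟨Δ, h1, h2, h3, by rw [h5, empty_union]⟩
  · exact absurd hm (Nat.not_even_iff_odd.2 ho)

theorem HasDiscs.hasScheme {m : ℕ} (hm : Even m) {X : Set RP2} {S : Scheme}
    {Δ : Fin S.n → Set RP2} (h : HasDiscs X S Δ) (hrefl : ∀ i, S.le i i)
    (hanti : ∀ i j, i ≠ j → S.le i j → ¬ S.le j i) : HasScheme m X S :=
  ⟨Δ, ∅, h.disc, h.nest, h.disj, hrefl, hanti, Or.inl ⟨hm, rfl⟩, fun i => disjoint_empty _, by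
    rw [h.eq, empty_union]⟩

variable {X : Set RP2} {S : Scheme} {Δ : Fin S.n → Set RP2}

theorem HasDiscs.disjoint_frontier (h : HasDiscs X S Δ) {i j : Fin S.n} (hij : i ≠ j) :
    Disjoint (frontier (Δ i)) (frontier (Δ j)) := by
  have key : ∀ i j : Fin S.n, i ≠ j → S.le i j → Disjoint (frontier (Δ i)) (frontier (Δ j)) := by
    intro i j hij hle
    rw [Set.disjoint_left]
    intro p hp hq
    have h1 := h.nest i j hij hle ((h.disc i).isClosed.frontier_subset hp)
    rw [(h.disc j).isClosed.frontier_eq] at hq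
    exact hq.2 h1
  by_cases h1 : S.le i j
  · exact key i j hij h1
  · by_cases h2 : S.le j i
    · exact (key j i hij.symm h2).symm
    · exact (h.disj i j h1 h2).mono (h.disc i).isClosed.frontier_subset
        (h.disc j).isClosed.frontier_subset

/-- the boundaries of the discs are ovals -/
theorem HasDiscs.isOval (h : HasDiscs X S Δ) (i : Fin S.n) : IsOval X (frontier (Δ i)) := by
  have hcon := (h.disc i).isConnected_frontier
  obtain ⟨x, hx⟩ := hcon.nonempty
  have hsub : frontier (Δ i) ⊆ X := by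
    rw [h.eq]
    exact subset_iUnion (fun j => frontier (Δ j)) i
  have hxX : x ∈ X := hsub hx
  refine ⟨⟨x, hxX, subset_antisymm ?_ ?_⟩, Δ i, h.disc i, rfl⟩
  · exact hcon.isPreconnected.subset_connectedComponentIn hx hsub
  · have hpre : IsPreconnected (connectedComponentIn X x) := isPreconnected_connectedComponentIn
    intro y hy
    by_contra hcn
    have hcl1 : IsClosed (frontier (Δ i)) := isClosed_frontier
    have hcl2 : IsClosed (⋃ j ∈ {j : Fin S.n | j ≠ i}, frontier (Δ j)) :=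
      (Set.toFinite _).isClosed_biUnion fun j _ => isClosed_frontier
    have hcov : connectedComponentIn X x ⊆
        frontier (Δ i) ∪ ⋃ j ∈ {j : Fin S.n | j ≠ i}, frontier (Δ j) := by
      intro z hz
      have hzX := connectedComponentIn_subset X x hz
      rw [h.eq] at hzX
      obtain ⟨j, hj⟩ := mem_iUnion.1 hzX
      by_cases hji : j = i
      · subst hji
        exact Or.inl hj
      · exact Or.inr (mem_biUnion (show j ∈ {j : Fin S.n | j ≠ i} from hji) hj)
    obtain ⟨z, hz, hz1, hz2⟩ := (isPreconnected_closed_iff.1 hpre) _ _ hcl1 hcl2 hcov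
      ⟨x, mem_connectedComponentIn hxX, hx⟩
      ⟨y, hy, (hcov hy).resolve_left hcn⟩
    obtain ⟨j, hj, hzj⟩ := mem_iUnion₂.1 hz2
    exact Set.disjoint_left.1 (h.disjoint_frontier (i := j) (j := i) hj) hzj hz1

/-- deletion of one oval -/
theorem HasDiscs.properSubscheme (h : HasDiscs X S Δ) (i : Fin S.n) {Y : Set RP2}
    (hY : Isotopic Y (X \ frontier (Δ i))) : ProperSubscheme Y X :=
  ⟨X \ frontier (Δ i), X, hY, isotopic_refl X, {frontier (Δ i)}, singleton_nonempty _,
    fun O hO => by rw [mem_singleton_iff.1 hO]; exact h.isOval i, by rw [sUnion_singleton]⟩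

/-! ### star shaped discs -/

theorem starCurve_eq {ρ : ℂ → ℝ} (hpos : ∀ z ∈ Metric.sphere (0 : ℂ) 1, 0 < ρ z) :
    starCurve ρ = (fun z : ℂ => (ρ z : ℂ) * z) '' Metric.sphere 0 1 := by
  ext z
  constructor
  · rintro ⟨h0, h1⟩
    have hn : (‖z‖ : ℂ) ≠ 0 := by exact_mod_cast norm_ne_zero_iff.2 h0
    refine ⟨arc z, ?_, ?_⟩
    · rw [mem_sphere_zero_iff_norm, arc, norm_mul, norm_inv, Complex.norm_real, norm_norm,
        inv_mul_cancel₀ (norm_ne_zero_iff.2 h0)]
    · show (ρ (arc z) : ℂ) * arc z = z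
      rw [← h1, arc, mul_inv_cancel_left₀ hn]
  · rintro ⟨w, hw, rfl⟩
    have hw1 : ‖w‖ = 1 := mem_sphere_zero_iff_norm.1 hw
    have hp := hpos w hw
    have hw0 : w ≠ 0 := by
      rintro rfl
      simp at hw1
    have hn : ‖(ρ w : ℂ) * w‖ = ρ w := by
      rw [norm_mul, Complex.norm_real, hw1, mul_one, Real.norm_eq_abs, abs_of_pos hp]
    have hr0 : (ρ w : ℂ) ≠ 0 := by exact_mod_cast hp.ne'
    refine ⟨mul_ne_zero hr0 hw0, ?_⟩
    show ‖(ρ w : ℂ) * w‖ = ρ (arc ((ρ w : ℂ) * w))
    rw [arc, hn, inv_mul_cancel_left₀ hr0]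

theorem isDisc_starSet {c u v : Fin 3 → ℝ} {hc : LinearIndependent ℝ ![c, u, v]} {ρ : ℂ → ℝ}
    (hcont : ContinuousOn ρ (Metric.sphere 0 1)) (hpos : ∀ z ∈ Metric.sphere (0 : ℂ) 1, 0 < ρ z) :
    IsDisc (Octic.chart hc '' starSet ρ) := by
  have hcpt : IsCompact (starCurve ρ) := by
    rw [starCurve_eq hpos]
    refine (isCompact_sphere 0 1).image_of_continuousOn ?_
    exact (Complex.continuous_ofReal.comp_continuousOn hcont).mul continuousOn_id
  have h0 : (0 : ℂ) ∉ starCurve ρ := fun h => h.1 rfl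
  have harc : ∀ w : ℂ, w ≠ 0 → arc w ∈ Metric.sphere (0 : ℂ) 1 := by
    intro w hw
    rw [mem_sphere_zero_iff_norm, arc, norm_mul, norm_inv, Complex.norm_real, norm_norm,
      inv_mul_cancel₀ (norm_ne_zero_iff.2 hw)]
  have harcm : ∀ (r : ℝ) (w : ℂ), 0 < r → arc ((r : ℂ) * w) = arc w := by
    intro r w hr
    have hr0 : (r : ℂ) ≠ 0 := by exact_mod_cast hr.ne'
    rw [arc, arc, norm_mul, Complex.norm_real, Real.norm_eq_abs, abs_of_pos hr]
    push_cast
    rw [mul_inv]
    field_simp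
  have hu : ∀ w : ℂ, w ≠ 0 → ∃! r : ℝ, 0 < r ∧ (r : ℂ) * w ∈ starCurve ρ := by
    intro w hw
    have hn : 0 < ‖w‖ := norm_pos_iff.2 hw
    refine ⟨ρ (arc w) / ‖w‖, ⟨div_pos (hpos _ (harc w hw)) hn, ?_, ?_⟩, ?_⟩
    · refine mul_ne_zero ?_ hw
      exact_mod_cast (div_pos (hpos _ (harc w hw)) hn).ne'
    · rw [harcm _ _ (div_pos (hpos _ (harc w hw)) hn), norm_mul, Complex.norm_real,
        Real.norm_eq_abs, abs_of_pos (div_pos (hpos _ (harc w hw)) hn), div_mul_cancel₀ _ hn.ne']
    · rintro r ⟨hr, -, h2⟩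
      rw [harcm _ _ hr, norm_mul, Complex.norm_real, Real.norm_eq_abs, abs_of_pos hr] at h2
      rw [eq_div_iff hn.ne', h2]
  obtain ⟨g, h1, h2, h3⟩ := Octic.star_disc _ hcpt h0 hu
  have hset : starSet ρ = g '' Metric.closedBall 0 1 := by
    rw [h1]
    ext z
    constructor
    · intro hz
      by_cases hz0 : z = 0
      · subst hz0
        have h4 := hpos 1 (by simp)
        refine ⟨0, le_rfl, zero_le_one, (ρ 1 : ℂ) * 1, ?_, by simp⟩
        rw [starCurve_eq hpos]
        exact ⟨1, by simp, rfl⟩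
      · rcases hz with hz | hz
        · exact absurd hz hz0
        · have hp := hpos _ (harc z hz0)
          refine ⟨‖z‖ / ρ (arc z), by positivity, (div_le_one hp).2 hz,
            (ρ (arc z) : ℂ) * arc z, ?_, ?_⟩
          · rw [starCurve_eq hpos]
            exact ⟨_, harc z hz0, rfl⟩
          · have hr0 : (ρ (arc z) : ℂ) ≠ 0 := by exact_mod_cast hp.ne'
            have hn : (‖z‖ : ℂ) ≠ 0 := by exact_mod_cast norm_ne_zero_iff.2 hz0
            rw [Complex.ofReal_div, ← mul_assoc, div_mul_cancel₀ _ hr0, arc,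
              mul_inv_cancel_left₀ hn]
    · rintro ⟨t, ht0, ht1, a, ha, rfl⟩
      rcases ht0.eq_or_lt with h | h
      · left
        rw [← h]
        simp
      · right
        rw [harcm _ _ h, norm_mul, Complex.norm_real, Real.norm_eq_abs, abs_of_pos h, ha.2]
        have h5 := hpos _ (harc a ha.1)
        nlinarith
  have hemb := Octic.isOpenEmbedding_chart hc
  have hintS : interior (starSet ρ) = g '' Metric.ball 0 1 := by
    rw [hset, ← g.image_interior, interior_closedBall _ one_ne_zero]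
  have hint : interior (Octic.chart hc '' starSet ρ) = Octic.chart hc '' interior (starSet ρ) := by
    apply subset_antisymm
    · intro p hp
      obtain ⟨z, hz, rfl⟩ := interior_subset hp
      refine ⟨z, ?_, rfl⟩
      rw [mem_interior]
      refine ⟨Octic.chart hc ⁻¹' interior (Octic.chart hc '' starSet ρ), ?_,
        isOpen_interior.preimage hemb.continuous, hp⟩
      intro w hw
      obtain ⟨w', hw', h6⟩ := interior_subset hw
      rwa [← hemb.injective h6]
    · exact hemb.isOpenMap.image_interior_subset _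
  refine ⟨fun z => Octic.chart hc (g z), hemb.continuous.comp
    (g.continuous.comp continuous_subtype_val), fun z w hzw => Subtype.ext
    (g.injective (hemb.injective hzw)), ?_, ?_⟩
  · rw [hset]
    ext p
    constructor
    · rintro ⟨z, rfl⟩
      exact ⟨_, ⟨_, z.2, rfl⟩, rfl⟩
    · rintro ⟨_, ⟨z, hz, rfl⟩, rfl⟩
      exact ⟨⟨z, hz⟩, rfl⟩
  · rw [hint, hintS]
    ext p
    constructor
    · rintro ⟨_, ⟨z, hz, rfl⟩, rfl⟩
      exact ⟨⟨z, Metric.ball_subset_closedBall hz⟩, mem_ball_zero_iff.1 hz, rfl⟩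
    · rintro ⟨z, hz, rfl⟩
      exact ⟨_, ⟨_, mem_ball_zero_iff.2 hz, rfl⟩, rfl⟩

theorem StarOval.isDisc {c u v : Fin 3 → ℝ} {hc : LinearIndependent ℝ ![c, u, v]} {ρ : ℂ → ℝ}
    {Δ : Set RP2} (h : StarOval c u v hc ρ Δ) : IsDisc Δ := by
  rw [h.disc]
  exact isDisc_starSet h.cont h.pos

theorem StarSystem.hasScheme {X : Set RP2} {c : Fin 20 → Fin 3 → ℝ} {Δ : Fin 20 → Set RP2}
    (h : StarSystem X c Δ) : HasScheme 8 X S15 := by
  refine HasDiscs.hasScheme (by decide) (Δ := Δ) ⟨fun i => ?_, ?_, ?_, h.eq⟩ (fun i => Or.inl rfl) ?_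
  · obtain ⟨u, v, hc, ρ, h1⟩ := h.star i
    exact h1.isDisc
  · intro i j hij hle
    rcases hle with hle | ⟨h1, h2⟩
    · exact absurd hle hij
    · have h3 : j = (4 : Fin 20) := Fin.ext h2
      subst h3
      exact h.nest i h1
  · intro i j hij hji
    refine h.disj i j (fun h1 => hij (Or.inl h1)) (fun h1 => hij (Or.inr ⟨h1.1, ?_⟩))
      fun h1 => hji (Or.inr ⟨h1.1, ?_⟩)
    · rw [h1.2]; rfl
    · rw [h1.2]; rfl
  · intro i j hij hle hle'
    rcases hle with hle | ⟨h1, h2⟩
    · exact hij hle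
    · rcases hle' with hle' | ⟨h3, h4⟩
      · exact hij hle'.symm
      · omega

/-! ### the disproof from its ingredients -/

/-- **the disproof of the maximality conjecture** (isotopy types) from its ingredients: `A` is an
octic of scheme `15 ⊔ 1⟨4⟩`, the octic `A'` has the scheme `S'` with the discs `Δ'`, and the
deletion of the oval `i` of `A'` gives the isotopy type of `A` -/
theorem not_rohlinConjecture (h1 : IsTypeOne 8 S15) {A A' : RealCurve 8}
    (hA : HasScheme 8 A.real S15) {S' : Scheme} {Δ' : Fin S'.n → Set RP2}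
    (hA' : HasDiscs A'.real S' Δ') (i : Fin S'.n)
    (hiso : Isotopic A.real (A'.real \ frontier (Δ' i))) : ¬ RohlinConjecture := fun h =>
  h 8 (by norm_num) A (fun _ hB => dividing_of_isotopic h1 hA hB)
    ⟨A', hA'.properSubscheme i hiso⟩

/-- the same for systems of star shaped discs -/
theorem not_rohlinConjecture_of_star (h1 : IsTypeOne 8 S15)
    (hstar : ∀ {X X' : Set RP2} {c c' : Fin 20 → Fin 3 → ℝ} {D D' : Fin 20 → Set RP2},
      StarSystem X c D → StarSystem X' c' D' → Isotopic X X')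
    {A A' : RealCurve 8} {c : Fin 20 → Fin 3 → ℝ} {D : Fin 20 → Set RP2}
    (hA : StarSystem A.real c D) {S' : Scheme} {Δ' : Fin S'.n → Set RP2}
    (hA' : HasDiscs A'.real S' Δ') (i : Fin S'.n) {c' : Fin 20 → Fin 3 → ℝ}
    {D' : Fin 20 → Set RP2} (hS : StarSystem (A'.real \ frontier (Δ' i)) c' D') :
    ¬ RohlinConjecture :=
  not_rohlinConjecture h1 hA.hasScheme hA' i (hstar hA hS)

end Pool.Agent.Rohlin
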