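import Pool.Agent.Rohlin.Octic.Chart
import Pool.Agent.Rohlin.LinChange

/-!
# Isotopy of subsets of the real projective plane, ovals, subschemes; the conjecture
-/

set_option autoImplicit false

namespace Pool.Agent.Rohlin

open Set Topology

/-- `X` and `Y` are (ambient) isotopic in the real projective plane -/
def Isotopic (X Y : Set RP2) : Prop :=
  ∃ h : unitInterval → RP2 ≃ₜ RP2, Continuous (fun p : unitInterval × RP2 => h p.1 p.2) ∧
    h 0 = Homeomorph.refl RP2 ∧ h 1 '' X = Y

/-- `O` is an oval of `X`: a connected component of `X` which bounds a closed disc -/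
def IsOval (X O : Set RP2) : Prop :=
  (∃ x ∈ X, O = connectedComponentIn X x) ∧ ∃ Δ, IsDisc Δ ∧ O = frontier Δ

/-- the scheme (= isotopy type) of `X` is a proper subscheme of the scheme of `X'`: a
representative `Y` of the first is obtained from a representative `Y'` of the second by deleting
some (at least one) ovals -/
def ProperSubscheme (X X' : Set RP2) : Prop :=
  ∃ Y Y' : Set RP2, Isotopic X Y ∧ Isotopic X' Y' ∧
    ∃ 𝒪 : Set (Set RP2), 𝒪.Nonempty ∧ (∀ O ∈ 𝒪, IsOval Y' O) ∧ Y = Y' \ ⋃₀ 𝒪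

/-- Rohlin's conjecture (Q1): for every `m ≥ 1`, every real scheme of degree `m` which is of type I
(all nonsingular real curves of degree `m` with this scheme are dividing) is maximal (not a proper
subscheme of another real scheme of degree `m`) -/
def RohlinConjecture : Prop :=
  ∀ m : ℕ, 1 ≤ m → ∀ A : RealCurve m,
    (∀ B : RealCurve m, Isotopic A.real B.real → B.Dividing) →
      ¬ ∃ A' : RealCurve m, ProperSubscheme A.real A'.real

/-- an isotopy of the plane which is the identity outside of `K` -/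
def PlaneIso (K : Set ℂ) (h : unitInterval → ℂ ≃ₜ ℂ) : Prop :=
  Continuous (fun p : unitInterval × ℂ => h p.1 p.2) ∧ h 0 = Homeomorph.refl ℂ ∧
    ∀ t, ∀ z ∉ K, h t z = z

/-- the direction of a complex number -/
noncomputable def arc (z : ℂ) : ℂ := (‖z‖ : ℂ)⁻¹ * z

/-- the closed star shaped region with radial function `ρ` (only the values on the unit circle
matter) -/
def starSet (ρ : ℂ → ℝ) : Set ℂ := {z | z = 0 ∨ ‖z‖ ≤ ρ (arc z)}

/-- its boundary curve -/
def starCurve (ρ : ℂ → ℝ) : Set ℂ := {z | z ≠ 0 ∧ ‖z‖ = ρ (arc z)}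

/-- the disc `Δ` is star shaped with respect to the centre `c` in the chart `(c, u, v)` -/
structure StarOval (c u v : Fin 3 → ℝ) (hc : LinearIndependent ℝ ![c, u, v]) (ρ : ℂ → ℝ)
    (Δ : Set RP2) : Prop where
  cont : ContinuousOn ρ (Metric.sphere 0 1)
  pos : ∀ z ∈ Metric.sphere (0 : ℂ) 1, 0 < ρ z
  disc : Δ = Octic.chart hc '' starSet ρ
  front : frontier Δ = Octic.chart hc '' starCurve ρ

/-- a system of star shaped discs with the nesting of `S15` -/
structure StarSystem (X : Set RP2) (c : Fin 20 → Fin 3 → ℝ) (Δ : Fin 20 → Set RP2) : Prop where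
  star : ∀ i, ∃ u v hc ρ, StarOval (c i) u v hc ρ (Δ i)
  nest : ∀ i : Fin 20, i.val < 4 → Δ i ⊆ interior (Δ 4)
  disj : ∀ i j : Fin 20, i ≠ j → ¬ (i.val < 4 ∧ j = 4) → ¬ (j.val < 4 ∧ i = 4) →
    Disjoint (Δ i) (Δ j)
  eq : X = ⋃ i, frontier (Δ i)

end Pool.Agent.Rohlin
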