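import Pool.Agent.Rohlin.Octic.Oval
import Pool.Agent.Rohlin.Iso.Base

/-!
# The ovals of the certificates are star shaped
-/

set_option autoImplicit false

namespace Pool.Agent.Rohlin.Octic

namespace OvalStar

open Set Topology Metric

/-- the radial function of a star-shaped curve: `g z` is the norm of the point of the curve on the
ray of `z` -/
theorem exists_radial (A : Set ℂ) (hA : IsCompact A) (h0 : (0 : ℂ) ∉ A)
    (hu : ∀ w : ℂ, w ≠ 0 → ∃! r : ℝ, 0 < r ∧ (r : ℂ) * w ∈ A) :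
    ∃ g : ℂ → ℝ, ∃ m M : ℝ, 0 < m ∧ (∀ z, m ≤ g z) ∧ (∀ z, g z ≤ M) ∧
      (∀ z, z ≠ 0 → ContinuousAt g z) ∧ (∀ z, ∀ t : ℝ, 0 < t → g ((t : ℂ) * z) = g z) ∧
      (∀ z, ‖z‖ = 1 → (g z : ℂ) * z ∈ A) ∧ ∀ a ∈ A, g a = ‖a‖ := by
  have hne : ∀ a ∈ A, a ≠ 0 := fun a ha h => h0 (h ▸ ha)
  have hA0 : A.Nonempty := by
    obtain ⟨r, ⟨-, hr⟩, -⟩ := hu 1 one_ne_zero
    exact ⟨_, hr⟩
  have : CompactSpace A := isCompact_iff_compactSpace.1 hA
  -- the homeomorphism with the unit circle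
  have hmem : ∀ z : ℂ, z ≠ 0 → ((‖z‖⁻¹ : ℝ) : ℂ) * z ∈ sphere (0 : ℂ) 1 := fun z hz => by
    rw [mem_sphere_zero_iff_norm, norm_mul, Complex.norm_real, norm_inv, norm_norm,
      inv_mul_cancel₀ (norm_ne_zero_iff.2 hz)]
  obtain ⟨p, hp⟩ : ∃ p : A → sphere (0 : ℂ) 1, ∀ a, (p a : ℂ) = ((‖(a : ℂ)‖⁻¹ : ℝ) : ℂ) * a :=
    ⟨fun a => ⟨_, hmem a (hne a a.2)⟩, fun a => rfl⟩
  have hpc : Continuous p := by
    refine Continuous.subtype_mk (p := fun z => z ∈ sphere (0 : ℂ) 1)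
      (f := fun a : A => (p a : ℂ)) ?_ fun a => (p a).2
    simp only [hp]
    refine Continuous.mul ?_ continuous_subtype_val
    exact Complex.continuous_ofReal.comp
      ((continuous_norm.comp continuous_subtype_val).inv₀ fun a =>
        norm_ne_zero_iff.2 (hne a a.2))
  have hback : ∀ a : A, (‖(a : ℂ)‖ : ℂ) * (p a : ℂ) = a := fun a => by
    rw [hp, ← mul_assoc, ← Complex.ofReal_mul,
      mul_inv_cancel₀ (norm_ne_zero_iff.2 (hne a a.2)), Complex.ofReal_one, one_mul]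
  have hune : ∀ u : sphere (0 : ℂ) 1, (u : ℂ) ≠ 0 := fun u h => by
    have := mem_sphere_zero_iff_norm.1 u.2
    rw [h, norm_zero] at this
    exact zero_ne_one this
  have hbij : Function.Bijective p := by
    constructor
    · intro a b hab
      have h1 := (hu _ (hune (p a))).unique
        (y₁ := ‖(a : ℂ)‖) (y₂ := ‖(b : ℂ)‖)
        ⟨norm_pos_iff.2 (hne a a.2), by rw [hback]; exact a.2⟩
        ⟨norm_pos_iff.2 (hne b b.2), by rw [hab, hback]; exact b.2⟩
      apply Subtype.ext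
      rw [← hback a, ← hback b, h1, hab]
    · intro u
      obtain ⟨r, ⟨hr, hru⟩, -⟩ := hu _ (hune u)
      refine ⟨⟨_, hru⟩, Subtype.ext ?_⟩
      rw [hp]
      show ((‖(r : ℂ) * (u : ℂ)‖⁻¹ : ℝ) : ℂ) * ((r : ℂ) * (u : ℂ)) = u
      rw [norm_mul, Complex.norm_real, mem_sphere_zero_iff_norm.1 u.2, mul_one,
        Real.norm_of_nonneg hr.le, ← mul_assoc, ← Complex.ofReal_mul, inv_mul_cancel₀ hr.ne',
        Complex.ofReal_one, one_mul]
  obtain ⟨e, he⟩ : ∃ e : A ≃ₜ sphere (0 : ℂ) 1, ∀ a, e a = p a :=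
    ⟨Continuous.homeoOfEquivCompactToT2 (f := Equiv.ofBijective p hbij) hpc, fun a => rfl⟩
  -- bounds
  obtain ⟨a₀, ha₀, hmin⟩ := hA.exists_isMinOn hA0 continuous_norm.continuousOn
  obtain ⟨a₁, ha₁, hmax⟩ := hA.exists_isMaxOn hA0 continuous_norm.continuousOn
  classical
  obtain ⟨g, hg, hg0⟩ : ∃ g : ℂ → ℝ,
      (∀ z (hz : z ≠ 0), g z = ‖(e.symm ⟨_, hmem z hz⟩ : ℂ)‖) ∧ g 0 = ‖a₀‖ := by
    refine ⟨fun z => if hz : z ≠ 0 then ‖(e.symm ⟨_, hmem z hz⟩ : ℂ)‖ else ‖a₀‖,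
      fun z hz => ?_, ?_⟩
    · show (if hz : z ≠ 0 then ‖(e.symm ⟨_, hmem z hz⟩ : ℂ)‖ else ‖a₀‖) = _
      rw [dif_pos hz]
    · show (if hz : (0 : ℂ) ≠ 0 then ‖(e.symm ⟨_, hmem 0 hz⟩ : ℂ)‖ else ‖a₀‖) = _
      rw [dif_neg (not_not.2 rfl)]
  have hlow : ∀ a ∈ A, ‖a₀‖ ≤ ‖a‖ := fun a ha => hmin ha
  have hupp : ∀ a ∈ A, ‖a‖ ≤ ‖a₁‖ := fun a ha => hmax ha
  refine ⟨g, ‖a₀‖, ‖a₁‖, norm_pos_iff.2 (hne a₀ ha₀), fun z => ?_, fun z => ?_, fun z hz => ?_,
    fun z t ht => ?_, fun z hz => ?_, fun a ha => ?_⟩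
  · by_cases hz : z = 0
    · rw [hz, hg0]
    · rw [hg z hz]
      exact hlow _ (e.symm _).2
  · by_cases hz : z = 0
    · rw [hz, hg0]
      exact hupp _ ha₀
    · rw [hg z hz]
      exact hupp _ (e.symm _).2
  · have hon : ContinuousOn g {z | z ≠ 0} := by
      rw [continuousOn_iff_continuous_domRestrict]
      have h1 : domRestrict {z : ℂ | z ≠ 0} g = fun z : {z : ℂ | z ≠ 0} =>
          ‖(e.symm ⟨_, hmem z.1 z.2⟩ : ℂ)‖ := funext fun z => hg z.1 z.2
      rw [h1]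
      refine continuous_norm.comp (continuous_subtype_val.comp (e.symm.continuous.comp ?_))
      refine Continuous.subtype_mk ?_ _
      refine Continuous.mul ?_ continuous_subtype_val
      exact Complex.continuous_ofReal.comp
        ((continuous_norm.comp continuous_subtype_val).inv₀ fun z => norm_ne_zero_iff.2 z.2)
    exact hon.continuousAt (isOpen_ne.mem_nhds hz)
  · by_cases hz : z = 0
    · rw [hz, mul_zero]
    · have htz : (t : ℂ) * z ≠ 0 := mul_ne_zero (Complex.ofReal_ne_zero.2 ht.ne') hz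
      rw [hg z hz, hg _ htz]
      congr 4
      show ((‖(t : ℂ) * z‖⁻¹ : ℝ) : ℂ) * ((t : ℂ) * z) = ((‖z‖⁻¹ : ℝ) : ℂ) * z
      rw [norm_mul, Complex.norm_real, Real.norm_of_nonneg ht.le, ← mul_assoc,
        ← Complex.ofReal_mul, mul_inv, mul_right_comm, inv_mul_cancel₀ ht.ne', one_mul]
  · have hz0 : z ≠ 0 := fun h => by
      rw [h, norm_zero] at hz
      exact zero_ne_one hz
    have h1 : (p (e.symm ⟨_, hmem z hz0⟩) : ℂ) = z := by
      rw [← he, e.apply_symm_apply]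
      show ((‖z‖⁻¹ : ℝ) : ℂ) * z = z
      rw [hz, inv_one, Complex.ofReal_one, one_mul]
    have h2 := hback (e.symm ⟨_, hmem z hz0⟩)
    rw [h1] at h2
    rw [hg z hz0, h2]
    exact (e.symm _).2
  · rw [hg a (hne a ha)]
    congr 1
    have h1 : e.symm ⟨_, hmem a (hne a ha)⟩ = ⟨a, ha⟩ := by
      rw [Homeomorph.symm_apply_eq, he]
      apply Subtype.ext
      rw [hp]
    rw [h1]

end OvalStar

open MvPolynomial Set Topology OvalAux OvalStar

/-- the oval theorem with the star shape of the disc -/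
theorem exists_oval_star {m : ℕ} (F : MvPolynomial (Fin 3) ℝ) (hF : F.IsHomogeneous m)
    (c : Fin 3 → ℝ) (ℓ : (Fin 3 → ℝ) →ₗ[ℝ] ℝ) (σ : ℝ) (Q K : Set (Fin 3 → ℝ)) (hc : 0 < ℓ c)
    (hQc : IsClosed Q) (hQ : ∀ x ∈ Q, ∀ r s : ℝ, 0 ≤ r → 0 ≤ s → r • x + s • c ∈ Q)
    (hQl : ∀ x ∈ Q, x ≠ 0 → 0 < ℓ x) (_hQi : c ∈ interior Q) (hKc : IsClosed K)
    (hK : ∀ x ∈ K, ∀ r s : ℝ, 0 ≤ r → 0 ≤ s → r • x + s • c ∈ K) (hcK : c ∈ K) (hKQ : K ⊆ Q)
    (h1 : ∀ x ∈ frontier Q, x ≠ 0 → 0 < σ * eval x F)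
    (h2 : ∀ x ∈ frontier K, x ≠ 0 → σ * eval x F < 0)
    (h3 : ∀ x ∈ Q, x ∉ K → eval x F = 0 → σ * ∑ j, c j * eval x (pderiv j F) < 0) :
    ∃ Δ : Set RP2, IsDisc Δ ∧
      (∀ x (hx : x ≠ 0), Projectivization.mk ℝ x hx ∈ Δ → x ∈ Q ∨ -x ∈ Q) ∧
      (∀ x (hx : x ≠ 0), x ∈ K → Projectivization.mk ℝ x hx ∈ interior Δ) ∧
      (∀ x (hx : x ≠ 0), Projectivization.mk ℝ x hx ∈ frontier Δ ↔
        eval x F = 0 ∧ ((x ∈ Q ∧ x ∉ K) ∨ (-x ∈ Q ∧ -x ∉ K))) ∧
      ∃ u v hc ρ, StarOval c u v hc ρ Δ := by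
  obtain ⟨P, N, hNP, hP0, hPN⟩ := exists_param (c := c) hc.ne'
  have hPc : Continuous P := LinearMap.continuous_of_finiteDimensional P
  have hNc : Continuous N := LinearMap.continuous_of_finiteDimensional N
  have hlc : Continuous ℓ := LinearMap.continuous_of_finiteDimensional ℓ
  have hlP : ∀ z, ℓ (c + P z) = ℓ c := fun z => by rw [map_add, hP0, add_zero]
  have hne : ∀ z, c + P z ≠ 0 := fun z h0 => by
    have := hlP z
    rw [h0, map_zero] at this
    exact hc.ne this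
  have hPr : ∀ (r : ℝ) (z : ℂ), P ((r : ℂ) * z) = r • P z := fun r z => by
    rw [← Complex.real_smul, map_smul]
  -- the boundary curve in the chart
  obtain ⟨A, hAdef⟩ : ∃ A : Set ℂ, A = {z | eval (c + P z) F = 0 ∧ c + P z ∈ Q ∧ c + P z ∉ K} :=
    ⟨_, rfl⟩
  have hmA : ∀ z, z ∈ A ↔ eval (c + P z) F = 0 ∧ c + P z ∈ Q ∧ c + P z ∉ K := fun z => by
    rw [hAdef]; rfl
  have h0A : (0 : ℂ) ∉ A := fun h => by
    have := ((hmA 0).1 h).2.2
    rw [map_zero, add_zero] at this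
    exact this hcK
  obtain ⟨ε, hε, hbound⟩ := exists_cone_bound hQc hQ hQl
  have hevc : Continuous fun x : Fin 3 → ℝ => eval x F := MvPolynomial.continuous_eval F
  have hcm : Continuous fun z : ℂ => c + P z := continuous_const.add hPc
  have hAc : IsCompact A := by
    have hQK : IsCompact (Q ∩ {x | ℓ x = ℓ c}) := by
      refine Metric.isCompact_of_isClosed_isBounded
        (hQc.inter (isClosed_eq hlc continuous_const)) ?_
      refine (Metric.isBounded_closedBall (x := (0 : Fin 3 → ℝ)) (r := ℓ c / ε)).subset ?_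
      rintro x ⟨hx, hx'⟩
      rw [mem_closedBall_zero_iff, le_div_iff₀ hε, mul_comm]
      exact (hbound x hx).trans (le_of_eq hx')
    have him : IsCompact ((fun x => N (x - c)) '' (Q ∩ {x | ℓ x = ℓ c})) :=
      hQK.image (hNc.comp (continuous_id.sub continuous_const))
    refine him.of_isClosed_subset ?_ ?_
    · have hA2 : A = {z | eval (c + P z) F = 0} ∩ ((fun z => c + P z) ⁻¹' Q ∩
          ((fun z => c + P z) ⁻¹' (interior K))ᶜ) := by
        ext z
        rw [hmA]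
        refine ⟨fun h => ⟨h.1, h.2.1, fun h' => h.2.2 (interior_subset h')⟩, fun h =>
          ⟨h.1, h.2.1, fun h' => ?_⟩⟩
        have hfr : c + P z ∈ frontier K := by
          rw [hKc.frontier_eq]
          exact ⟨h', h.2.2⟩
        have h4 := h2 _ hfr (hne z)
        have h5 : eval (c + P z) F = 0 := h.1
        rw [h5, mul_zero] at h4
        exact lt_irrefl _ h4
      rw [hA2]
      exact (isClosed_eq (hevc.comp hcm) continuous_const).inter
        ((hQc.preimage hcm).inter (isOpen_interior.preimage hcm).isClosed_compl)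
    · intro z hz
      refine ⟨c + P z, ⟨((hmA z).1 hz).2.1, hlP z⟩, ?_⟩
      show N (c + P z - c) = z
      rw [add_sub_cancel_left, hNP]
  have hunique : ∀ w : ℂ, w ≠ 0 → ∃! r : ℝ, 0 < r ∧ (r : ℂ) * w ∈ A := by
    intro w hw
    have hPw : P w ≠ 0 := fun h0 => by
      have := hNP w
      rw [h0, map_zero] at this
      exact hw this.symm
    have hPw' : 0 < ‖P w‖ := norm_pos_iff.2 hPw
    have hrw : ∀ r : ℝ, c + r • P w = c + P ((r : ℂ) * w) := fun r => by rw [hPr]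
    have hb : BddAbove {r : ℝ | 0 ≤ r ∧ c + r • P w ∈ Q} := by
      refine ⟨(ℓ c / ε + ‖c‖) / ‖P w‖, ?_⟩
      rintro r ⟨hr, hrQ⟩
      rw [le_div_iff₀ hPw']
      have h4 : ‖c + r • P w‖ ≤ ℓ c / ε := by
        rw [le_div_iff₀ hε, mul_comm]
        refine (hbound _ hrQ).trans (le_of_eq ?_)
        rw [hrw, hlP]
      have h5 : r * ‖P w‖ = ‖(c + r • P w) - c‖ := by
        rw [add_sub_cancel_left, norm_smul, Real.norm_of_nonneg hr]
      rw [h5]
      exact (norm_sub_le _ _).trans (add_le_add h4 le_rfl)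
    have h4 := ray_unique hF hQc hQ hKc hK hcK hKQ h1 h2 h3 (W := P w)
      (fun r => by rw [hrw]; exact hne _) hb
    have h5 : ∀ r : ℝ, (0 < r ∧ (r : ℂ) * w ∈ A) ↔
        (0 < r ∧ (eval (c + r • P w) F = 0 ∧ c + r • P w ∈ Q ∧ c + r • P w ∉ K)) := fun r => by
      rw [hmA, hrw]
    simpa only [h5] using h4
  obtain ⟨h, hcl, hop, hsp⟩ := star_disc A hAc h0A hunique
  have hemb := isOpenEmbedding_planeChart hc.ne' hNP hP0 hPN hne
  obtain ⟨φ, hφ⟩ : ∃ φ : ℂ → RP2, φ = planeChart c P hne := ⟨_, rfl⟩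
  rw [← hφ] at hemb
  have hφz : ∀ z, φ z = Projectivization.mk ℝ (c + P z) (hne z) := fun z => by rw [hφ]; rfl
  have hinterior : interior (φ '' (h '' Metric.closedBall 0 1)) =
      φ '' (h '' Metric.ball 0 1) := by
    rw [interior_image_of_isOpenEmbedding hemb, ← h.image_interior,
      interior_closedBall (0 : ℂ) one_ne_zero]
  have hcompact : IsCompact (φ '' (h '' Metric.closedBall 0 1)) :=
    ((isCompact_closedBall _ _).image h.continuous).image hemb.continuous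
  have hfrontier : frontier (φ '' (h '' Metric.closedBall 0 1)) = φ '' A := by
    rw [hcompact.isClosed.frontier_eq, hinterior, ← image_sdiff hemb.injective,
      ← image_sdiff h.injective, Metric.closedBall_sdiff_ball, hsp]
  have hmk : ∀ x (hx : x ≠ 0) (S : Set ℂ), Projectivization.mk ℝ x hx ∈ φ '' S ↔
      ∃ z ∈ S, ∃ a : ℝ, a ≠ 0 ∧ x = a • (c + P z) := by
    intro x hx S
    constructor
    · rintro ⟨z, hz, hzx⟩
      rw [hφz] at hzx
      obtain ⟨a, ha⟩ := (Projectivization.mk_eq_mk_iff' ℝ _ _ _ _).1 hzx.symm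
      refine ⟨z, hz, a, ?_, ha.symm⟩
      rintro rfl
      rw [zero_smul] at ha
      exact hx ha.symm
    · rintro ⟨z, hz, a, -, ha⟩
      refine ⟨z, hz, ?_⟩
      rw [hφz]
      exact ((Projectivization.mk_eq_mk_iff' ℝ _ _ _ _).2 ⟨a, ha.symm⟩).symm
  -- the point of the chart plane on a ray
  have hproj : ∀ x, 0 < ℓ x → x = (ℓ x / ℓ c) • (c + P (N ((ℓ c / ℓ x) • x - c))) := by
    intro x hx
    have h4 : ℓ ((ℓ c / ℓ x) • x - c) = 0 := by
      rw [map_sub, map_smul, smul_eq_mul, div_mul_cancel₀ _ hx.ne', sub_self]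
    rw [hPN _ h4, add_sub_cancel, smul_smul, div_mul_div_comm, mul_comm (ℓ c),
      div_self (mul_ne_zero hx.ne' hc.ne'), one_smul]
  refine ⟨φ '' (h '' Metric.closedBall 0 1), ?_, ?_, ?_, ?_, ?_⟩
  · refine ⟨fun z => φ (h z), hemb.continuous.comp (h.continuous.comp continuous_subtype_val),
      fun z w hzw => Subtype.ext (h.injective (hemb.injective hzw)), ?_, ?_⟩
    · ext p
      constructor
      · rintro ⟨z, rfl⟩
        exact ⟨h z, ⟨z, z.2, rfl⟩, rfl⟩
      · rintro ⟨_, ⟨z, hz, rfl⟩, rfl⟩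
        exact ⟨⟨z, hz⟩, rfl⟩
    · rw [hinterior]
      ext p
      constructor
      · rintro ⟨_, ⟨z, hz, rfl⟩, rfl⟩
        exact ⟨⟨z, Metric.ball_subset_closedBall hz⟩, mem_ball_zero_iff.1 hz, rfl⟩
      · rintro ⟨z, hz, rfl⟩
        exact ⟨h z, ⟨z, mem_ball_zero_iff.2 hz, rfl⟩, rfl⟩
  · intro x hx hxΔ
    obtain ⟨z, hz, a, ha, hxa⟩ := (hmk x hx _).1 hxΔ
    rw [hcl] at hz
    obtain ⟨t, ht0, ht1, w, hw, rfl⟩ := hz
    have h4 : c + P w ∈ Q := ((hmA w).1 hw).2.1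
    have h5 : c + P ((t : ℂ) * w) ∈ Q := by
      rw [hPr]
      exact ray_mem hQ ht0 ht1 (by rwa [one_smul])
    rcases ha.lt_or_gt with ha' | ha'
    · right
      rw [hxa, ← neg_smul]
      exact smul_mem_cone hQ (neg_nonneg.2 ha'.le) h5
    · left
      rw [hxa]
      exact smul_mem_cone hQ ha'.le h5
  · intro x hx hxK
    rw [hinterior, hmk]
    have hlx : 0 < ℓ x := hQl x (hKQ hxK) hx
    have hxz := hproj x hlx
    obtain ⟨z, hz⟩ : ∃ z, z = N ((ℓ c / ℓ x) • x - c) := ⟨_, rfl⟩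
    rw [← hz] at hxz
    refine ⟨z, ?_, ℓ x / ℓ c, (div_pos hlx hc).ne', hxz⟩
    rw [hop]
    by_cases hz0 : z = 0
    · obtain ⟨r, ⟨-, hr⟩, -⟩ := hunique 1 one_ne_zero
      exact ⟨0, le_rfl, one_pos, _, hr, by rw [hz0, Complex.ofReal_zero, zero_mul]⟩
    · obtain ⟨r, ⟨hr0, hr⟩, -⟩ := hunique z hz0
      have hzK : c + P z ∈ K := by
        rw [hxz] at hxK
        exact (smul_mem_cone_iff hK (div_pos hlx hc)).1 hxK
      have hr1 : 1 < r := by
        by_contra hcon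
        have h4 := ((hmA _).1 hr).2.2
        rw [hPr] at h4
        exact h4 (ray_mem hK hr0.le (not_lt.1 hcon) (by rwa [one_smul]))
      refine ⟨r⁻¹, inv_nonneg.2 hr0.le, inv_lt_one_of_one_lt₀ hr1, _, hr, ?_⟩
      rw [← mul_assoc, ← Complex.ofReal_mul, inv_mul_cancel₀ hr0.ne', Complex.ofReal_one, one_mul]
  · intro x hx
    rw [hfrontier, hmk]
    constructor
    · rintro ⟨z, hz, a, ha, hxa⟩
      obtain ⟨hz1, hz2, hz3⟩ := (hmA z).1 hz
      refine ⟨by rw [hxa, eval_smul_of_homogeneous hF, hz1, mul_zero], ?_⟩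
      rcases ha.lt_or_gt with ha' | ha'
      · right
        rw [hxa, ← neg_smul, smul_mem_cone_iff hQ (neg_pos.2 ha'),
          smul_mem_cone_iff hK (neg_pos.2 ha')]
        exact ⟨hz2, hz3⟩
      · left
        rw [hxa, smul_mem_cone_iff hQ ha', smul_mem_cone_iff hK ha']
        exact ⟨hz2, hz3⟩
    · rintro ⟨hFx, hQK⟩
      have key : ∀ y, y ≠ 0 → eval y F = 0 → y ∈ Q → y ∉ K → ∃ z ∈ A, ∃ a : ℝ, a ≠ 0 ∧
          y = a • (c + P z) := by
        intro y hy hFy hyQ hyK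
        have hly : 0 < ℓ y := hQl y hyQ hy
        have hyz := hproj y hly
        obtain ⟨z, hz⟩ : ∃ z, z = N ((ℓ c / ℓ y) • y - c) := ⟨_, rfl⟩
        rw [← hz] at hyz
        have ha : 0 < ℓ y / ℓ c := div_pos hly hc
        refine ⟨z, (hmA z).2 ⟨?_, ?_, ?_⟩, ℓ y / ℓ c, ha.ne', hyz⟩
        · rw [hyz, eval_smul_of_homogeneous hF] at hFy
          exact (mul_eq_zero.1 hFy).resolve_left (pow_ne_zero _ ha.ne')
        · rw [hyz] at hyQ
          exact (smul_mem_cone_iff hQ ha).1 hyQ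
        · intro h'
          refine hyK ?_
          rw [hyz]
          exact (smul_mem_cone_iff hK ha).2 h'
      rcases hQK with ⟨hxQ, hxK⟩ | ⟨hxQ, hxK⟩
      · exact key x hx hFx hxQ hxK
      · have hFx' : eval (-x) F = 0 := by
          rw [← neg_one_smul ℝ x, eval_smul_of_homogeneous hF, hFx, mul_zero]
        obtain ⟨z, hz, a, ha, hxa⟩ := key (-x) (neg_ne_zero.2 hx) hFx' hxQ hxK
        exact ⟨z, hz, -a, neg_ne_zero.2 ha, by rw [neg_smul, ← hxa, neg_neg]⟩
  · -- the star shape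
    obtain ⟨g, m', M', hm', hlow, -, hgc, hgh, hgs, hgA⟩ := exists_radial A hAc h0A hunique
    have hPz : ∀ z, P z = z.re • P 1 + z.im • P Complex.I := fun z => by
      rw [← map_smul, ← map_smul, ← map_add]
      congr 1
      apply Complex.ext <;> simp
    have hlin : LinearIndependent ℝ ![c, P 1, P Complex.I] := by
      rw [Fintype.linearIndependent_iff]
      intro a ha
      rw [Fin.sum_univ_three] at ha
      simp only [Matrix.cons_val_zero, Matrix.cons_val_one, Matrix.cons_val_two,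
        Matrix.tail_cons, Matrix.head_cons, Matrix.cons_val] at ha
      have h1 : a 0 = 0 := by
        have h2 := congrArg ℓ ha
        rw [map_add, map_add, map_smul, map_smul, map_smul, hP0, hP0, smul_zero, smul_zero,
          add_zero, add_zero, map_zero, smul_eq_mul] at h2
        exact (mul_eq_zero.1 h2).resolve_right hc.ne'
      have h3 : P (⟨a 1, a 2⟩ : ℂ) = 0 := by
        rw [hPz]
        rw [h1, zero_smul, zero_add] at ha
        exact ha
      have h4 := hNP (⟨a 1, a 2⟩ : ℂ)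
      rw [h3, map_zero] at h4
      intro i
      fin_cases i
      · exact h1
      · exact (congrArg Complex.re h4).symm
      · exact (congrArg Complex.im h4).symm
    have hφc : φ = chart hlin := by
      funext z
      rw [hφz]
      unfold chart
      congr 1
      rw [hPz, add_assoc]
    have harc : ∀ z : ℂ, arc z = ((‖z‖⁻¹ : ℝ) : ℂ) * z := fun z => by
      unfold arc
      rw [Complex.ofReal_inv]
    have hgarc : ∀ z : ℂ, z ≠ 0 → g (arc z) = g z := fun z hz => by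
      rw [harc, hgh z _ (inv_pos.2 (norm_pos_iff.2 hz))]
    have hnarc : ∀ z : ℂ, z ≠ 0 → (‖z‖ : ℂ) * arc z = z := fun z hz => by
      rw [harc, ← mul_assoc, ← Complex.ofReal_mul, mul_inv_cancel₀ (norm_ne_zero_iff.2 hz),
        Complex.ofReal_one, one_mul]
    have harc1 : ∀ z : ℂ, z ≠ 0 → ‖arc z‖ = 1 := fun z hz => by
      rw [harc, norm_mul, Complex.norm_real, norm_inv, norm_norm,
        inv_mul_cancel₀ (norm_ne_zero_iff.2 hz)]
    have hgpos : ∀ z, 0 < g z := fun z => hm'.trans_le (hlow z)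
    have hAcurve : A = starCurve g := by
      ext z
      constructor
      · intro hz
        have hz0 : z ≠ 0 := fun h => h0A (h ▸ hz)
        exact ⟨hz0, by rw [hgarc z hz0, hgA z hz]⟩
      · rintro ⟨hz0, hz⟩
        have h1 := hgs (arc z) (harc1 z hz0)
        rwa [← hz, hnarc z hz0] at h1
    have hset : h '' Metric.closedBall 0 1 = starSet g := by
      rw [hcl]
      ext z
      constructor
      · rintro ⟨t, ht0, ht1, a, ha, rfl⟩
        rcases ht0.eq_or_lt with h1 | h1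
        · left
          rw [← h1, Complex.ofReal_zero, zero_mul]
        · right
          have ha0 : a ≠ 0 := fun h => h0A (h ▸ ha)
          rw [hgarc _ (mul_ne_zero (Complex.ofReal_ne_zero.2 h1.ne') ha0), hgh a t h1, hgA a ha,
            norm_mul, Complex.norm_real, Real.norm_of_nonneg ht0]
          exact mul_le_of_le_one_left (norm_nonneg _) ht1
      · intro hz
        by_cases hz0 : z = 0
        · obtain ⟨r, ⟨-, hr⟩, -⟩ := hunique 1 one_ne_zero
          exact ⟨0, le_rfl, zero_le_one, _, hr, by rw [hz0, Complex.ofReal_zero, zero_mul]⟩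
        · have h1 := hz.resolve_left hz0
          have h2 := hgpos (arc z)
          refine ⟨‖z‖ / g (arc z), div_nonneg (norm_nonneg _) h2.le, (div_le_one h2).2 h1,
            _, hgs (arc z) (harc1 z hz0), ?_⟩
          rw [← mul_assoc, ← Complex.ofReal_mul, div_mul_cancel₀ _ h2.ne', hnarc z hz0]
    refine ⟨P 1, P Complex.I, hlin, g, ⟨?_, fun z _ => hgpos z, ?_, ?_⟩⟩
    · intro z hz
      refine (hgc z fun h => ?_).continuousWithinAt
      rw [h, mem_sphere_zero_iff_norm, norm_zero] at hz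
      exact zero_ne_one hz
    · rw [hset, hφc]
    · rw [hfrontier, hAcurve, hφc]

end Pool.Agent.Rohlin.Octic
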