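import Pool.Agent.Rohlin.Octic.Cert
import Pool.Agent.Rohlin.Iso.OvalStar
import Pool.Agent.Rohlin.Iso.Fin

/-!
# The certificates give systems of star shaped discs
-/

set_option autoImplicit false

namespace Pool.Agent.Rohlin

open Set

/-- star shaped discs with the scheme `S` -/
structure StarDiscs (X : Set RP2) (S : Scheme) (c : Fin S.n → Fin 3 → ℝ)
    (Δ : Fin S.n → Set RP2) : Prop extends HasDiscs X S Δ where
  star : ∀ i, ∃ u v hc ρ, StarOval (c i) u v hc ρ (Δ i)

/-- the star system of `S15` -/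
theorem StarDiscs.starSystem {X : Set RP2} {c : Fin S15.n → Fin 3 → ℝ}
    {Δ : Fin S15.n → Set RP2} (h : StarDiscs X S15 c Δ) : StarSystem X c Δ := by
  refine ⟨h.star, fun i hi => h.nest i (4 : Fin 20) (fun h4 => ?_) (Or.inr ⟨hi, rfl⟩), fun i j hij h1 h2 => ?_,
    h.eq⟩
  · rw [h4] at hi
    exact absurd hi (by decide)
  · refine h.disj i j ?_ ?_
    · rintro (h3 | ⟨h3, h4⟩)
      · exact hij h3
      · exact h1 ⟨h3, Fin.ext h4⟩
    · rintro (h3 | ⟨h3, h4⟩)
      · exact hij h3.symm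
      · exact h2 ⟨h3, Fin.ext h4⟩

theorem forget_four : (forget (4 : Fin 20)).val = 4 := by decide

theorem le_forget (i j : Fin 20) : S13.le (forget i) (forget j) ↔ S15.le i j := by
  show (forget i = forget j ∨
      ((forget i).val < 4 ∧ (forget j).val = 4) ∨
      (((forget i).val = 5 ∨ (forget i).val = 6) ∧ (forget j).val = 7)) ↔
    (i = j ∨ (i.val < 4 ∧ j.val = 4))
  rw [Fin.ext_iff, Fin.ext_iff, forget_val i, forget_val j]
  split_ifs <;> omega

/-- the star system which one gets from `S13` by forgetting the oval `7` -/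
theorem StarDiscs.starSystem_forget {X : Set RP2} {c : Fin S13.n → Fin 3 → ℝ}
    {Δ : Fin S13.n → Set RP2} (h : StarDiscs X S13 c Δ) :
    StarSystem (X \ frontier (Δ (7 : Fin 21))) (fun i => c (forget i)) (fun i => Δ (forget i)) := by
  have hne : ∀ i j : Fin 20, i ≠ j → forget i ≠ forget j := fun i j hij h1 => hij (by
    have h2 := congrArg Fin.val h1
    rw [forget_val, forget_val] at h2
    apply Fin.ext
    split_ifs at h2 <;> omega)
  have h7 : ∀ i : Fin 20, forget i ≠ (7 : Fin 21) := fun i h1 => by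
    have h2 := congrArg Fin.val h1
    rw [forget_val] at h2
    change _ = 7 at h2
    split_ifs at h2 <;> omega
  refine ⟨fun i => h.star (forget i), fun i hi => ?_, fun i j hij h1 h2 => ?_, ?_⟩
  · refine h.nest (forget i) (forget 4) (hne i 4 fun h4 => ?_)
      ((le_forget i 4).2 (Or.inr ⟨hi, rfl⟩))
    rw [h4] at hi
    exact absurd hi (by decide)
  · refine h.disj (forget i) (forget j) ?_ ?_
    · rw [le_forget]
      rintro (h3 | ⟨h3, h4⟩)
      · exact hij h3
      · exact h1 ⟨h3, Fin.ext h4⟩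
    · rw [le_forget]
      rintro (h3 | ⟨h3, h4⟩)
      · exact hij h3.symm
      · exact h2 ⟨h3, Fin.ext h4⟩
  · have hsurj : ∀ j : Fin 21, j ≠ 7 → ∃ i : Fin 20, forget i = j := by decide
    rw [h.eq]
    ext p
    constructor
    · rintro ⟨hp, hp7⟩
      obtain ⟨j, hj⟩ := mem_iUnion.1 hp
      have hj7 : j ≠ (7 : Fin 21) := fun h1 => hp7 (h1 ▸ hj)
      obtain ⟨i, hi⟩ := hsurj j hj7
      exact mem_iUnion.2 ⟨i, by rw [hi]; exact hj⟩
    · intro hp
      obtain ⟨i, hi⟩ := mem_iUnion.1 hp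
      refine ⟨mem_iUnion.2 ⟨forget i, hi⟩, fun hp7 => ?_⟩
      exact Set.disjoint_left.1 (h.toHasDiscs.disjoint_frontier (h7 i)) hi hp7

namespace Octic

open MvPolynomial Set

theorem ovalIn_star {F : MvPolynomial (Fin 3) ℝ} {Q K : Set (Fin 3 → ℝ)} {R : Set RP2 → Prop}
    (h : ∃ Δ : Set RP2, IsDisc Δ ∧
      (∀ x (hx : x ≠ 0), Projectivization.mk ℝ x hx ∈ Δ → x ∈ Q ∨ -x ∈ Q) ∧
      (∀ x (hx : x ≠ 0), x ∈ K → Projectivization.mk ℝ x hx ∈ interior Δ) ∧
      (∀ x (hx : x ≠ 0), Projectivization.mk ℝ x hx ∈ frontier Δ ↔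
        eval x F = 0 ∧ ((x ∈ Q ∧ x ∉ K) ∨ (-x ∈ Q ∧ -x ∉ K))) ∧ R Δ) :
    ∃ Δ : Set RP2, OvalIn F Q K Δ ∧ R Δ := by
  obtain ⟨Δ, h1, h2, h3, h4, h5⟩ := h
  exact ⟨Δ, ⟨h1, h2, h3, h4⟩, h5⟩

/-- the assembly: ovals with nested and otherwise disjoint outer and inner sets -/
theorem hasDiscs_of_ovals {m : ℕ} (A : RealCurve m) (S : Scheme)
    (Q K : Fin S.n → Set (Fin 3 → ℝ)) (Δ : Fin S.n → Set RP2)
    (hΔ : ∀ i, OvalIn A.F (Q i) (K i) (Δ i))
    (hnest : ∀ i j, i ≠ j → S.le i j → ∀ x, x ≠ 0 → x ∈ Q i → x ∈ K j ∨ -x ∈ K j)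
    (hdisj : ∀ i j, ¬ S.le i j → ¬ S.le j i → ∀ x, x ≠ 0 → x ∈ Q i → x ∉ Q j ∧ -x ∉ Q j)
    (hcov : ∀ x, x ≠ 0 → eval x A.F = 0 →
      ∃ i, (x ∈ Q i ∧ x ∉ K i) ∨ (-x ∈ Q i ∧ -x ∉ K i)) :
    HasDiscs A.real S Δ := by
  refine ⟨fun i => (hΔ i).1, ?_, ?_, ?_⟩
  · intro i j hij hle p hp
    induction p using Projectivization.ind with
    | _ x hx =>
      have h1 : x ∈ Q i ∨ -x ∈ Q i := (hΔ i).2.1 x hx hp
      have h2 : x ∈ K j ∨ -x ∈ K j := by
        rcases h1 with h1 | h1
        · exact hnest i j hij hle x hx h1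
        · have := hnest i j hij hle (-x) (neg_ne_zero.2 hx) h1
          rw [neg_neg] at this
          exact this.symm
      rcases h2 with h2 | h2
      · exact (hΔ j).2.2.1 x hx h2
      · have := (hΔ j).2.2.1 (-x) (neg_ne_zero.2 hx) h2
        rwa [mk_neg x hx] at this
  · intro i j h1 h2
    rw [Set.disjoint_left]
    intro p hp hp'
    induction p using Projectivization.ind with
    | _ x hx =>
      have h3 : x ∈ Q i ∨ -x ∈ Q i := (hΔ i).2.1 x hx hp
      have h4 : x ∈ Q j ∨ -x ∈ Q j := (hΔ j).2.1 x hx hp'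
      rcases h3 with h3 | h3
      · have := hdisj i j h1 h2 x hx h3
        tauto
      · have := hdisj i j h1 h2 (-x) (neg_ne_zero.2 hx) h3
        rw [neg_neg] at this
        tauto
  · ext p
    induction p using Projectivization.ind with
    | _ x hx =>
      have h1 : Projectivization.mk ℝ x hx ∈ A.real ↔ eval x A.F = 0 :=
        eval_rep_eq_zero_iff A.hom x hx
      rw [h1, mem_iUnion]
      constructor
      · intro h
        obtain ⟨i, hi⟩ := hcov x hx h
        exact ⟨i, ((hΔ i).2.2.2 x hx).2 ⟨h, hi⟩⟩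
      · rintro ⟨i, hi⟩
        exact (((hΔ i).2.2.2 x hx).1 hi).1

section main

variable {α : Type} {T : SignTest α} {FP FN : α} {O : List (OvalD × α)} {m : ℕ} {A : RealCurve m}

/-- the soundness of the whole certificate, with the star shapes of the discs -/
theorem starDiscs_of_check (hm : Even m) (hf : FormsOk T A FP FN O)
    (hok : ∀ o ∈ O, OvalOk T FP FN o.1) (S : Scheme) (hn : S.n = O.length)
    (ins : ℕ → ℕ → Bool) (hS : ∀ i j : Fin S.n, S.le i j ↔ (i = j ∨ ins i.1 j.1 = true))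
    (hnest : ∀ i j : Fin O.length, i ≠ j → ins i.1 j.1 = true → nestB O[i].1 O[j].1 = true)
    (hdisj : ∀ i j : Fin O.length, i ≠ j → ins i.1 j.1 = false → ins j.1 i.1 = false →
      disjB O[i].1 O[j].1 = true)
    (cov : ∀ x : Fin 3 → ℝ, x ≠ 0 → Good T FP FN O x ∨ Good T FP FN O (-x)) :
    ∃ (c : Fin S.n → Fin 3 → ℝ) (Δ : Fin S.n → Set RP2), StarDiscs A.real S c Δ := by
  have hmem : ∀ i : Fin O.length, O[i] ∈ O := fun i => List.getElem_mem _
  have hokn : ∀ i : Fin O.length, OvalOk T FP FN O[i].1 := fun i => hok _ (hmem i)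
  -- the ring condition
  have hring : ∀ i : Fin O.length, ∀ x ∈ QSet O[i].1.Q, x ∉ KSet O[i].1.c O[i].1.K →
      eval x A.F = 0 → 0 < T.ev O[i].2 x := by
    intro i x hx hxK hz
    have h0 : x ≠ 0 := fun h => hxK (by rw [h]; exact zero_mem_KSet _ _)
    obtain ⟨o, ho, y, hy, hr⟩ := exists_ring hm hf cov h0 hz
    obtain ⟨j, hj⟩ := List.get_of_mem ho
    have hj' : O[j] = o := hj
    rw [← hj'] at hr
    have hy0 : y ≠ 0 := by rcases hy with rfl | rfl; exacts [h0, neg_ne_zero.2 h0]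
    have hyQ : y ∈ QSet O[j].1.Q := (hokn j).mem_of_ring hr
    by_cases hij : i = j
    · subst hij
      rcases hy with rfl | rfl
      · exact hr.2.2
      · exfalso
        have h1 := (hokn i).l_pos hx h0
        have h2 := (hokn i).l_pos hyQ hy0
        rw [dotR_neg] at h2
        linarith
    · exfalso
      by_cases h1 : ins i.1 j.1 = true
      · have h2 := nestB_sound (hokn i) (hnest i j hij h1) h0 hx
        rcases hy with rfl | rfl
        · obtain ⟨E, hE, h3⟩ := h2
          obtain ⟨e, he, h4⟩ := hr.2.1 E hE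
          linarith [h3 e he]
        · have h3 := (hokn j).l_pos ((hokn j).K_sub (mem_KSet_of_edges (hokn j) h2)) h0
          have h4 := (hokn j).l_pos hyQ hy0
          rw [dotR_neg] at h4
          linarith
      · by_cases h2 : ins j.1 i.1 = true
        · have h3 := nestB_sound (hokn j) (hnest j i (Ne.symm hij) h2) hy0 hyQ
          have h4 := mem_KSet_of_edges (hokn i) h3
          rcases hy with rfl | rfl
          · exact hxK h4
          · have h5 := (hokn i).l_pos ((hokn i).K_sub h4) hy0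
            have h6 := (hokn i).l_pos hx h0
            rw [dotR_neg] at h5
            linarith
        · have h3 := disjB_sound (hokn i) (hokn j) (hdisj i j hij (by simpa using h1)
            (by simpa using h2)) h0 hx
          rcases hy with rfl | rfl
          · exact h3.1 hyQ
          · exact h3.2 hyQ
  -- the discs
  have hoval : ∀ i : Fin O.length, ∃ Δ : Set RP2,
      OvalIn A.F (QSet O[i].1.Q) (KSet O[i].1.c O[i].1.K) Δ ∧
        ∃ (u v : Fin 3 → ℝ) (hc : LinearIndependent ℝ ![toR O[i].1.c, u, v]) (ρ : ℂ → ℝ),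
          StarOval (toR O[i].1.c) u v hc ρ Δ := by
    intro i
    have ho := hokn i
    let ℓ : (Fin 3 → ℝ) →ₗ[ℝ] ℝ :=
      { toFun := dotR O[i].1.l
        map_add' := dotR_add _
        map_smul' := fun r x => by rw [dotR_smul]; rfl }
    have hc0 : toR O[i].1.c ≠ 0 := by
      intro h
      have h1 := inner_center hf ho 1 one_pos
      have h2 := inner_center hf ho 2 two_pos
      obtain ⟨P, hP⟩ := List.exists_mem_of_ne_nil _ ho.hQ0
      have hne : facets P ≠ [] := by
        have h3 := ho.okQ P hP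
        rw [okPoly, Bool.and_eq_true] at h3
        have h4 := of_decide_eq_true h3.1
        cases P with
        | nil => simp at h4
        | cons p Ps' => simp [facets, ← List.length_eq_zero_iff]
      obtain ⟨e, he⟩ := List.exists_mem_of_ne_nil _ hne
      have h5 := okPoly_edges (ho.okQ P hP) he
      rw [h] at h5
      simp [dotR] at h5
    refine ovalIn_star (exists_oval_star A.F A.hom (toR O[i].1.c) ℓ (if O[i].1.sg then 1 else -1)
      (QSet O[i].1.Q) (KSet O[i].1.c O[i].1.K) ?_ (isClosed_QSet _)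
      (fun x hx r s hr hs => ho.cone_add hx hr hs) (fun x hx h0 => ho.l_pos hx h0) ho.c_mem
      (isClosed_KSet _ _) (fun x hx r s hr hs => KSet_add ho.okK hx hr hs)
      (Or.inl ⟨1, zero_le_one, by simp⟩) ho.K_sub ?_ ?_ ?_)
    · exact ho.l_pos (interior_subset ho.c_mem) hc0
    · intro x hx h0
      rw [← hf.outer_eq]
      obtain ⟨P, hP, e, he, ⟨s, t, hs, ht, h1⟩, h2⟩ := frontier_QSet ho.okQ hx
      have h3 : x ∈ Cone3 e.1 e.2 e.2 := ⟨s, t, 0, hs, ht, le_rfl, by rw [h1]; simp⟩
      rcases ho.facQ P hP e he x h3 h0 with h4 | ⟨es, hes, h4⟩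
      · exact h4
      · exfalso
        rw [ho.hQE] at hes
        obtain ⟨P', hP', rfl⟩ := List.mem_map.1 hes
        obtain ⟨e', he', h5⟩ := h2 P' hP'
        have := h4 _ (mem_edgesOf.2 ⟨e', he', rfl⟩)
        linarith
    · intro x hx h0
      rw [← neg_pos, ← hf.inner_eq]
      rcases frontier_KSet ho.okK hx with ⟨-, r, hr, rfl⟩ | ⟨-, hx⟩
      · rcases hr.eq_or_lt with h | h
        · exfalso; apply h0; rw [← h]; simp
        · exact inner_center hf ho r h
      · obtain ⟨P, hP, e, he, ⟨s, t, hs, ht, h1⟩, h2⟩ := frontier_QSet ho.okK hx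
        have h3 : x ∈ Cone3 e.1 e.2 e.2 := ⟨s, t, 0, hs, ht, le_rfl, by rw [h1]; simp⟩
        rcases ho.facK P hP e he x h3 h0 with h4 | ⟨es, hes, h4⟩
        · exact h4
        · exfalso
          rw [ho.hKE] at hes
          obtain ⟨P', hP', rfl⟩ := List.mem_map.1 hes
          obtain ⟨e', he', h5⟩ := h2 P' hP'
          have := h4 _ (mem_edgesOf.2 ⟨e', he', rfl⟩)
          linarith
    · intro x hx hxK hz
      have h1 := hring i x hx hxK hz
      rw [hf.evG _ (hmem i)] at h1
      linarith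
  choose Δ hΔ using hoval
  refine ⟨fun i => toR O[Fin.cast hn i].1.c, fun i => Δ (Fin.cast hn i),
    hasDiscs_of_ovals A S
      (fun i => QSet O[Fin.cast hn i].1.Q) (fun i => KSet O[Fin.cast hn i].1.c O[Fin.cast hn i].1.K)
      (fun i => Δ (Fin.cast hn i)) (fun i => (hΔ (Fin.cast hn i)).1) ?_ ?_ ?_,
    fun i => (hΔ (Fin.cast hn i)).2⟩
  · intro i j hij hle x h0 hx
    left
    have h1 : ins i.1 j.1 = true := by
      rcases (hS i j).1 hle with h | h
      · exact absurd h hij
      · exact h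
    have hij' : Fin.cast hn i ≠ Fin.cast hn j := fun h => hij (by
      simpa [Fin.ext_iff] using h)
    exact mem_KSet_of_edges (hokn _) (nestB_sound (hokn _) (hnest _ _ hij' h1) h0 hx)
  · intro i j h1 h2 x h0 hx
    have hij : i ≠ j := fun h => h1 ((hS i j).2 (Or.inl h))
    have hij' : Fin.cast hn i ≠ Fin.cast hn j := fun h => hij (by
      simpa [Fin.ext_iff] using h)
    have h3 : ins i.1 j.1 = false := by
      rw [← Bool.not_eq_true]; exact fun h => h1 ((hS i j).2 (Or.inr h))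
    have h4 : ins j.1 i.1 = false := by
      rw [← Bool.not_eq_true]; exact fun h => h2 ((hS j i).2 (Or.inr h))
    exact disjB_sound (hokn _) (hokn _) (hdisj _ _ hij' h3 h4) h0 hx
  · intro x h0 hz
    obtain ⟨o, ho, y, hy, hr⟩ := exists_ring hm hf cov h0 hz
    obtain ⟨j, hj⟩ := List.get_of_mem ho
    have hj' : O[j] = o := hj
    have hy0 : y ≠ 0 := by rcases hy with rfl | rfl; exacts [h0, neg_ne_zero.2 h0]
    have hyz : eval y A.F = 0 := by
      rcases hy with rfl | rfl
      · exact hz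
      · rw [eval_neg_even hm, hz]
    have h1 := ring_zero hf hok ho hy0 hyz hr
    rw [← hj'] at h1
    refine ⟨Fin.cast hn.symm j, ?_⟩
    rcases hy with rfl | rfl
    · exact Or.inl h1
    · exact Or.inr h1

end main

/-- the octic with the certificate has star shaped discs with the scheme `S` -/
theorem starDiscs_of_cert {L : PolyL} (hL : mod3Ok L = true) {FP FN : PForm}
    (hP : bridge FP L = true) (hN : bridge FN (negL L) = true) {O : List (OvalD × PForm)}
    (hO : ringFormsOk L O = true) (hok : ∀ o ∈ O, OvalOk packed FP FN o.1) {S : Scheme}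
    (hn : S.n = O.length) {ins : ℕ → ℕ → Bool}
    (hS : ∀ i j : Fin S.n, S.le i j ↔ (i = j ∨ ins i.1 j.1 = true))
    (hpairs : pairsOk ins (O.map Prod.fst) = true)
    (h1 : Covered packed FP FN O (1, 0, 0) (0, 1, 0) (0, 0, 1))
    (h2 : Covered packed FP FN O (-1, 0, 0) (0, 1, 0) (0, 0, 1))
    (h3 : Covered packed FP FN O (-1, 0, 0) (0, -1, 0) (0, 0, 1))
    (h4 : Covered packed FP FN O (1, 0, 0) (0, -1, 0) (0, 0, 1)) :
    ∃ (c : Fin S.n → Fin 3 → ℝ) (Δ : Fin S.n → Set RP2),
      StarDiscs (curveOf L hL).real S c Δ :=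
  starDiscs_of_check (by decide) (formsOk_of_bridge hL hP hN hO) hok S hn ins hS
    (fun i j hij h => (pairsOk_sound hpairs i j hij).1 h)
    (fun i j hij h h' => (pairsOk_sound hpairs i j hij).2 h h')
    (fun x h0 => good_of_octants h1 h2 h3 h4 x h0)

end Octic

end Pool.Agent.Rohlin
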