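import Pool.Agent.Rohlin.Iso.Export

/-!
# The final combination
-/

set_option autoImplicit false

namespace Pool.Agent.Rohlin

/-- the counterexample from its ingredients: two octics with star shaped discs -/
theorem combine (h1 : IsTypeOne 8 S15)
    (hstar : ∀ {X X' : Set RP2} {c c' : Fin 20 → Fin 3 → ℝ} {D D' : Fin 20 → Set RP2},
      StarSystem X c D → StarSystem X' c' D' → Isotopic X X')
    {A A' : RealCurve 8} {c : Fin S15.n → Fin 3 → ℝ} {D : Fin S15.n → Set RP2}
    {c' : Fin S13.n → Fin 3 → ℝ} {D' : Fin S13.n → Set RP2}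
    (h : StarDiscs A.real S15 c D) (h' : StarDiscs A'.real S13 c' D') :
    (∃ A A' : RealCurve 8, HasScheme 8 A.real S15 ∧ HasScheme 8 A'.real S13 ∧
      (∀ B : RealCurve 8, Isotopic A.real B.real → B.Dividing) ∧
      ProperSubscheme A.real A'.real) ∧ ¬ RohlinConjecture := by
  have hA : HasScheme 8 A.real S15 := h.starSystem.hasScheme
  have hA' : HasScheme 8 A'.real S13 := h'.toHasDiscs.hasScheme (by decide) (fun i => Or.inl rfl)
    (fun i j hij hle => Octic.anti13 i j hij hle)
  have hiso : Isotopic A.real (A'.real \ frontier (D' (7 : Fin 21))) :=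
    hstar h.starSystem h'.starSystem_forget
  have hdiv : ∀ B : RealCurve 8, Isotopic A.real B.real → B.Dividing :=
    fun _ hB => dividing_of_isotopic h1 hA hB
  have hsub : ProperSubscheme A.real A'.real := h'.toHasDiscs.properSubscheme (7 : Fin 21) hiso
  exact ⟨⟨A, A', hA, hA', hdiv, hsub⟩, fun hR => hR 8 (by norm_num) A hdiv ⟨A', hsub⟩⟩

end Pool.Agent.Rohlin
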