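import Pool.Agent.Rohlin.Iso.Ext

/-!
# Linear maps of the real projective plane are isotopic to the identity
-/

set_option autoImplicit false

namespace Pool.Agent.Rohlin

open Set Topology Matrix

/-- the linear map `M` is isotopic to the identity -/
def GoodM (M : Matrix (Fin 3) (Fin 3) ℝ) : Prop :=
  ∀ (hM : M.det ≠ 0) (X : Set RP2), Isotopic X (linR M hM '' X)

theorem continuous_linR_path {γ : unitInterval → Matrix (Fin 3) (Fin 3) ℝ} (hγ : Continuous γ)
    (hdet : ∀ t, (γ t).det ≠ 0) :
    Continuous (fun p : unitInterval × RP2 => linR (γ p.1) (hdet p.1) p.2) := by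
  have hq : IsQuotientMap (fun v : {v : Fin 3 → ℝ // v ≠ 0} =>
      (Projectivization.mk ℝ v.1 v.2 : RP2)) := isQuotientMap_quotient_mk'
  refine hq.continuous_lift_prod_right ?_
  have h : Continuous (fun p : unitInterval × {v : Fin 3 → ℝ // v ≠ 0} =>
      (⟨γ p.1 *ᵥ p.2.1, mulVec_ne_zero (hdet p.1) p.2.2⟩ : {v : Fin 3 → ℝ // v ≠ 0})) := by
    refine Continuous.subtype_mk ?_ _
    exact Continuous.matrix_mulVec (hγ.comp continuous_fst)
      (continuous_subtype_val.comp continuous_snd)
  exact hq.continuous.comp h

theorem goodM_of_path {γ : unitInterval → Matrix (Fin 3) (Fin 3) ℝ} (hγ : Continuous γ)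
    (hdet : ∀ t, (γ t).det ≠ 0) (h0 : γ 0 = 1) {M : Matrix (Fin 3) (Fin 3) ℝ} (h1 : γ 1 = M) :
    GoodM M := by
  subst h1
  intro hM X
  refine ⟨fun t => linR (γ t) (hdet t), continuous_linR_path hγ hdet, ?_, rfl⟩
  ext p
  induction p using Projectivization.ind with
  | h v hv =>
    show linR (γ 0) (hdet 0) (Projectivization.mk ℝ v hv) = Projectivization.mk ℝ v hv
    rw [linR_mk, Projectivization.mk_eq_mk_iff']
    exact ⟨1, by rw [h0, Matrix.one_mulVec, one_smul]⟩

theorem goodM_mul {A B : Matrix (Fin 3) (Fin 3) ℝ} (hA : A.det ≠ 0) (hB : B.det ≠ 0)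
    (gA : GoodM A) (gB : GoodM B) : GoodM (A * B) := by
  intro hM X
  have h : linR (A * B) hM '' X = linR A hA '' (linR B hB '' X) := by
    rw [← image_comp]
    refine image_congr fun p _ => ?_
    induction p using Projectivization.ind with
    | h v hv =>
      show linR (A * B) hM _ = linR A hA (linR B hB _)
      rw [linR_mk, linR_mk, linR_mk, Projectivization.mk_eq_mk_iff']
      exact ⟨1, by rw [one_smul, Matrix.mulVec_mulVec]⟩
  rw [h]
  exact (gB hB X).trans (gA hA _)

theorem goodM_neg {A : Matrix (Fin 3) (Fin 3) ℝ} (gA : GoodM A) : GoodM (-A) := by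
  intro hM X
  have hA : A.det ≠ 0 := by
    intro h
    apply hM
    rw [Matrix.det_neg, h, mul_zero]
  have h : linR (-A) hM '' X = linR A hA '' X := by
    refine image_congr fun p _ => ?_
    induction p using Projectivization.ind with
    | h v hv =>
      rw [linR_mk, linR_mk, Projectivization.mk_eq_mk_iff']
      exact ⟨-1, by rw [Matrix.neg_mulVec, neg_smul, one_smul]⟩
  rw [h]
  exact gA hA X

theorem goodM_transvection (t : TransvectionStruct (Fin 3) ℝ) : GoodM t.toMatrix := by
  refine goodM_of_path (γ := fun s : unitInterval => transvection t.i t.j ((s : ℝ) * t.c))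
    ?_ ?_ ?_ ?_
  · refine continuous_const.add ?_
    refine continuous_matrix fun i j => ?_
    simp only [Matrix.single_apply]
    by_cases hij : t.i = i ∧ t.j = j
    · simp only [hij, and_self, if_true]
      exact continuous_subtype_val.mul continuous_const
    · simp only [hij, if_false]
      exact continuous_const
  · intro s
    rw [Matrix.det_transvection_of_ne _ _ t.hij]
    exact one_ne_zero
  · show transvection t.i t.j (((0 : unitInterval) : ℝ) * t.c) = 1
    rw [Set.Icc.coe_zero, zero_mul, Matrix.transvection_zero]
  · show transvection t.i t.j (((1 : unitInterval) : ℝ) * t.c) = t.toMatrix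
    rw [Set.Icc.coe_one, one_mul]
    rfl

theorem goodM_diag_pos {d : Fin 3 → ℝ} (hd : ∀ i, 0 < d i) : GoodM (diagonal d) := by
  have hpos : ∀ (t : unitInterval) (i : Fin 3), 0 < (1 - (t : ℝ)) + t * d i := by
    intro t i
    have h0 := t.2.1
    have h1 := t.2.2
    rcases h0.eq_or_lt with h | h
    · rw [← h]; norm_num
    · have := mul_pos h (hd i)
      linarith
  refine goodM_of_path (γ := fun t : unitInterval => diagonal fun i => (1 - (t : ℝ)) + t * d i)
    ?_ ?_ ?_ ?_
  · refine Continuous.matrix_diagonal ?_
    refine continuous_pi fun i => ?_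
    exact (continuous_const.sub continuous_subtype_val).add
      (continuous_subtype_val.mul continuous_const)
  · intro t
    rw [Matrix.det_diagonal]
    exact (Finset.prod_pos fun i _ => hpos t i).ne'
  · show (diagonal fun i => (1 - ((0 : unitInterval) : ℝ)) + ((0 : unitInterval) : ℝ) * d i) = 1
    rw [← Matrix.diagonal_one]
    congr 1
    funext i
    rw [Set.Icc.coe_zero]; ring
  · show (diagonal fun i => (1 - ((1 : unitInterval) : ℝ)) + ((1 : unitInterval) : ℝ) * d i) = _
    congr 1
    funext i
    rw [Set.Icc.coe_one]; ring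

theorem cosT_sq (t : unitInterval) : Real.cos (Real.pi * t) * Real.cos (Real.pi * t)
    + Real.sin (Real.pi * t) * Real.sin (Real.pi * t) = 1 := by
  have := Real.cos_sq_add_sin_sq (Real.pi * t)
  nlinarith

theorem continuous_cosT : Continuous fun t : unitInterval => Real.cos (Real.pi * t) :=
  Real.continuous_cos.comp (continuous_const.mul continuous_subtype_val)

theorem continuous_sinT : Continuous fun t : unitInterval => Real.sin (Real.pi * t) :=
  Real.continuous_sin.comp (continuous_const.mul continuous_subtype_val)

/-! the rotations by `π` -/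

theorem goodM_rot0 : GoodM (diagonal fun i : Fin 3 => if i = 0 then (1 : ℝ) else -1) := by
  refine goodM_of_path (γ := fun t : unitInterval =>
      !![1, 0, 0; 0, Real.cos (Real.pi * t), -Real.sin (Real.pi * t);
        0, Real.sin (Real.pi * t), Real.cos (Real.pi * t)]) ?_ ?_ ?_ ?_
  · refine continuous_matrix fun i j => ?_
    fin_cases i <;> fin_cases j <;> simp <;>
      first
        | exact continuous_const
        | exact continuous_cosT
        | exact continuous_sinT
        | exact continuous_sinT.neg
  · intro t
    rw [Matrix.det_fin_three]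
    have h1 := cosT_sq t
    have h2 : Real.cos (Real.pi * t) * Real.cos (Real.pi * t)
      + Real.sin (Real.pi * t) * Real.sin (Real.pi * t) ≠ 0 := by rw [h1]; exact one_ne_zero
    simpa using h2
  · ext i j
    fin_cases i <;> fin_cases j <;> simp
  · ext i j
    fin_cases i <;> fin_cases j <;> simp [Matrix.diagonal]

theorem goodM_rot1 : GoodM (diagonal fun i : Fin 3 => if i = 1 then (1 : ℝ) else -1) := by
  refine goodM_of_path (γ := fun t : unitInterval =>
      !![Real.cos (Real.pi * t), 0, -Real.sin (Real.pi * t); 0, 1, 0;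
        Real.sin (Real.pi * t), 0, Real.cos (Real.pi * t)]) ?_ ?_ ?_ ?_
  · refine continuous_matrix fun i j => ?_
    fin_cases i <;> fin_cases j <;> simp <;>
      first
        | exact continuous_const
        | exact continuous_cosT
        | exact continuous_sinT
        | exact continuous_sinT.neg
  · intro t
    rw [Matrix.det_fin_three]
    have h1 := cosT_sq t
    have h2 : Real.cos (Real.pi * t) * Real.cos (Real.pi * t)
      + Real.sin (Real.pi * t) * Real.sin (Real.pi * t) ≠ 0 := by rw [h1]; exact one_ne_zero
    simpa using h2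
  · ext i j
    fin_cases i <;> fin_cases j <;> simp
  · ext i j
    fin_cases i <;> fin_cases j <;> simp [Matrix.diagonal]

theorem goodM_rot2 : GoodM (diagonal fun i : Fin 3 => if i = 2 then (1 : ℝ) else -1) := by
  refine goodM_of_path (γ := fun t : unitInterval =>
      !![Real.cos (Real.pi * t), -Real.sin (Real.pi * t), 0;
        Real.sin (Real.pi * t), Real.cos (Real.pi * t), 0; 0, 0, 1]) ?_ ?_ ?_ ?_
  · refine continuous_matrix fun i j => ?_
    fin_cases i <;> fin_cases j <;> simp <;>
      first
        | exact continuous_const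
        | exact continuous_cosT
        | exact continuous_sinT
        | exact continuous_sinT.neg
  · intro t
    rw [Matrix.det_fin_three]
    have h1 := cosT_sq t
    have h2 : Real.cos (Real.pi * t) * Real.cos (Real.pi * t)
      + Real.sin (Real.pi * t) * Real.sin (Real.pi * t) ≠ 0 := by rw [h1]; exact one_ne_zero
    simpa using h2
  · ext i j
    fin_cases i <;> fin_cases j <;> simp
  · ext i j
    fin_cases i <;> fin_cases j <;> simp [Matrix.diagonal]

theorem goodM_rot (k : Fin 3) : GoodM (diagonal fun i => if i = k then (1 : ℝ) else -1) := by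
  fin_cases k
  · exact goodM_rot0
  · exact goodM_rot1
  · exact goodM_rot2

theorem goodM_diag (d : Fin 3 → ℝ) (hd : (diagonal d).det ≠ 0) : GoodM (diagonal d) := by
  have hd0 : ∀ i, d i ≠ 0 := by
    intro i hi
    apply hd
    rw [Matrix.det_diagonal]
    exact Finset.prod_eq_zero (Finset.mem_univ i) hi
  -- the part of the absolute values
  have habs : GoodM (diagonal fun i => |d i|) := goodM_diag_pos fun i => abs_pos.2 (hd0 i)
  have hadet : (diagonal fun i => |d i|).det ≠ 0 := by
    rw [Matrix.det_diagonal]
    exact Finset.prod_ne_zero_iff.2 fun i _ => abs_ne_zero.2 (hd0 i)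
  -- the signs
  have hrot : ∀ k : Fin 3, (diagonal fun i : Fin 3 => if i = k then (1 : ℝ) else -1).det ≠ 0 := by
    intro k
    rw [Matrix.det_diagonal]
    refine Finset.prod_ne_zero_iff.2 fun i _ => ?_
    split_ifs <;> norm_num
  have key : ∀ k : Fin 3, GoodM (diagonal fun i => |d i| * (if i = k then (1 : ℝ) else -1)) := by
    intro k
    rw [← Matrix.diagonal_mul_diagonal]
    exact goodM_mul hadet (hrot k) habs (goodM_rot k)
  have hs : ∀ i, d i = |d i| ∨ d i = -|d i| := by
    intro i
    rcases abs_choice (d i) with h | h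
    · exact Or.inl h.symm
    · exact Or.inr (by rw [h, neg_neg])
  have neg_diag : ∀ g : Fin 3 → ℝ, (∀ i, d i = -g i) → GoodM (diagonal g) → GoodM (diagonal d) := by
    intro g hg hG
    have : diagonal d = -diagonal g := by
      rw [show d = -g from funext hg]
      exact (Matrix.diagonal_neg g).symm
    rw [this]
    exact goodM_neg hG
  have eq_diag : ∀ g : Fin 3 → ℝ, (∀ i, d i = g i) → GoodM (diagonal g) → GoodM (diagonal d) := by
    intro g hg hG
    rw [show d = g from funext hg]
    exact hG
  rcases hs 0 with h0 | h0 <;> rcases hs 1 with h1 | h1 <;> rcases hs 2 with h2 | h2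
  · exact eq_diag _ (fun i => by fin_cases i <;> assumption) habs
  · refine neg_diag _ (fun i => ?_) (key 2)
    fin_cases i <;> simp <;> assumption
  · refine neg_diag _ (fun i => ?_) (key 1)
    fin_cases i <;> simp <;> assumption
  · refine eq_diag _ (fun i => ?_) (key 0)
    fin_cases i <;> simp <;> assumption
  · refine neg_diag _ (fun i => ?_) (key 0)
    fin_cases i <;> simp <;> assumption
  · refine eq_diag _ (fun i => ?_) (key 1)
    fin_cases i <;> simp <;> assumption
  · refine eq_diag _ (fun i => ?_) (key 2)
    fin_cases i <;> simp <;> assumption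
  · exact neg_diag _ (fun i => by fin_cases i <;> assumption) habs

/-- an invertible linear map of the real projective plane is isotopic to the identity -/
theorem isotopic_lin (M : Matrix (Fin 3) (Fin 3) ℝ) (hM : M.det ≠ 0) (X : Set RP2) :
    Isotopic X (linR M hM '' X) :=
  Matrix.diagonal_transvection_induction_of_det_ne_zero GoodM M hM goodM_diag
    goodM_transvection (fun _ _ hA hB gA gB => goodM_mul hA hB gA gB) hM X

end Pool.Agent.Rohlin
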