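import Pool.Agent.Rohlin.Iso.Base

/-!
# Pushing finitely many points of a connected open set of the plane, by an isotopy which is a
translation near each of the points and is supported in a compact subset
-/

set_option autoImplicit false

namespace Pool.Agent.Rohlin

open Set Topology Metric

namespace Push

/-- the isotopy `h` ends with the translation of the germ at `p` to the germ at `q` -/
def Germ (h : unitInterval → ℂ ≃ₜ ℂ) (p q : ℂ) : Prop := ∀ᶠ z in 𝓝 p, h 1 z = z + (q - p)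

lemma planeIso_refl : PlaneIso ∅ (fun _ => Homeomorph.refl ℂ) :=
  ⟨continuous_snd, rfl, fun _ _ _ => rfl⟩

lemma germ_refl (p : ℂ) : Germ (fun _ => Homeomorph.refl ℂ) p p :=
  Filter.Eventually.of_forall fun z => by simp

lemma planeIso_mono {K K' : Set ℂ} {h : unitInterval → ℂ ≃ₜ ℂ} (hh : PlaneIso K h) (hK : K ⊆ K') :
    PlaneIso K' h := ⟨hh.1, hh.2.1, fun t z hz => hh.2.2 t z fun hzK => hz (hK hzK)⟩

lemma planeIso_trans {K K' : Set ℂ} {h h' : unitInterval → ℂ ≃ₜ ℂ} (hh : PlaneIso K h)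
    (hh' : PlaneIso K' h') : PlaneIso (K ∪ K') (fun t => (h t).trans (h' t)) := by
  refine ⟨?_, ?_, ?_⟩
  · exact hh'.1.comp (continuous_fst.prodMk hh.1)
  · show (h 0).trans (h' 0) = _
    rw [hh.2.1, hh'.2.1]
    rfl
  · intro t z hz
    rw [mem_union, not_or] at hz
    show h' t (h t z) = z
    rw [hh.2.2 t z hz.1, hh'.2.2 t z hz.2]

lemma germ_trans {h h' : unitInterval → ℂ ≃ₜ ℂ} {p q r : ℂ} (hh : Germ h p q) (hh' : Germ h' q r) :
    Germ (fun t => (h t).trans (h' t)) p r := by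
  have h1 : h 1 p = q := by
    have := hh.self_of_nhds
    rw [this]
    ring
  have h2 : Filter.Tendsto (h 1) (𝓝 p) (𝓝 q) := by
    have := (h 1).continuous.tendsto p
    rwa [h1] at this
  filter_upwards [hh, h2.eventually hh'] with z hz hz'
  show h' 1 (h 1 z) = _
  rw [hz', hz]
  ring

/-- away from the support the germ is the identity -/
lemma germ_off {K : Set ℂ} {h : unitInterval → ℂ ≃ₜ ℂ} (hh : PlaneIso K h) (hK : IsClosed K) {p : ℂ}
    (hp : p ∉ K) : Germ h p p := by
  filter_upwards [hK.isOpen_compl.mem_nhds hp] with z hz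
  rw [hh.2.2 1 z hz]
  ring

/-- the cut-off function -/
noncomputable def chi (a : ℂ) (r : ℝ) (z : ℂ) : ℝ := max 0 (min 1 (2 - 2 / r * ‖z - a‖))

lemma chi_continuous (a : ℂ) (r : ℝ) : Continuous (chi a r) := by
  unfold chi
  fun_prop

lemma chi_lip (a : ℂ) {r : ℝ} (hr : 0 < r) (z w : ℂ) :
    |chi a r z - chi a r w| ≤ 2 / r * ‖z - w‖ := by
  unfold chi
  have h1 : ∀ x y : ℝ, |max 0 x - max 0 y| ≤ |x - y| := fun x y => by
    have := abs_max_sub_max_le_max (0 : ℝ) x 0 y
    simpa using this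
  have h2 : ∀ x y : ℝ, |min 1 x - min 1 y| ≤ |x - y| := fun x y => by
    have := abs_min_sub_min_le_max (1 : ℝ) x 1 y
    simpa using this
  refine (h1 _ _).trans ((h2 _ _).trans ?_)
  have h3 : 2 - 2 / r * ‖z - a‖ - (2 - 2 / r * ‖w - a‖) = 2 / r * (‖w - a‖ - ‖z - a‖) := by ring
  rw [h3, abs_mul, abs_of_pos (by positivity : 0 < 2 / r)]
  refine mul_le_mul_of_nonneg_left ?_ (by positivity)
  refine (abs_norm_sub_norm_le _ _).trans ?_
  rw [sub_sub_sub_cancel_right, norm_sub_rev]

lemma chi_nonneg (a : ℂ) (r : ℝ) (z : ℂ) : 0 ≤ chi a r z := le_max_left _ _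

lemma chi_le_one (a : ℂ) (r : ℝ) (z : ℂ) : chi a r z ≤ 1 :=
  max_le zero_le_one (min_le_left _ _)

lemma chi_one {a : ℂ} {r : ℝ} (hr : 0 < r) {z : ℂ} (hz : ‖z - a‖ ≤ r / 2) : chi a r z = 1 := by
  unfold chi
  have h1 : 1 ≤ 2 - 2 / r * ‖z - a‖ := by
    have h2 : 2 / r * ‖z - a‖ ≤ 2 / r * (r / 2) := by gcongr
    have h3 : 2 / r * (r / 2) = 1 := by field_simp
    linarith
  rw [min_eq_left h1]
  simp

lemma chi_zero {a : ℂ} {r : ℝ} (hr : 0 < r) {z : ℂ} (hz : r ≤ ‖z - a‖) : chi a r z = 0 := by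
  unfold chi
  have h1 : 2 - 2 / r * ‖z - a‖ ≤ 0 := by
    have h2 : 2 / r * r ≤ 2 / r * ‖z - a‖ := by gcongr
    have h3 : 2 / r * r = 2 := by field_simp
    linarith
  exact max_eq_left ((min_le_right _ _).trans h1)

/-- the local step -/
lemma local_push (a : ℂ) {r : ℝ} (hr : 0 < r) {p q : ℂ} (hp : p ∈ ball a (r / 8))
    (hq : q ∈ ball a (r / 8)) : ∃ h, PlaneIso (closedBall a r) h ∧ Germ h p q := by
  have hw : ‖q - p‖ ≤ r / 4 := by
    rw [mem_ball] at hp hq
    rw [← dist_eq_norm]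
    have := dist_triangle_right q p a
    linarith
  set f : unitInterval → ℂ → ℂ := fun t z => z + (((t : ℝ) * chi a r z : ℝ) : ℂ) * (q - p) with hf
  have happ : ∀ t, ApproximatesLinearOn (f t) ((ContinuousLinearEquiv.refl ℝ ℂ : ℂ ≃L[ℝ] ℂ) :
      ℂ →L[ℝ] ℂ) univ (1 / 2) := by
    intro t x _ y _
    have h1 : f t x - f t y - ((ContinuousLinearEquiv.refl ℝ ℂ : ℂ ≃L[ℝ] ℂ) : ℂ →L[ℝ] ℂ) (x - y) =
        (((t : ℝ) * (chi a r x - chi a r y) : ℝ) : ℂ) * (q - p) := by
      simp only [hf, ContinuousLinearEquiv.coe_coe, ContinuousLinearEquiv.refl_apply]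
      push_cast
      ring
    rw [h1, norm_mul, Complex.norm_real, Real.norm_eq_abs, abs_mul, abs_of_nonneg t.2.1]
    have h2 := chi_lip a hr x y
    have h3 : (t : ℝ) * |chi a r x - chi a r y| ≤ 1 * (2 / r * ‖x - y‖) :=
      mul_le_mul t.2.2 h2 (abs_nonneg _) zero_le_one
    calc (t : ℝ) * |chi a r x - chi a r y| * ‖q - p‖ ≤ (1 * (2 / r * ‖x - y‖)) * (r / 4) :=
          mul_le_mul h3 hw (norm_nonneg _) (by positivity)
      _ = ((1 / 2 : NNReal) : ℝ) * ‖x - y‖ := by
          push_cast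
          field_simp
          ring
  have hc : Subsingleton ℂ ∨ (1 / 2 : NNReal) <
      ‖(((ContinuousLinearEquiv.refl ℝ ℂ : ℂ ≃L[ℝ] ℂ)).symm : ℂ →L[ℝ] ℂ)‖₊⁻¹ := by
    right
    have h1 : ‖(((ContinuousLinearEquiv.refl ℝ ℂ : ℂ ≃L[ℝ] ℂ)).symm : ℂ →L[ℝ] ℂ)‖₊ = 1 := by
      have : ‖(((ContinuousLinearEquiv.refl ℝ ℂ : ℂ ≃L[ℝ] ℂ)).symm : ℂ →L[ℝ] ℂ)‖ = 1 :=
        ContinuousLinearMap.norm_id
      exact NNReal.eq this
    rw [h1, inv_one]
    exact NNReal.half_lt_self one_ne_zero
  refine ⟨fun t => (happ t).toHomeomorph (f t) hc, ⟨?_, ?_, ?_⟩, ?_⟩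
  · show Continuous fun x : unitInterval × ℂ => f x.1 x.2
    have := chi_continuous a r
    simp only [hf]
    fun_prop
  · ext z
    show f 0 z = z
    simp [hf]
  · intro t z hz
    show f t z = z
    rw [mem_closedBall, dist_eq_norm, not_le] at hz
    simp [hf, chi_zero hr hz.le]
  · filter_upwards [isOpen_ball.mem_nhds hp] with z hz
    show f 1 z = _
    rw [mem_ball, dist_eq_norm] at hz
    simp [hf, chi_one hr (by linarith : ‖z - a‖ ≤ r / 2)]

/-- the relation `a push in U` -/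
def Rel (U : Set ℂ) (p q : ℂ) : Prop :=
  ∃ K ⊆ U, IsCompact K ∧ ∃ h, PlaneIso K h ∧ Germ h p q

lemma rel_refl (U : Set ℂ) (p : ℂ) : Rel U p p :=
  ⟨∅, empty_subset _, isCompact_empty, _, planeIso_refl, germ_refl p⟩

lemma rel_trans {U : Set ℂ} {p q r : ℂ} (h1 : Rel U p q) (h2 : Rel U q r) : Rel U p r := by
  obtain ⟨K, hK, hKc, h, hh, hg⟩ := h1
  obtain ⟨K', hK', hKc', h', hh', hg'⟩ := h2
  exact ⟨K ∪ K', union_subset hK hK', hKc.union hKc', _, planeIso_trans hh hh', germ_trans hg hg'⟩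

lemma rel_local {U : Set ℂ} (hU : IsOpen U) {a : ℂ} (ha : a ∈ U) :
    ∃ δ > 0, ball a δ ⊆ U ∧ ∀ q ∈ ball a δ, ∀ q' ∈ ball a δ, Rel U q q' := by
  obtain ⟨r, hr, hrU⟩ := nhds_basis_closedBall.mem_iff.mp (hU.mem_nhds ha)
  refine ⟨r / 8, by positivity, ?_, ?_⟩
  · refine Subset.trans (ball_subset_ball ?_) (ball_subset_closedBall.trans hrU)
    linarith
  · intro q hq q' hq'
    obtain ⟨h, hh, hg⟩ := local_push a hr hq hq'
    exact ⟨closedBall a r, hrU, isCompact_closedBall a r, h, hh, hg⟩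

/-- one point -/
lemma rel_of_isPreconnected {U : Set ℂ} (hU : IsOpen U) (hc : IsPreconnected U) {p q : ℂ}
    (hp : p ∈ U) (hq : q ∈ U) : Rel U p q := by
  have hsub : U ⊆ {x | x ∈ U ∧ Rel U p x} := by
    refine hc.subset_of_closure_inter_subset ?_ ⟨p, hp, hp, rel_refl U p⟩ ?_
    · rw [Metric.isOpen_iff]
      rintro x ⟨hx, hpx⟩
      obtain ⟨δ, hδ, hδU, hrel⟩ := rel_local hU hx
      exact ⟨δ, hδ, fun y hy => ⟨hδU hy, rel_trans hpx (hrel x (mem_ball_self hδ) y hy)⟩⟩
    · rintro x ⟨hx, hxU⟩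
      obtain ⟨δ, hδ, hδU, hrel⟩ := rel_local hU hxU
      obtain ⟨y, hy, hxy⟩ := Metric.mem_closure_iff.mp hx δ hδ
      refine ⟨hxU, rel_trans hy.2 (hrel y ?_ x (mem_ball_self hδ))⟩
      rwa [mem_ball, dist_comm]
  exact (hsub hq).2

/-! ### removing points -/

lemma isPreconnected_punctured (a : ℂ) (r : ℝ) : IsPreconnected (ball a r \ {a}) := by
  have h1 : IsPreconnected (Ioo (0 : ℝ) r ×ˢ sphere (0 : ℂ) 1) :=
    isPreconnected_Ioo.prod (isPreconnected_sphere (by
      rw [Complex.rank_real_complex]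
      norm_num) _ _)
  have h2 : ball a r \ {a} = (fun x : ℝ × ℂ => a + (x.1 : ℂ) * x.2) ''
      (Ioo (0 : ℝ) r ×ˢ sphere (0 : ℂ) 1) := by
    ext z
    constructor
    · rintro ⟨hz, hza⟩
      rw [mem_ball, dist_eq_norm] at hz
      have hne : z - a ≠ 0 := sub_ne_zero.mpr hza
      have hn : 0 < ‖z - a‖ := norm_pos_iff.mpr hne
      refine ⟨(‖z - a‖, (‖z - a‖ : ℂ)⁻¹ * (z - a)), ⟨⟨hn, hz⟩, ?_⟩, ?_⟩
      · rw [mem_sphere, dist_zero_right, norm_mul, norm_inv, Complex.norm_real, norm_norm,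
          inv_mul_cancel₀ hn.ne']
      · have : ((‖z - a‖ : ℝ) : ℂ) ≠ 0 := by exact_mod_cast hn.ne'
        simp only
        rw [← mul_assoc, mul_inv_cancel₀ this]
        ring
    · rintro ⟨⟨t, u⟩, ⟨⟨ht0, htr⟩, hu⟩, rfl⟩
      rw [mem_sphere, dist_zero_right] at hu
      simp only at ht0 htr hu ⊢
      have h3 : ‖a + (t : ℂ) * u - a‖ = t := by
        rw [add_sub_cancel_left, norm_mul, Complex.norm_real, hu, mul_one, Real.norm_eq_abs,
          abs_of_pos ht0]
      refine ⟨?_, ?_⟩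
      · rw [mem_ball, dist_eq_norm, h3]
        exact htr
      · intro h4
        rw [mem_singleton_iff] at h4
        rw [h4, sub_self, norm_zero] at h3
        exact ht0.ne h3
  rw [h2]
  exact h1.image _ (by fun_prop)

lemma isPreconnected_sdiff_singleton {U : Set ℂ} (hU : IsOpen U) (hc : IsPreconnected U) (a : ℂ) :
    IsPreconnected (U \ {a}) := by
  by_cases ha : a ∈ U
  · obtain ⟨r, hr, hrU⟩ := Metric.isOpen_iff.mp hU a ha
    have hP := isPreconnected_punctured a r
    rw [isPreconnected_iff_subset_of_disjoint] at hP hc ⊢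
    have hPU : ball a r \ {a} ⊆ U \ {a} := sdiff_subset_sdiff_left hrU
    -- the case where the punctured disc lies in the first set
    have key : ∀ u v : Set ℂ, IsOpen u → IsOpen v → U \ {a} ⊆ u ∪ v →
        (U \ {a}) ∩ (u ∩ v) = ∅ → ball a r \ {a} ⊆ u → U \ {a} ⊆ u := by
      intro u v hu hv huv hdis hPu
      have hUa : IsOpen (U \ {a}) := hU.sdiff isClosed_singleton
      have h0 : U ⊆ (u ∩ (U \ {a})) ∪ ball a r ∨ U ⊆ v ∩ (U \ {a}) := by
        refine hc _ _ ((hu.inter hUa).union isOpen_ball) (hv.inter hUa) ?_ ?_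
        · intro z hz
          by_cases hza : z = a
          · left
            right
            rw [hza]
            exact mem_ball_self hr
          · rcases huv ⟨hz, hza⟩ with h2 | h2
            · exact Or.inl (Or.inl ⟨h2, hz, hza⟩)
            · exact Or.inr ⟨h2, hz, hza⟩
        · rw [eq_empty_iff_forall_notMem]
          rintro z ⟨hz, h2, h3⟩
          rw [eq_empty_iff_forall_notMem] at hdis
          rcases h2 with h2 | h2
          · exact hdis z ⟨h3.2, h2.1, h3.1⟩
          · exact hdis z ⟨h3.2, hPu ⟨h2, h3.2.2⟩, h3.1⟩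
      rcases h0 with h1 | h1
      · intro z hz
        rcases h1 hz.1 with h2 | h2
        · exact h2.1
        · exact hPu ⟨h2, hz.2⟩
      · exact absurd rfl (h1 ha).2.2
    intro u v hu hv huv hdis
    rcases hP u v hu hv (hPU.trans huv) (by
      rw [← subset_empty_iff, ← hdis]
      exact inter_subset_inter_left _ hPU) with h1 | h1
    · exact Or.inl (key u v hu hv huv hdis h1)
    · exact Or.inr (key v u hv hu (by rwa [union_comm]) (by rwa [inter_comm v u]) h1)
  · rw [sdiff_singleton_eq_self ha]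
    exact hc

lemma isPreconnected_sdiff_finite {U : Set ℂ} (hU : IsOpen U) (hc : IsPreconnected U) {F : Set ℂ}
    (hF : F.Finite) : IsPreconnected (U \ F) := by
  induction F, hF using Set.Finite.induction_on with
  | empty => rwa [sdiff_empty]
  | @insert a s _ hs ih =>
    have h1 : U \ insert a s = (U \ s) \ {a} := by
      ext z
      simp only [mem_sdiff, mem_insert_iff, mem_singleton_iff, not_or]
      tauto
    rw [h1]
    exact isPreconnected_sdiff_singleton (hU.sdiff hs.isClosed) ih a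

/-! ### several points -/

/-- the relation on configurations -/
def RelN {n : ℕ} (U : Set ℂ) (p q : Fin n → ℂ) : Prop :=
  ∃ K ⊆ U, IsCompact K ∧ ∃ h, PlaneIso K h ∧ ∀ i, Germ h (p i) (q i)

lemma relN_refl {n : ℕ} (U : Set ℂ) (p : Fin n → ℂ) : RelN U p p :=
  ⟨∅, empty_subset _, isCompact_empty, _, planeIso_refl, fun i => germ_refl (p i)⟩

lemma relN_trans {n : ℕ} {U : Set ℂ} {p q r : Fin n → ℂ} (h1 : RelN U p q) (h2 : RelN U q r) :
    RelN U p r := by
  obtain ⟨K, hK, hKc, h, hh, hg⟩ := h1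
  obtain ⟨K', hK', hKc', h', hh', hg'⟩ := h2
  exact ⟨K ∪ K', union_subset hK hK', hKc.union hKc', _, planeIso_trans hh hh',
    fun i => germ_trans (hg i) (hg' i)⟩

/-- moving one point -/
lemma relN_update {n : ℕ} {U : Set ℂ} (hU : IsOpen U) (hc : IsPreconnected U) (p : Fin n → ℂ)
    (hp : ∀ i, p i ∈ U) (i : Fin n) (m : ℂ) (hm : m ∈ U) (hpi : ∀ j, j ≠ i → p j ≠ p i)
    (hmp : ∀ j, j ≠ i → p j ≠ m) : RelN U p (Function.update p i m) := by
  set F : Set ℂ := p '' {j | j ≠ i} with hF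
  have hFf : F.Finite := (toFinite _).image _
  obtain ⟨K, hK, hKc, h, hh, hg⟩ := rel_of_isPreconnected (hU.sdiff hFf.isClosed)
    (isPreconnected_sdiff_finite hU hc hFf) (p := p i) (q := m)
    ⟨hp i, by
      rintro ⟨j, hj, hji⟩
      exact hpi j hj hji⟩
    ⟨hm, by
      rintro ⟨j, hj, hji⟩
      exact hmp j hj hji⟩
  refine ⟨K, hK.trans sdiff_subset, hKc, h, hh, fun j => ?_⟩
  by_cases hj : j = i
  · subst hj
    rw [Function.update_self]
    exact hg
  · rw [Function.update_of_ne hj]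
    exact germ_off hh hKc.isClosed fun hjK => (hK hjK).2 ⟨j, hj, rfl⟩

lemma relN_disjoint {n : ℕ} {U : Set ℂ} (hU : IsOpen U) (hc : IsPreconnected U) (p m : Fin n → ℂ)
    (hp : ∀ i, p i ∈ U) (hm : ∀ i, m i ∈ U) (hpi : Function.Injective p)
    (hmi : Function.Injective m) (hpm : ∀ i j, p i ≠ m j) : RelN U p m := by
  classical
  have key : ∀ s : Finset (Fin n), RelN U p (fun i => if i ∈ s then m i else p i) := by
    intro s
    induction s using Finset.induction_on with
    | empty =>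
      simpa using relN_refl U p
    | insert a s ha ih =>
      refine relN_trans ih ?_
      have h1 : (fun i => if i ∈ insert a s then m i else p i) =
          Function.update (fun i => if i ∈ s then m i else p i) a (m a) := by
        ext i
        by_cases hi : i = a
        · subst hi
          simp
        · rw [Function.update_of_ne hi]
          simp [hi]
      rw [h1]
      refine relN_update hU hc _ ?_ a (m a) (hm a) ?_ ?_
      · intro i
        split_ifs
        · exact hm i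
        · exact hp i
      · intro j hj
        rw [if_neg ha]
        split_ifs
        · exact (hpm a j).symm
        · exact fun h => hj (hpi h)
      · intro j hj
        split_ifs
        · exact fun h => hj (hmi h)
        · exact hpm j a
  have h2 := key Finset.univ
  simpa using h2

end Push

/-- in a connected open set of the plane, `n` points can be pushed to `n` other points, by an isotopy
which is supported in a compact subset and ends with a translation near each of the points -/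
theorem exists_push {n : ℕ} {U : Set ℂ} (hU : IsOpen U) (hc : IsConnected U) (p q : Fin n → ℂ)
    (hp : ∀ i, p i ∈ U) (hq : ∀ i, q i ∈ U) (hpi : Function.Injective p)
    (hqi : Function.Injective q) :
    ∃ K ⊆ U, IsCompact K ∧ ∃ h, PlaneIso K h ∧
      ∀ i, ∀ᶠ z in 𝓝 (p i), h 1 z = z + (q i - p i) := by
  -- intermediate positions
  have hinf : (U \ (range p ∪ range q)).Infinite := by
    refine Set.Infinite.sdiff ?_ ((finite_range p).union (finite_range q))
    obtain ⟨a, ha⟩ := hc.nonempty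
    exact infinite_of_mem_nhds a (hU.mem_nhds ha)
  obtain ⟨m, hm⟩ : ∃ m : Fin n → ℂ, Function.Injective m ∧ ∀ i, m i ∈ U \ (range p ∪ range q) := by
    have e := hinf.natEmbedding
    exact ⟨fun i => (e i : ℂ), fun i j hij => Fin.ext (e.injective (Subtype.ext hij)),
      fun i => (e i).2⟩
  have h1 := Push.relN_disjoint hU hc.isPreconnected p m hp (fun i => (hm.2 i).1) hpi hm.1
    (fun i j h => (hm.2 j).2 (Or.inl ⟨i, h⟩))
  have h2 := Push.relN_disjoint hU hc.isPreconnected m q (fun i => (hm.2 i).1) hq hm.1 hqi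
    (fun i j h => (hm.2 i).2 (Or.inr ⟨j, h.symm⟩))
  exact Push.relN_trans h1 h2

end Pool.Agent.Rohlin
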