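import Pool.Agent.Rohlin.Iso.Base

/-!
# Radial isotopies of the plane (helper88)
-/

set_option autoImplicit false

namespace Pool.Agent.Rohlin

open Set Topology Filter

/-! ### The radial function -/

/-- the piecewise linear homeomorphism of the line which is the identity below `k` and above `R`
and maps `a` to `b` -/
noncomputable def radF (k a b R s : ℝ) : ℝ :=
  min s k + (max k (min s a) - k) * ((b - k) / (a - k)) +
    (max a (min s R) - a) * ((R - b) / (R - a)) + (max s R - R)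

section radF

variable {k a b R s : ℝ}

theorem radF_of_le_k (hka : k < a) (haR : a < R) (hs : s ≤ k) : radF k a b R s = s := by
  unfold radF
  rw [min_eq_left hs, min_eq_left (hs.trans hka.le), max_eq_left hs,
    min_eq_left ((hs.trans hka.le).trans haR.le), max_eq_left (hs.trans hka.le),
    max_eq_right ((hs.trans hka.le).trans haR.le)]
  ring

theorem radF_of_le_a (haR : a < R) (h1 : k ≤ s) (h2 : s ≤ a) :
    radF k a b R s = k + (s - k) * ((b - k) / (a - k)) := by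
  unfold radF
  rw [min_eq_right h1, min_eq_left h2, max_eq_right h1, min_eq_left (h2.trans haR.le),
    max_eq_left h2, max_eq_right (h2.trans haR.le)]
  ring

theorem radF_of_le_R (hka : k < a) (h1 : a ≤ s) (h2 : s ≤ R) :
    radF k a b R s = b + (s - a) * ((R - b) / (R - a)) := by
  unfold radF
  have hak : a - k ≠ 0 := (sub_pos.mpr hka).ne'
  rw [min_eq_right (hka.le.trans h1), min_eq_right h1, max_eq_right hka.le, min_eq_left h2,
    max_eq_right h1, max_eq_right h2, mul_div_cancel₀ _ hak]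
  ring

theorem radF_of_ge_R (hka : k < a) (haR : a < R) (hs : R ≤ s) : radF k a b R s = s := by
  unfold radF
  have hak : a - k ≠ 0 := (sub_pos.mpr hka).ne'
  have hRa : R - a ≠ 0 := (sub_pos.mpr haR).ne'
  rw [min_eq_right ((hka.le.trans haR.le).trans hs), min_eq_right (haR.le.trans hs),
    max_eq_right hka.le, min_eq_right hs, max_eq_right haR.le, max_eq_left hs,
    mul_div_cancel₀ _ hak, mul_div_cancel₀ _ hRa]
  ring

theorem radF_self (hka : k < a) (haR : a < R) : radF k a b R a = b := by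
  rw [radF_of_le_R hka le_rfl haR.le]
  ring

theorem radF_id (hka : k < a) (haR : a < R) (s : ℝ) : radF k a a R s = s := by
  have hak : a - k ≠ 0 := (sub_pos.mpr hka).ne'
  have hRa : R - a ≠ 0 := (sub_pos.mpr haR).ne'
  rcases le_total s k with h1 | h1
  · exact radF_of_le_k hka haR h1
  rcases le_total s a with h2 | h2
  · rw [radF_of_le_a haR h1 h2, div_self hak]
    ring
  rcases le_total s R with h3 | h3
  · rw [radF_of_le_R hka h2 h3, div_self hRa]
    ring
  · exact radF_of_ge_R hka haR h3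

theorem radF_radF (hka : k < a) (haR : a < R) (hkb : k < b) (hbR : b < R) (s : ℝ) :
    radF k b a R (radF k a b R s) = s := by
  have hak : 0 < a - k := sub_pos.mpr hka
  have hRa : 0 < R - a := sub_pos.mpr haR
  have hbk : 0 < b - k := sub_pos.mpr hkb
  have hRb : 0 < R - b := sub_pos.mpr hbR
  rcases le_total s k with h1 | h1
  · rw [radF_of_le_k hka haR h1, radF_of_le_k hkb hbR h1]
  rcases le_total s a with h2 | h2
  · rw [radF_of_le_a haR h1 h2]
    have h3 : k ≤ k + (s - k) * ((b - k) / (a - k)) := by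
      have : 0 ≤ (s - k) * ((b - k) / (a - k)) := by
        have := sub_nonneg.mpr h1
        positivity
      linarith
    have h4 : k + (s - k) * ((b - k) / (a - k)) ≤ b := by
      have h5 : (s - k) * ((b - k) / (a - k)) ≤ b - k := by
        rw [mul_div_assoc', div_le_iff₀ hak]
        nlinarith
      linarith
    rw [radF_of_le_a hbR h3 h4]
    field_simp
    ring
  rcases le_total s R with h3 | h3
  · rw [radF_of_le_R hka h2 h3]
    have h4 : b ≤ b + (s - a) * ((R - b) / (R - a)) := by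
      have : 0 ≤ (s - a) * ((R - b) / (R - a)) := by
        have := sub_nonneg.mpr h2
        positivity
      linarith
    have h5 : b + (s - a) * ((R - b) / (R - a)) ≤ R := by
      have h6 : (s - a) * ((R - b) / (R - a)) ≤ R - b := by
        rw [mul_div_assoc', div_le_iff₀ hRa]
        nlinarith
      linarith
    rw [radF_of_le_R hkb h4 h5]
    field_simp
    ring
  · rw [radF_of_ge_R hka haR h3, radF_of_ge_R hkb hbR h3]

theorem radF_pos (hk : 0 ≤ k) (hka : k < a) (haR : a < R) (hkb : k < b) (hbR : b < R)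
    (hs : 0 < s) : 0 < radF k a b R s := by
  have hak : 0 < a - k := sub_pos.mpr hka
  have hRa : 0 < R - a := sub_pos.mpr haR
  have hbk : 0 < b - k := sub_pos.mpr hkb
  have hRb : 0 < R - b := sub_pos.mpr hbR
  rcases le_total s k with h1 | h1
  · rw [radF_of_le_k hka haR h1]
    exact hs
  rcases le_total s a with h2 | h2
  · rw [radF_of_le_a haR h1 h2]
    rcases h1.eq_or_lt with h3 | h3
    · rw [← h3, sub_self, zero_mul, add_zero, h3]
      exact hs
    · have := sub_pos.mpr h3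
      positivity
  rcases le_total s R with h3 | h3
  · rw [radF_of_le_R hka h2 h3]
    have := sub_nonneg.mpr h2
    have hb : 0 < b := lt_of_le_of_lt hk hkb
    positivity
  · rw [radF_of_ge_R hka haR h3]
    exact hs

end radF

/-! ### Directions -/

theorem arc_zero : arc 0 = 0 := by simp [arc]

theorem norm_arc {z : ℂ} (hz : z ≠ 0) : ‖arc z‖ = 1 := by
  unfold arc
  rw [norm_mul, norm_inv, Complex.norm_real, norm_norm, inv_mul_cancel₀ (norm_ne_zero_iff.mpr hz)]

theorem arc_mem_sphere {z : ℂ} (hz : z ≠ 0) : arc z ∈ Metric.sphere (0 : ℂ) 1 := by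
  rw [mem_sphere_zero_iff_norm]
  exact norm_arc hz

theorem norm_mul_arc (z : ℂ) : (‖z‖ : ℂ) * arc z = z := by
  by_cases hz : z = 0
  · rw [hz, arc_zero, mul_zero]
  · unfold arc
    have : (‖z‖ : ℂ) ≠ 0 := by exact_mod_cast norm_ne_zero_iff.mpr hz
    rw [mul_inv_cancel_left₀ this]

theorem arc_mul {s : ℝ} (hs : 0 < s) {w : ℂ} (hw : ‖w‖ = 1) : arc ((s : ℂ) * w) = w := by
  unfold arc
  have h1 : (s : ℂ) ≠ 0 := by exact_mod_cast hs.ne'
  rw [norm_mul, Complex.norm_real, Real.norm_eq_abs, abs_of_pos hs, hw, mul_one,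
    inv_mul_cancel_left₀ h1]

theorem norm_mul_of {s : ℝ} (hs : 0 ≤ s) {w : ℂ} (hw : ‖w‖ = 1) : ‖(s : ℂ) * w‖ = s := by
  rw [norm_mul, Complex.norm_real, Real.norm_eq_abs, abs_of_nonneg hs, hw, mul_one]

theorem continuousOn_arc : ContinuousOn arc {0}ᶜ := by
  unfold arc
  refine ContinuousOn.mul (ContinuousOn.inv₀ (by fun_prop) ?_) continuousOn_id
  intro z hz
  rw [mem_compl_iff, mem_singleton_iff] at hz
  exact_mod_cast norm_ne_zero_iff.mpr hz

theorem mapsTo_arc : MapsTo arc {0}ᶜ (Metric.sphere (0 : ℂ) 1) := fun _ hz => arc_mem_sphere hz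

/-! ### The radial map -/

/-- the radial map of the plane -/
noncomputable def radMap (k a b R : ℂ → ℝ) (z : ℂ) : ℂ :=
  (radF (k (arc z)) (a (arc z)) (b (arc z)) (R (arc z)) ‖z‖ : ℂ) * arc z

section radMap

variable {k a b R : ℂ → ℝ}

theorem radMap_zero : radMap k a b R 0 = 0 := by
  unfold radMap
  rw [arc_zero, mul_zero]

theorem radMap_radMap (hk : ∀ z ∈ Metric.sphere (0 : ℂ) 1, 0 ≤ k z)
    (hka : ∀ z ∈ Metric.sphere (0 : ℂ) 1, k z < a z)
    (haR : ∀ z ∈ Metric.sphere (0 : ℂ) 1, a z < R z)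
    (hkb : ∀ z ∈ Metric.sphere (0 : ℂ) 1, k z < b z)
    (hbR : ∀ z ∈ Metric.sphere (0 : ℂ) 1, b z < R z) (z : ℂ) :
    radMap k b a R (radMap k a b R z) = z := by
  by_cases hz : z = 0
  · rw [hz, radMap_zero, radMap_zero]
  · have hw := arc_mem_sphere hz
    have hw1 := norm_arc hz
    have hpos := radF_pos (hk _ hw) (hka _ hw) (haR _ hw) (hkb _ hw) (hbR _ hw)
      (norm_pos_iff.mpr hz)
    have h1 : arc (radMap k a b R z) = arc z := arc_mul hpos hw1
    have h2 : ‖radMap k a b R z‖ = radF (k (arc z)) (a (arc z)) (b (arc z)) (R (arc z)) ‖z‖ :=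
      norm_mul_of hpos.le hw1
    have h3 : radMap k b a R (radMap k a b R z) =
        (radF (k (arc (radMap k a b R z))) (b (arc (radMap k a b R z)))
          (a (arc (radMap k a b R z))) (R (arc (radMap k a b R z))) ‖radMap k a b R z‖ : ℂ) *
          arc (radMap k a b R z) := rfl
    rw [h3, h1, h2, radF_radF (hka _ hw) (haR _ hw) (hkb _ hw) (hbR _ hw), norm_mul_arc]

theorem radMap_of_le (hka : ∀ z ∈ Metric.sphere (0 : ℂ) 1, k z < a z)
    (haR : ∀ z ∈ Metric.sphere (0 : ℂ) 1, a z < R z) {z : ℂ} (hz : z = 0 ∨ ‖z‖ ≤ k (arc z)) :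
    radMap k a b R z = z := by
  by_cases h0 : z = 0
  · rw [h0, radMap_zero]
  · have hw := arc_mem_sphere h0
    unfold radMap
    rw [radF_of_le_k (hka _ hw) (haR _ hw) (hz.resolve_left h0), norm_mul_arc]

theorem radMap_of_notMem (hka : ∀ z ∈ Metric.sphere (0 : ℂ) 1, k z < a z)
    (haR : ∀ z ∈ Metric.sphere (0 : ℂ) 1, a z < R z) {z : ℂ} (hz : z ∉ starSet R) :
    radMap k a b R z = z := by
  unfold starSet at hz
  rw [mem_ofPred_eq, not_or, not_le] at hz
  have hw := arc_mem_sphere hz.1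
  unfold radMap
  rw [radF_of_ge_R (hka _ hw) (haR _ hw) hz.2.le, norm_mul_arc]

theorem radMap_id (hka : ∀ z ∈ Metric.sphere (0 : ℂ) 1, k z < a z)
    (haR : ∀ z ∈ Metric.sphere (0 : ℂ) 1, a z < R z) (z : ℂ) : radMap k a a R z = z := by
  by_cases h0 : z = 0
  · rw [h0, radMap_zero]
  · have hw := arc_mem_sphere h0
    unfold radMap
    rw [radF_id (hka _ hw) (haR _ hw), norm_mul_arc]

theorem radMap_mem_starCurve (hb : ∀ z ∈ Metric.sphere (0 : ℂ) 1, 0 < b z)
    (hka : ∀ z ∈ Metric.sphere (0 : ℂ) 1, k z < a z)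
    (haR : ∀ z ∈ Metric.sphere (0 : ℂ) 1, a z < R z) {z : ℂ} (hz : z ∈ starCurve a) :
    radMap k a b R z ∈ starCurve b := by
  obtain ⟨h0, h1⟩ := hz
  have hw := arc_mem_sphere h0
  have hw1 := norm_arc h0
  have h2 : radMap k a b R z = (b (arc z) : ℂ) * arc z := by
    unfold radMap
    rw [h1, radF_self (hka _ hw) (haR _ hw)]
  have h3 := hb _ hw
  refine ⟨?_, ?_⟩
  · rw [h2]
    refine mul_ne_zero (by exact_mod_cast h3.ne') ?_
    rw [← norm_ne_zero_iff, hw1]
    exact one_ne_zero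
  · rw [h2, norm_mul_of h3.le hw1, arc_mul h3 hw1]

end radMap

/-- a positive continuous function on the circle has a positive lower bound -/
theorem exists_pos_le {k : ℂ → ℝ} (hk : ContinuousOn k (Metric.sphere 0 1))
    (hpos : ∀ z ∈ Metric.sphere (0 : ℂ) 1, 0 < k z) :
    ∃ δ > 0, ∀ z ∈ Metric.sphere (0 : ℂ) 1, δ ≤ k z := by
  obtain ⟨x, hx, hmin⟩ := (isCompact_sphere (0 : ℂ) 1).exists_isMinOn
    ⟨1, by simp⟩ hk
  exact ⟨k x, hpos x hx, fun z hz => hmin hz⟩

/-- joint continuity of a family of radial maps -/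
theorem continuous_radMap {T : Type*} [TopologicalSpace T] {k R : ℂ → ℝ} {a b : T → ℂ → ℝ}
    (hkc : ContinuousOn k (Metric.sphere 0 1)) (hRc : ContinuousOn R (Metric.sphere 0 1))
    (hac : ContinuousOn (fun p : T × ℂ => a p.1 p.2) (univ ×ˢ Metric.sphere (0 : ℂ) 1))
    (hbc : ContinuousOn (fun p : T × ℂ => b p.1 p.2) (univ ×ˢ Metric.sphere (0 : ℂ) 1))
    (hk : ∀ z ∈ Metric.sphere (0 : ℂ) 1, 0 < k z)
    (hka : ∀ t, ∀ z ∈ Metric.sphere (0 : ℂ) 1, k z < a t z)
    (haR : ∀ t, ∀ z ∈ Metric.sphere (0 : ℂ) 1, a t z < R z) :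
    Continuous (fun p : T × ℂ => radMap k (a p.1) (b p.1) R p.2) := by
  rw [continuous_iff_continuousAt]
  rintro ⟨t, z⟩
  by_cases hz : z = 0
  · subst hz
    obtain ⟨δ, hδ, hδk⟩ := exists_pos_le hkc hk
    have h1 : (fun p : T × ℂ => radMap k (a p.1) (b p.1) R p.2) =ᶠ[𝓝 (t, 0)]
        fun p => p.2 := by
      have h2 : ∀ᶠ p : T × ℂ in 𝓝 (t, 0), p.2 ∈ Metric.ball (0 : ℂ) δ :=
        continuousAt_snd.eventually (Metric.ball_mem_nhds _ hδ)
      filter_upwards [h2] with p hp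
      rw [mem_ball_zero_iff] at hp
      refine radMap_of_le (hka p.1) (haR p.1) ?_
      by_cases h0 : p.2 = 0
      · exact Or.inl h0
      · exact Or.inr (hp.le.trans (hδk _ (arc_mem_sphere h0)))
    exact continuousAt_snd.congr h1.symm
  · have hopen : IsOpen ((univ : Set T) ×ˢ ({0}ᶜ : Set ℂ)) := isOpen_univ.prod isOpen_compl_singleton
    have hmem : (t, z) ∈ (univ : Set T) ×ˢ ({0}ᶜ : Set ℂ) := ⟨mem_univ _, hz⟩
    refine ContinuousOn.continuousAt ?_ (hopen.mem_nhds hmem)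
    have harc : ContinuousOn (fun p : T × ℂ => arc p.2) (univ ×ˢ ({0}ᶜ : Set ℂ)) :=
      continuousOn_arc.comp continuousOn_snd fun p hp => hp.2
    have harc2 : ContinuousOn (fun p : T × ℂ => (p.1, arc p.2)) (univ ×ˢ ({0}ᶜ : Set ℂ)) :=
      continuousOn_fst.prodMk harc
    have hm : MapsTo (fun p : T × ℂ => arc p.2) (univ ×ˢ ({0}ᶜ : Set ℂ))
        (Metric.sphere (0 : ℂ) 1) := fun p hp => arc_mem_sphere hp.2
    have hm2 : MapsTo (fun p : T × ℂ => (p.1, arc p.2)) (univ ×ˢ ({0}ᶜ : Set ℂ))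
        (univ ×ˢ Metric.sphere (0 : ℂ) 1) := fun p hp => ⟨mem_univ _, arc_mem_sphere hp.2⟩
    have ck : ContinuousOn (fun p : T × ℂ => k (arc p.2)) (univ ×ˢ ({0}ᶜ : Set ℂ)) :=
      hkc.comp harc hm
    have cR : ContinuousOn (fun p : T × ℂ => R (arc p.2)) (univ ×ˢ ({0}ᶜ : Set ℂ)) :=
      hRc.comp harc hm
    have ca : ContinuousOn (fun p : T × ℂ => a p.1 (arc p.2)) (univ ×ˢ ({0}ᶜ : Set ℂ)) :=
      hac.comp harc2 hm2
    have cb : ContinuousOn (fun p : T × ℂ => b p.1 (arc p.2)) (univ ×ˢ ({0}ᶜ : Set ℂ)) :=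
      hbc.comp harc2 hm2
    have cs : ContinuousOn (fun p : T × ℂ => ‖p.2‖) (univ ×ˢ ({0}ᶜ : Set ℂ)) := by fun_prop
    unfold radMap radF
    refine ContinuousOn.mul (Complex.continuous_ofReal.comp_continuousOn ?_) harc
    refine ContinuousOn.add (ContinuousOn.add (ContinuousOn.add (cs.inf ck) ?_) ?_) ?_
    · refine ContinuousOn.mul ((ck.sup (cs.inf ca)).sub ck)
        ((cb.sub ck).div (ca.sub ck) fun p hp => ?_)
      exact (sub_pos.mpr (hka p.1 _ (arc_mem_sphere hp.2))).ne'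
    · refine ContinuousOn.mul ((ca.sup (cs.inf cR)).sub ca)
        ((cR.sub cb).div (cR.sub ca) fun p hp => ?_)
      exact (sub_pos.mpr (haR p.1 _ (arc_mem_sphere hp.2))).ne'
    · exact (cs.sup cR).sub cR

attribute [local irreducible] radMap radF

theorem continuous_radMap_one {k R a b : ℂ → ℝ}
    (hkc : ContinuousOn k (Metric.sphere 0 1)) (hRc : ContinuousOn R (Metric.sphere 0 1))
    (hac : ContinuousOn a (Metric.sphere 0 1)) (hbc : ContinuousOn b (Metric.sphere 0 1))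
    (hk : ∀ z ∈ Metric.sphere (0 : ℂ) 1, 0 < k z)
    (hka : ∀ z ∈ Metric.sphere (0 : ℂ) 1, k z < a z)
    (haR : ∀ z ∈ Metric.sphere (0 : ℂ) 1, a z < R z) :
    Continuous (radMap k a b R) := by
  have ha' : ContinuousOn (fun p : Unit × ℂ => a p.2) (univ ×ˢ Metric.sphere (0 : ℂ) 1) :=
    hac.comp continuousOn_snd fun p hp => hp.2
  have hb' : ContinuousOn (fun p : Unit × ℂ => b p.2) (univ ×ˢ Metric.sphere (0 : ℂ) 1) :=
    hbc.comp continuousOn_snd fun p hp => hp.2
  have h : Continuous (fun p : Unit × ℂ => radMap k a b R p.2) :=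
    continuous_radMap (T := Unit) (a := fun _ => a) (b := fun _ => b) hkc hRc ha' hb' hk
      (fun _ => hka) (fun _ => haR)
  have h2 : Continuous (fun z : ℂ => (((), z) : Unit × ℂ)) :=
    Continuous.prodMk continuous_const continuous_id
  have h3 : Continuous (fun z : ℂ => radMap k a b R z) := h.comp h2
  exact h3

/-- the radial homeomorphism -/
noncomputable def radHomeo (k a b R : ℂ → ℝ) (hkc : ContinuousOn k (Metric.sphere 0 1))
    (hRc : ContinuousOn R (Metric.sphere 0 1)) (hac : ContinuousOn a (Metric.sphere 0 1))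
    (hbc : ContinuousOn b (Metric.sphere 0 1)) (hk : ∀ z ∈ Metric.sphere (0 : ℂ) 1, 0 < k z)
    (hka : ∀ z ∈ Metric.sphere (0 : ℂ) 1, k z < a z)
    (haR : ∀ z ∈ Metric.sphere (0 : ℂ) 1, a z < R z)
    (hkb : ∀ z ∈ Metric.sphere (0 : ℂ) 1, k z < b z)
    (hbR : ∀ z ∈ Metric.sphere (0 : ℂ) 1, b z < R z) : ℂ ≃ₜ ℂ where
  toFun := radMap k a b R
  invFun := radMap k b a R
  left_inv := radMap_radMap (fun z hz => (hk z hz).le) hka haR hkb hbR
  right_inv := radMap_radMap (fun z hz => (hk z hz).le) hkb hbR hka haR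
  continuous_toFun := continuous_radMap_one hkc hRc hac hbc hk hka haR
  continuous_invFun := continuous_radMap_one hkc hRc hbc hac hk hkb hbR

/-- two star shaped curves are isotopic, radially, with support between a smaller and a larger
star shaped curve -/
theorem exists_radial {ρ₀ ρ₁ k R : ℂ → ℝ} (h0 : ContinuousOn ρ₀ (Metric.sphere 0 1))
    (h1 : ContinuousOn ρ₁ (Metric.sphere 0 1)) (hkc : ContinuousOn k (Metric.sphere 0 1))
    (hRc : ContinuousOn R (Metric.sphere 0 1)) (hk : ∀ z ∈ Metric.sphere (0 : ℂ) 1, 0 ≤ k z)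
    (hk0 : ∀ z ∈ Metric.sphere (0 : ℂ) 1, k z < ρ₀ z)
    (hk1 : ∀ z ∈ Metric.sphere (0 : ℂ) 1, k z < ρ₁ z)
    (hR0 : ∀ z ∈ Metric.sphere (0 : ℂ) 1, ρ₀ z < R z)
    (hR1 : ∀ z ∈ Metric.sphere (0 : ℂ) 1, ρ₁ z < R z) :
    ∃ h : unitInterval → ℂ ≃ₜ ℂ, PlaneIso (starSet R) h ∧
      h 1 '' starCurve ρ₀ = starCurve ρ₁ ∧
      ∀ t z, (z = 0 ∨ ‖z‖ ≤ k (arc z)) → h t z = z := by
  set k' : ℂ → ℝ := fun z => max (k z) (min (ρ₀ z) (ρ₁ z) / 2) with hk'
  have hmin : ∀ z ∈ Metric.sphere (0 : ℂ) 1, 0 < min (ρ₀ z) (ρ₁ z) := fun z hz =>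
    lt_min ((hk z hz).trans_lt (hk0 z hz)) ((hk z hz).trans_lt (hk1 z hz))
  have hk'c : ContinuousOn k' (Metric.sphere 0 1) := hkc.sup ((h0.inf h1).div_const 2)
  have hk'pos : ∀ z ∈ Metric.sphere (0 : ℂ) 1, 0 < k' z := fun z hz =>
    lt_of_lt_of_le (half_pos (hmin z hz)) (le_max_right _ _)
  have hk'0 : ∀ z ∈ Metric.sphere (0 : ℂ) 1, k' z < ρ₀ z := fun z hz =>
    max_lt (hk0 z hz) ((half_lt_self (hmin z hz)).trans_le (min_le_left _ _))
  have hk'1 : ∀ z ∈ Metric.sphere (0 : ℂ) 1, k' z < ρ₁ z := fun z hz =>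
    max_lt (hk1 z hz) ((half_lt_self (hmin z hz)).trans_le (min_le_right _ _))
  set ρ : unitInterval → ℂ → ℝ := fun t z => (1 - (t : ℝ)) * ρ₀ z + t * ρ₁ z with hρ
  have hρk : ∀ t, ∀ z ∈ Metric.sphere (0 : ℂ) 1, k' z < ρ t z := by
    intro t z hz
    have ht0 := t.2.1
    have ht1 := t.2.2
    have a0 := hk'0 z hz
    have a1 := hk'1 z hz
    rw [hρ]
    dsimp only
    rcases ht0.eq_or_lt with h | h
    · rw [← h]
      linarith
    · have b1 : (t : ℝ) * k' z < t * ρ₁ z := mul_lt_mul_of_pos_left a1 h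
      have b2 : (1 - (t : ℝ)) * k' z ≤ (1 - t) * ρ₀ z :=
        mul_le_mul_of_nonneg_left a0.le (sub_nonneg.mpr ht1)
      linarith
  have hρR : ∀ t, ∀ z ∈ Metric.sphere (0 : ℂ) 1, ρ t z < R z := by
    intro t z hz
    have ht0 := t.2.1
    have ht1 := t.2.2
    have a0 := hR0 z hz
    have a1 := hR1 z hz
    rw [hρ]
    dsimp only
    rcases ht0.eq_or_lt with h | h
    · rw [← h]
      linarith
    · have b1 : (t : ℝ) * ρ₁ z < t * R z := mul_lt_mul_of_pos_left a1 h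
      have b2 : (1 - (t : ℝ)) * ρ₀ z ≤ (1 - t) * R z :=
        mul_le_mul_of_nonneg_left a0.le (sub_nonneg.mpr ht1)
      linarith
  have hρc : ContinuousOn (fun p : unitInterval × ℂ => ρ p.1 p.2)
      (univ ×ˢ Metric.sphere (0 : ℂ) 1) := by
    have c0 : ContinuousOn (fun p : unitInterval × ℂ => ρ₀ p.2) (univ ×ˢ Metric.sphere (0 : ℂ) 1) :=
      h0.comp continuousOn_snd fun p hp => hp.2
    have c1 : ContinuousOn (fun p : unitInterval × ℂ => ρ₁ p.2) (univ ×ˢ Metric.sphere (0 : ℂ) 1) :=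
      h1.comp continuousOn_snd fun p hp => hp.2
    have ct : ContinuousOn (fun p : unitInterval × ℂ => (p.1 : ℝ))
        (univ ×ˢ Metric.sphere (0 : ℂ) 1) := (by fun_prop : Continuous fun p : unitInterval × ℂ =>
          (p.1 : ℝ)).continuousOn
    exact ((continuousOn_const.sub ct).mul c0).add (ct.mul c1)
  have h0c : ContinuousOn (fun p : unitInterval × ℂ => ρ₀ p.2) (univ ×ˢ Metric.sphere (0 : ℂ) 1) :=
    h0.comp continuousOn_snd fun p hp => hp.2
  have hρtc : ∀ t, ContinuousOn (ρ t) (Metric.sphere 0 1) := fun t =>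
    (continuousOn_const.mul h0).add (continuousOn_const.mul h1)
  refine ⟨fun t => radHomeo k' ρ₀ (ρ t) R hk'c hRc h0 (hρtc t) hk'pos hk'0 hR0 (hρk t) (hρR t),
    ⟨?_, ?_, ?_⟩, ?_, ?_⟩
  · exact continuous_radMap hk'c hRc h0c hρc hk'pos (fun _ => hk'0) (fun _ => hR0)
  · ext z : 1
    have h2 : ρ 0 = ρ₀ := by
      funext z
      rw [hρ]
      simp
    show radMap k' ρ₀ (ρ 0) R z = z
    rw [h2, radMap_id hk'0 hR0]
  · intro t z hz
    exact radMap_of_notMem hk'0 hR0 hz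
  · have h2 : ρ 1 = ρ₁ := by
      funext z
      rw [hρ]
      simp
    have p0 : ∀ z ∈ Metric.sphere (0 : ℂ) 1, 0 < ρ₀ z := fun z hz => (hk z hz).trans_lt (hk0 z hz)
    have p1 : ∀ z ∈ Metric.sphere (0 : ℂ) 1, 0 < ρ₁ z := fun z hz => (hk z hz).trans_lt (hk1 z hz)
    apply Subset.antisymm
    · rintro _ ⟨z, hz, rfl⟩
      show radMap k' ρ₀ (ρ 1) R z ∈ _
      rw [h2]
      exact radMap_mem_starCurve p1 hk'0 hR0 hz
    · intro z hz
      refine ⟨radMap k' ρ₁ ρ₀ R z, radMap_mem_starCurve p0 hk'1 hR1 hz, ?_⟩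
      show radMap k' ρ₀ (ρ 1) R _ = z
      rw [h2]
      exact radMap_radMap (fun z hz => (hk'pos z hz).le) hk'1 hR1 hk'0 hR0 z
  · intro t z hz
    exact radMap_of_le hk'0 hR0 (hz.imp id fun h => h.trans (le_max_left _ _))

/-! ### Star shaped sets -/

/-- the open star shaped region -/
def openStar (ρ : ℂ → ℝ) : Set ℂ := {z | z = 0 ∨ ‖z‖ < ρ (arc z)}

section star

variable {ρ : ℂ → ℝ}

theorem starSet_eq_image (hρ : ∀ z ∈ Metric.sphere (0 : ℂ) 1, 0 ≤ ρ z) :
    starSet ρ = (fun p : ℝ × ℂ => ((p.1 * ρ p.2 : ℝ) : ℂ) * p.2) ''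
      (Icc 0 1 ×ˢ Metric.sphere (0 : ℂ) 1) := by
  apply Subset.antisymm
  · intro z hz
    by_cases h0 : z = 0
    · refine ⟨(0, 1), ⟨⟨le_rfl, zero_le_one⟩, by simp⟩, ?_⟩
      simp [h0]
    · have hw := arc_mem_sphere h0
      have h2 := hz.resolve_left h0
      have h1 : 0 < ρ (arc z) := (norm_pos_iff.mpr h0).trans_le h2
      refine ⟨(‖z‖ / ρ (arc z), arc z), ⟨⟨by positivity, ?_⟩, hw⟩, ?_⟩
      · exact (div_le_one h1).mpr h2
      · dsimp only
        rw [div_mul_cancel₀ _ h1.ne', norm_mul_arc]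
  · rintro _ ⟨⟨s, w⟩, ⟨⟨hs0, hs1⟩, hw⟩, rfl⟩
    have h1 := hρ w hw
    rw [mem_sphere_zero_iff_norm] at hw
    dsimp only at hs0 hs1 ⊢
    rcases (mul_nonneg hs0 h1).eq_or_lt with h | h
    · left
      rw [← h]
      simp
    · right
      rw [norm_mul_of h.le hw, arc_mul h hw]
      nlinarith

theorem isCompact_starSet {ρ : ℂ → ℝ} (hc : ContinuousOn ρ (Metric.sphere 0 1))
    (hρ : ∀ z ∈ Metric.sphere (0 : ℂ) 1, 0 ≤ ρ z) : IsCompact (starSet ρ) := by
  rw [starSet_eq_image hρ]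
  refine (isCompact_Icc.prod (isCompact_sphere 0 1)).image_of_continuousOn ?_
  refine ContinuousOn.mul (Complex.continuous_ofReal.comp_continuousOn ?_) continuousOn_snd
  exact continuousOn_fst.mul (hc.comp continuousOn_snd fun p hp => hp.2)

theorem isClosed_starSet (hc : ContinuousOn ρ (Metric.sphere 0 1))
    (hρ : ∀ z ∈ Metric.sphere (0 : ℂ) 1, 0 < ρ z) : IsClosed (starSet ρ) :=
  (isCompact_starSet hc fun z hz => (hρ z hz).le).isClosed

theorem starCurve_eq_image (hρ : ∀ z ∈ Metric.sphere (0 : ℂ) 1, 0 < ρ z) :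
    starCurve ρ = (fun w : ℂ => (ρ w : ℂ) * w) '' Metric.sphere (0 : ℂ) 1 := by
  apply Subset.antisymm
  · rintro z ⟨h0, h1⟩
    refine ⟨arc z, arc_mem_sphere h0, ?_⟩
    dsimp only
    rw [← h1, norm_mul_arc]
  · rintro _ ⟨w, hw, rfl⟩
    have h1 := hρ w hw
    rw [mem_sphere_zero_iff_norm] at hw
    refine ⟨?_, ?_⟩
    · refine mul_ne_zero (by exact_mod_cast h1.ne') ?_
      rw [← norm_ne_zero_iff, hw]
      exact one_ne_zero
    · dsimp only
      rw [norm_mul_of h1.le hw, arc_mul h1 hw]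

theorem isCompact_starCurve (hc : ContinuousOn ρ (Metric.sphere 0 1))
    (hρ : ∀ z ∈ Metric.sphere (0 : ℂ) 1, 0 < ρ z) : IsCompact (starCurve ρ) := by
  rw [starCurve_eq_image hρ]
  exact (isCompact_sphere 0 1).image_of_continuousOn
    ((Complex.continuous_ofReal.comp_continuousOn hc).mul continuousOn_id)

theorem isClosed_starCurve (hc : ContinuousOn ρ (Metric.sphere 0 1))
    (hρ : ∀ z ∈ Metric.sphere (0 : ℂ) 1, 0 < ρ z) : IsClosed (starCurve ρ) :=
  (isCompact_starCurve hc hρ).isClosed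

theorem mem_compl_starSet {z : ℂ} : z ∈ (starSet ρ)ᶜ ↔ z ≠ 0 ∧ ρ (arc z) < ‖z‖ := by
  unfold starSet
  rw [mem_compl_iff, mem_ofPred_eq, not_or, not_le]

theorem starSet_eq_union : starSet ρ = openStar ρ ∪ starCurve ρ := by
  ext z
  unfold starSet openStar starCurve
  rw [mem_union, mem_ofPred_eq, mem_ofPred_eq, mem_ofPred_eq, le_iff_lt_or_eq]
  tauto

theorem disjoint_openStar_starCurve : Disjoint (openStar ρ) (starCurve ρ) := by
  rw [disjoint_left]
  rintro z hz ⟨h0, h1⟩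
  exact absurd h1 (hz.resolve_left h0).ne

theorem isOpen_openStar (hc : ContinuousOn ρ (Metric.sphere 0 1))
    (hρ : ∀ z ∈ Metric.sphere (0 : ℂ) 1, 0 < ρ z) : IsOpen (openStar ρ) := by
  obtain ⟨δ, hδ, hδk⟩ := exists_pos_le hc hρ
  have h1 : ContinuousOn (fun z : ℂ => ρ (arc z) - ‖z‖) {0}ᶜ :=
    (hc.comp continuousOn_arc mapsTo_arc).sub continuous_norm.continuousOn
  have h2 : IsOpen (({0}ᶜ : Set ℂ) ∩ (fun z : ℂ => ρ (arc z) - ‖z‖) ⁻¹' Ioi 0) :=
    h1.isOpen_inter_preimage isOpen_compl_singleton isOpen_Ioi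
  have h3 : openStar ρ = Metric.ball 0 δ ∪
      (({0}ᶜ : Set ℂ) ∩ (fun z : ℂ => ρ (arc z) - ‖z‖) ⁻¹' Ioi 0) := by
    ext z
    unfold openStar
    rw [mem_ofPred_eq, mem_union, mem_inter_iff, mem_ball_zero_iff, mem_compl_iff,
      mem_singleton_iff, mem_preimage, mem_Ioi, sub_pos]
    constructor
    · rintro (h | h)
      · left
        rw [h, norm_zero]
        exact hδ
      · by_cases h0 : z = 0
        · left
          rw [h0, norm_zero]
          exact hδ
        · exact Or.inr ⟨h0, h⟩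
    · rintro (h | h)
      · by_cases h0 : z = 0
        · exact Or.inl h0
        · exact Or.inr (h.trans_le (hδk _ (arc_mem_sphere h0)))
      · exact Or.inr h.2
  rw [h3]
  exact Metric.isOpen_ball.union h2

theorem interior_starSet (hc : ContinuousOn ρ (Metric.sphere 0 1))
    (hρ : ∀ z ∈ Metric.sphere (0 : ℂ) 1, 0 < ρ z) : interior (starSet ρ) = openStar ρ := by
  apply Subset.antisymm
  · intro z hz
    have hz1 := interior_subset hz
    rw [starSet_eq_union] at hz1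
    refine hz1.resolve_right ?_
    rintro ⟨h0, h1⟩
    have hw := arc_mem_sphere h0
    have hw1 := norm_arc h0
    have hcont : ContinuousAt (fun s : ℝ => ((s : ℂ)) * z) 1 := by fun_prop
    have h2 : ∀ᶠ s : ℝ in 𝓝 1, (s : ℂ) * z ∈ starSet ρ := by
      refine hcont.eventually_mem (s := starSet ρ) ?_
      rw [Complex.ofReal_one, one_mul]
      exact mem_interior_iff_mem_nhds.mp hz
    obtain ⟨ε, hε, hball⟩ := Metric.eventually_nhds_iff_ball.mp h2
    have h3 := hball (1 + ε / 2) (by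
      rw [Metric.mem_ball, Real.dist_eq]
      rw [add_sub_cancel_left, abs_of_pos (half_pos hε)]
      exact half_lt_self hε)
    have h4 : (0 : ℝ) < 1 + ε / 2 := by positivity
    have hz' : ((1 + ε / 2 : ℝ) : ℂ) * z = (((1 + ε / 2) * ‖z‖ : ℝ) : ℂ) * arc z := by
      conv_lhs => rw [← norm_mul_arc z]
      push_cast
      ring
    have hpos : 0 < (1 + ε / 2) * ‖z‖ := mul_pos h4 (norm_pos_iff.mpr h0)
    rw [hz'] at h3
    rcases h3 with h3 | h3
    · have : ‖(((1 + ε / 2) * ‖z‖ : ℝ) : ℂ) * arc z‖ = 0 := by rw [h3, norm_zero]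
      rw [norm_mul_of hpos.le hw1] at this
      exact hpos.ne' this
    · rw [norm_mul_of hpos.le hw1, arc_mul hpos hw1, ← h1] at h3
      have := norm_pos_iff.mpr h0
      nlinarith
  · exact interior_maximal (by rw [starSet_eq_union]; exact subset_union_left)
      (isOpen_openStar hc hρ)

theorem frontier_starSet (hc : ContinuousOn ρ (Metric.sphere 0 1))
    (hρ : ∀ z ∈ Metric.sphere (0 : ℂ) 1, 0 < ρ z) : frontier (starSet ρ) = starCurve ρ := by
  rw [(isClosed_starSet hc hρ).frontier_eq, interior_starSet hc hρ, starSet_eq_union,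
    union_sdiff_left]
  exact (disjoint_openStar_starCurve.symm).sdiff_eq_left

theorem isOpen_compl_starSet (hc : ContinuousOn ρ (Metric.sphere 0 1))
    (hρ : ∀ z ∈ Metric.sphere (0 : ℂ) 1, 0 < ρ z) : IsOpen (starSet ρ)ᶜ :=
  (isClosed_starSet hc hρ).isOpen_compl

theorem openStar_eq_image (hρ : ∀ z ∈ Metric.sphere (0 : ℂ) 1, 0 < ρ z) :
    openStar ρ = (fun p : ℝ × ℂ => ((p.1 * ρ p.2 : ℝ) : ℂ) * p.2) ''
      (Ico 0 1 ×ˢ Metric.sphere (0 : ℂ) 1) := by
  apply Subset.antisymm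
  · intro z hz
    by_cases h0 : z = 0
    · refine ⟨(0, 1), ⟨⟨le_rfl, zero_lt_one⟩, by simp⟩, ?_⟩
      simp [h0]
    · have hw := arc_mem_sphere h0
      have h1 := hρ _ hw
      have h2 := hz.resolve_left h0
      refine ⟨(‖z‖ / ρ (arc z), arc z), ⟨⟨by positivity, ?_⟩, hw⟩, ?_⟩
      · exact (div_lt_one h1).mpr h2
      · dsimp only
        rw [div_mul_cancel₀ _ h1.ne', norm_mul_arc]
  · rintro _ ⟨⟨s, w⟩, ⟨⟨hs0, hs1⟩, hw⟩, rfl⟩
    have h1 := hρ w hw
    rw [mem_sphere_zero_iff_norm] at hw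
    dsimp only at hs0 hs1 hw ⊢
    rcases hs0.eq_or_lt with h | h
    · left
      rw [← h]
      simp
    · right
      have h2 : 0 < s * ρ w := mul_pos h h1
      rw [norm_mul_of h2.le hw, arc_mul h2 hw]
      nlinarith

theorem compl_starSet_eq_image (hρ : ∀ z ∈ Metric.sphere (0 : ℂ) 1, 0 < ρ z) :
    (starSet ρ)ᶜ = (fun p : ℝ × ℂ => ((p.1 * ρ p.2 : ℝ) : ℂ) * p.2) ''
      (Ioi 1 ×ˢ Metric.sphere (0 : ℂ) 1) := by
  apply Subset.antisymm
  · intro z hz
    rw [mem_compl_starSet] at hz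
    have hw := arc_mem_sphere hz.1
    have h1 := hρ _ hw
    refine ⟨(‖z‖ / ρ (arc z), arc z), ⟨?_, hw⟩, ?_⟩
    · rw [mem_Ioi, one_lt_div h1]
      exact hz.2
    · dsimp only
      rw [div_mul_cancel₀ _ h1.ne', norm_mul_arc]
  · rintro _ ⟨⟨s, w⟩, ⟨hs, hw⟩, rfl⟩
    have h1 := hρ w hw
    rw [mem_sphere_zero_iff_norm] at hw
    rw [mem_Ioi] at hs
    dsimp only at hs ⊢
    rw [mem_compl_starSet]
    have h2 : 0 < s * ρ w := mul_pos (zero_lt_one.trans hs) h1
    refine ⟨?_, ?_⟩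
    · rw [← norm_ne_zero_iff, norm_mul_of h2.le hw]
      exact h2.ne'
    · rw [norm_mul_of h2.le hw, arc_mul h2 hw]
      nlinarith

theorem isConnected_sphere_one : IsConnected (Metric.sphere (0 : ℂ) 1) :=
  isConnected_sphere (by rw [Complex.rank_real_complex]; exact Nat.one_lt_ofNat) 0 zero_le_one

theorem isConnected_openStar (hc : ContinuousOn ρ (Metric.sphere 0 1))
    (hρ : ∀ z ∈ Metric.sphere (0 : ℂ) 1, 0 < ρ z) : IsConnected (openStar ρ) := by
  rw [openStar_eq_image hρ]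
  refine (IsConnected.prod (isConnected_Ico zero_lt_one) isConnected_sphere_one).image _ ?_
  refine ContinuousOn.mul (Complex.continuous_ofReal.comp_continuousOn ?_) continuousOn_snd
  exact continuousOn_fst.mul (hc.comp continuousOn_snd fun p hp => hp.2)

theorem isConnected_compl_starSet (hc : ContinuousOn ρ (Metric.sphere 0 1))
    (hρ : ∀ z ∈ Metric.sphere (0 : ℂ) 1, 0 < ρ z) : IsConnected (starSet ρ)ᶜ := by
  rw [compl_starSet_eq_image hρ]
  refine (IsConnected.prod isConnected_Ioi isConnected_sphere_one).image _ ?_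
  refine ContinuousOn.mul (Complex.continuous_ofReal.comp_continuousOn ?_) continuousOn_snd
  exact continuousOn_fst.mul (hc.comp continuousOn_snd fun p hp => hp.2)

theorem isOpen_inner (hc : ContinuousOn ρ (Metric.sphere 0 1))
    (hρ : ∀ z ∈ Metric.sphere (0 : ℂ) 1, 0 < ρ z) :
    IsOpen {z : ℂ | z = 0 ∨ ‖z‖ < ρ (arc z)} := isOpen_openStar hc hρ

theorem isConnected_inner (hc : ContinuousOn ρ (Metric.sphere 0 1))
    (hρ : ∀ z ∈ Metric.sphere (0 : ℂ) 1, 0 < ρ z) :
    IsConnected {z : ℂ | z = 0 ∨ ‖z‖ < ρ (arc z)} := isConnected_openStar hc hρ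

theorem compl_starSet_eq : (starSet ρ)ᶜ = {z : ℂ | z ≠ 0 ∧ ρ (arc z) < ‖z‖} := by
  ext z
  exact mem_compl_starSet

theorem isOpen_outer (hc : ContinuousOn ρ (Metric.sphere 0 1))
    (hρ : ∀ z ∈ Metric.sphere (0 : ℂ) 1, 0 < ρ z) :
    IsOpen {z : ℂ | z ≠ 0 ∧ ρ (arc z) < ‖z‖} := by
  rw [← compl_starSet_eq]
  exact isOpen_compl_starSet hc hρ

theorem isConnected_outer (hc : ContinuousOn ρ (Metric.sphere 0 1))
    (hρ : ∀ z ∈ Metric.sphere (0 : ℂ) 1, 0 < ρ z) :
    IsConnected {z : ℂ | z ≠ 0 ∧ ρ (arc z) < ‖z‖} := by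
  rw [← compl_starSet_eq]
  exact isConnected_compl_starSet hc hρ

end star

end Pool.Agent.Rohlin
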