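import Pool.Agent.Rohlin.Iso.Radial

/-!
# A small tilt of the line at infinity of a star shaped disc

Finitely many points of the projective plane can be moved into the range of the chart of a star
shaped disc, without changing the centre.
-/

set_option autoImplicit false

namespace Pool.Agent.Rohlin

open Set Topology Octic

/-! ### directions -/

theorem arc_smul {t : ℝ} (ht : 0 < t) (z : ℂ) : arc ((t : ℂ) * z) = arc z := by
  have h : (t : ℂ) ≠ 0 := by exact_mod_cast ht.ne'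
  rw [arc, arc, norm_mul, Complex.norm_real, Real.norm_eq_abs, abs_of_pos ht]
  push_cast
  rw [mul_inv]
  calc (t : ℂ)⁻¹ * (‖z‖ : ℂ)⁻¹ * (t * z) = ((t : ℂ)⁻¹ * t) * ((‖z‖ : ℂ)⁻¹ * z) := by ring
    _ = (‖z‖ : ℂ)⁻¹ * z := by rw [inv_mul_cancel₀ h, one_mul]

/-! ### the tilt -/

/-- the linear functional of the tilt -/
noncomputable def tiltL (s t : ℝ) (z : ℂ) : ℝ := z.re * s + z.im * t

theorem tiltL_smul (s t r : ℝ) (z : ℂ) : tiltL s t ((r : ℂ) * z) = r * tiltL s t z := by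
  simp only [tiltL, Complex.mul_re, Complex.mul_im, Complex.ofReal_re, Complex.ofReal_im]
  ring

theorem tiltL_arc (s t : ℝ) (z : ℂ) : tiltL s t z = ‖z‖ * tiltL s t (arc z) := by
  rw [← tiltL_smul, norm_mul_arc]

theorem continuous_tiltL (s t : ℝ) : Continuous (tiltL s t) := by
  unfold tiltL
  exact (Complex.continuous_re.mul continuous_const).add
    (Complex.continuous_im.mul continuous_const)

theorem tilt_indep {c u v : Fin 3 → ℝ} (hc : LinearIndependent ℝ ![c, u, v]) (s t : ℝ) :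
    LinearIndependent ℝ ![c, u + s • c, v + t • c] := by
  rw [Fintype.linearIndependent_iff] at hc ⊢
  intro g hg
  rw [Fin.sum_univ_three] at hg
  have h1 := hc ![g 0 + g 1 * s + g 2 * t, g 1, g 2] (by
    rw [Fin.sum_univ_three]
    rw [← hg]
    simp only [Matrix.cons_val_zero, Matrix.cons_val_one, Matrix.cons_val]
    module)
  have e1 : g 1 = 0 := by simpa using h1 1
  have e2 : g 2 = 0 := by simpa using h1 2
  have e0 : g 0 = 0 := by
    have := h1 0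
    simp only [Matrix.cons_val_zero] at this
    rw [e1, e2] at this
    simpa using this
  intro i
  fin_cases i
  · exact e0
  · exact e1
  · exact e2

theorem chart_tilt {c u v : Fin 3 → ℝ} (hc : LinearIndependent ℝ ![c, u, v]) (s t : ℝ) (z : ℂ)
    (hz : 1 + tiltL s t z ≠ 0) :
    chart (tilt_indep hc s t) z = chart hc (((1 + tiltL s t z)⁻¹ : ℝ) * z) := by
  unfold chart
  rw [Projectivization.mk_eq_mk_iff']
  refine ⟨1 + tiltL s t z, ?_⟩
  have hre : ((((1 + tiltL s t z)⁻¹ : ℝ) : ℂ) * z).re = (1 + tiltL s t z)⁻¹ * z.re := by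
    rw [Complex.re_ofReal_mul]
  have him : ((((1 + tiltL s t z)⁻¹ : ℝ) : ℂ) * z).im = (1 + tiltL s t z)⁻¹ * z.im := by
    rw [Complex.im_ofReal_mul]
  rw [hre, him, smul_add, smul_add, smul_smul, smul_smul, ← mul_assoc, ← mul_assoc,
    mul_inv_cancel₀ hz, one_mul, one_mul]
  simp only [tiltL]
  module

/-- the radial function after the tilt -/
noncomputable def tiltR (s t : ℝ) (ρ : ℂ → ℝ) (e : ℂ) : ℝ := ρ e / (1 - ρ e * tiltL s t e)

theorem tilt_fwd {c u v : Fin 3 → ℝ} (hc : LinearIndependent ℝ ![c, u, v]) {s t : ℝ}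
    {ρ : ℂ → ℝ} (hpos : ∀ e ∈ Metric.sphere (0 : ℂ) 1, 0 < ρ e)
    (hsm : ∀ e ∈ Metric.sphere (0 : ℂ) 1, ρ e * |tiltL s t e| < 1) {z : ℂ} (hz : z ≠ 0)
    (h : ‖z‖ ≤ tiltR s t ρ (arc z)) :
    ∃ w : ℂ, w ≠ 0 ∧ chart hc w = chart (tilt_indep hc s t) z ∧ ‖w‖ ≤ ρ (arc w) ∧
      (‖z‖ = tiltR s t ρ (arc z) → ‖w‖ = ρ (arc w)) := by
  have he := arc_mem_sphere hz
  have hp := hpos _ he
  have hs := hsm _ he
  have hr : 0 < ‖z‖ := norm_pos_iff.2 hz
  set e := arc z with hee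
  set l := tiltL s t e with hl
  have hlt : ρ e * l < 1 := lt_of_le_of_lt (mul_le_mul_of_nonneg_left (le_abs_self l) hp.le) hs
  have hd : 0 < 1 - ρ e * l := by linarith
  have hL : tiltL s t z = ‖z‖ * l := tiltL_arc s t z
  have h1 : ‖z‖ * (1 - ρ e * l) ≤ ρ e := by
    rw [tiltR, le_div_iff₀ hd] at h
    exact h
  have hD : 0 < 1 + ‖z‖ * l := by
    by_cases hl0 : 0 ≤ l
    · have := mul_nonneg hr.le hl0
      linarith
    · push Not at hl0
      have h2 : 0 ≤ l * (‖z‖ * (1 - ρ e * l) - ρ e) :=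
        mul_nonneg_of_nonpos_of_nonpos hl0.le (by linarith)
      have h3 : (1 - ρ e * l) * (1 + ‖z‖ * l) = 1 + l * (‖z‖ * (1 - ρ e * l) - ρ e) := by ring
      have h4 : 0 < (1 - ρ e * l) * (1 + ‖z‖ * l) := by rw [h3]; linarith
      exact (mul_pos_iff_of_pos_left hd).1 h4
  have hD' : 0 < 1 + tiltL s t z := by rw [hL]; exact hD
  have hinv : 0 < (1 + tiltL s t z)⁻¹ := inv_pos.2 hD'
  have hw : ‖(((1 + tiltL s t z)⁻¹ : ℝ) : ℂ) * z‖ = ‖z‖ / (1 + ‖z‖ * l) := by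
    rw [norm_mul, Complex.norm_real, Real.norm_eq_abs, abs_of_pos hinv, hL, inv_mul_eq_div]
  refine ⟨(((1 + tiltL s t z)⁻¹ : ℝ) : ℂ) * z, ?_, ?_, ?_, ?_⟩
  · exact mul_ne_zero (by exact_mod_cast hinv.ne') hz
  · exact (chart_tilt hc s t z hD'.ne').symm
  · rw [arc_smul hinv, hw, div_le_iff₀ hD]
    linarith
  · intro heq
    rw [arc_smul hinv, hw, div_eq_iff hD.ne']
    rw [tiltR, eq_div_iff hd.ne'] at heq
    linarith

theorem tilt_bwd {c u v : Fin 3 → ℝ} (hc : LinearIndependent ℝ ![c, u, v]) {s t : ℝ}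
    {ρ : ℂ → ℝ} (hpos : ∀ e ∈ Metric.sphere (0 : ℂ) 1, 0 < ρ e)
    (hsm : ∀ e ∈ Metric.sphere (0 : ℂ) 1, ρ e * |tiltL s t e| < 1) {w : ℂ} (hw : w ≠ 0)
    (h : ‖w‖ ≤ ρ (arc w)) :
    ∃ z : ℂ, z ≠ 0 ∧ chart (tilt_indep hc s t) z = chart hc w ∧ ‖z‖ ≤ tiltR s t ρ (arc z) ∧
      (‖w‖ = ρ (arc w) → ‖z‖ = tiltR s t ρ (arc z)) := by
  have he := arc_mem_sphere hw
  have hp := hpos _ he
  have hs := hsm _ he
  have hr : 0 < ‖w‖ := norm_pos_iff.2 hw
  set e := arc w with hee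
  set l := tiltL s t e with hl
  have hlt : ρ e * l < 1 := lt_of_le_of_lt (mul_le_mul_of_nonneg_left (le_abs_self l) hp.le) hs
  have hd : 0 < 1 - ρ e * l := by linarith
  have hL : tiltL s t w = ‖w‖ * l := tiltL_arc s t w
  have hD : 0 < 1 - ‖w‖ * l := by
    have h1 : ‖w‖ * l ≤ ρ e * |l| :=
      (mul_le_mul_of_nonneg_left (le_abs_self l) hr.le).trans
        (mul_le_mul_of_nonneg_right h (abs_nonneg l))
    linarith
  have hinv : 0 < (1 - ‖w‖ * l)⁻¹ := inv_pos.2 hD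
  have hz : ‖(((1 - ‖w‖ * l)⁻¹ : ℝ) : ℂ) * w‖ = ‖w‖ / (1 - ‖w‖ * l) := by
    rw [norm_mul, Complex.norm_real, Real.norm_eq_abs, abs_of_pos hinv, inv_mul_eq_div]
  have hLz : 1 + tiltL s t ((((1 - ‖w‖ * l)⁻¹ : ℝ) : ℂ) * w) = (1 - ‖w‖ * l)⁻¹ := by
    rw [tiltL_smul, hL]
    field_simp
    ring
  refine ⟨(((1 - ‖w‖ * l)⁻¹ : ℝ) : ℂ) * w, ?_, ?_, ?_, ?_⟩
  · exact mul_ne_zero (by exact_mod_cast hinv.ne') hw
  · rw [chart_tilt hc s t _ (by rw [hLz]; exact hinv.ne'), hLz, inv_inv, ← mul_assoc,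
      ← Complex.ofReal_mul, mul_inv_cancel₀ hD.ne', Complex.ofReal_one, one_mul]
  · rw [arc_smul hinv, hz, tiltR, div_le_div_iff₀ hD hd]
    linarith
  · intro heq
    rw [arc_smul hinv, hz, tiltR, div_eq_div_iff hD.ne' hd.ne']
    rw [heq]

/-- the tilted chart of a star shaped disc -/
theorem StarOval.tilted {c u v : Fin 3 → ℝ} {hc : LinearIndependent ℝ ![c, u, v]} {ρ : ℂ → ℝ}
    {Δ : Set RP2} (h : StarOval c u v hc ρ Δ) {s t : ℝ}
    (hsm : ∀ e ∈ Metric.sphere (0 : ℂ) 1, ρ e * |tiltL s t e| < 1) :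
    StarOval c (u + s • c) (v + t • c) (tilt_indep hc s t) (tiltR s t ρ) Δ := by
  have hd : ∀ e ∈ Metric.sphere (0 : ℂ) 1, 0 < 1 - ρ e * tiltL s t e := by
    intro e he
    have h1 := hsm e he
    have h2 := mul_le_mul_of_nonneg_left (le_abs_self (tiltL s t e)) (h.pos e he).le
    linarith
  have h0 : chart (tilt_indep hc s t) 0 = chart hc 0 := by
    rw [chart_tilt hc s t 0 (by simp [tiltL])]
    simp [tiltL]
  refine ⟨?_, ?_, ?_, ?_⟩
  · refine ContinuousOn.div h.cont ?_ fun e he => (hd e he).ne'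
    exact continuousOn_const.sub (h.cont.mul (continuous_tiltL s t).continuousOn)
  · intro e he
    exact div_pos (h.pos e he) (hd e he)
  · rw [h.disc]
    apply Subset.antisymm
    · rintro _ ⟨w, hw, rfl⟩
      by_cases hw0 : w = 0
      · exact ⟨0, Or.inl rfl, by rw [h0, hw0]⟩
      · obtain ⟨z, hz0, hz1, hz2, -⟩ := tilt_bwd hc h.pos hsm hw0 (hw.resolve_left hw0)
        exact ⟨z, Or.inr hz2, hz1⟩
    · rintro _ ⟨z, hz, rfl⟩
      by_cases hz0 : z = 0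
      · exact ⟨0, Or.inl rfl, by rw [hz0, h0]⟩
      · obtain ⟨w, hw0, hw1, hw2, -⟩ := tilt_fwd hc h.pos hsm hz0 (hz.resolve_left hz0)
        exact ⟨w, Or.inr hw2, hw1⟩
  · rw [h.front]
    apply Subset.antisymm
    · rintro _ ⟨w, ⟨hw0, hw⟩, rfl⟩
      obtain ⟨z, hz0, hz1, -, hz2⟩ := tilt_bwd hc h.pos hsm hw0 hw.le
      exact ⟨z, ⟨hz0, hz2 hw⟩, hz1⟩
    · rintro _ ⟨z, ⟨hz0, hz⟩, rfl⟩
      obtain ⟨w, hw0, hw1, -, hw2⟩ := tilt_fwd hc h.pos hsm hz0 hz.le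
      exact ⟨w, ⟨hw0, hw2 hz⟩, hw1⟩

/-- a star shaped disc has a chart with the same centre whose line at infinity avoids finitely
many given points -/
theorem StarOval.tilt {c u v : Fin 3 → ℝ} {hc : LinearIndependent ℝ ![c, u, v]} {ρ : ℂ → ℝ}
    {Δ : Set RP2} (h : StarOval c u v hc ρ Δ) {P : Set RP2} (hP : P.Finite) :
    ∃ (u' v' : Fin 3 → ℝ) (hc' : LinearIndependent ℝ ![c, u', v']) (ρ' : ℂ → ℝ),
      StarOval c u' v' hc' ρ' Δ ∧ P ⊆ range (chart hc') := by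
  -- a bound for `ρ`
  obtain ⟨M, hM⟩ : ∃ M, ∀ e ∈ Metric.sphere (0 : ℂ) 1, ρ e ≤ M := by
    obtain ⟨M, hM⟩ := (isCompact_sphere (0 : ℂ) 1).bddAbove_image h.cont
    exact ⟨M, fun e he => hM ⟨e, he, rfl⟩⟩
  have hM0 : 0 < M := (h.pos 1 (by simp)).trans_le (hM 1 (by simp))
  obtain ⟨a, b, d, ha, hb, hd, hx⟩ := exists_coord hc
  -- the bad parameters
  let bad : Set ℝ := ⋃ p ∈ P, {s : ℝ | a p.rep - s * b p.rep - s ^ 2 * d p.rep = 0}
  have hbad : bad.Finite := by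
    refine hP.biUnion fun p _ => ?_
    let q : Polynomial ℝ := Polynomial.C (a p.rep) - Polynomial.C (b p.rep) * Polynomial.X
      - Polynomial.C (d p.rep) * Polynomial.X ^ 2
    have hq : q ≠ 0 := by
      intro h0
      have c0 : q.coeff 0 = 0 := by rw [h0, Polynomial.coeff_zero]
      have c1 : q.coeff 1 = 0 := by rw [h0, Polynomial.coeff_zero]
      have c2 : q.coeff 2 = 0 := by rw [h0, Polynomial.coeff_zero]
      simp [q, Polynomial.coeff_X, Polynomial.coeff_C] at c0 c1 c2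
      apply p.rep_nonzero
      rw [hx p.rep, c0, c1, c2]
      simp
    refine (Polynomial.finite_setOf_isRoot hq).subset fun s hs => ?_
    simp only [mem_setOf_eq] at hs
    simp only [mem_setOf_eq, Polynomial.IsRoot.def, q, Polynomial.eval_sub, Polynomial.eval_mul,
      Polynomial.eval_C, Polynomial.eval_X, Polynomial.eval_pow]
    linarith
  have hε : 0 < (2 * M + 1)⁻¹ := by positivity
  obtain ⟨s, hs, hsbad⟩ := (Ioo_infinite hε).exists_notMem_finite hbad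
  have hs1 : s < 1 := by
    refine hs.2.trans_le (inv_le_one_of_one_le₀ ?_)
    linarith
  have hs2 : s ^ 2 ≤ s := by nlinarith [hs.1]
  have hsM : (2 * M + 1) * s < 1 := by
    have := hs.2
    rw [lt_inv_comm₀ hs.1 (by positivity)] at this
    have h2 := mul_lt_mul_of_pos_right this hs.1
    rwa [inv_mul_cancel₀ hs.1.ne'] at h2
  have hL : ∀ e ∈ Metric.sphere (0 : ℂ) 1, |tiltL s (s ^ 2) e| ≤ 2 * s := by
    intro e he
    have he1 : ‖e‖ = 1 := by simpa using he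
    have hre : |e.re| ≤ 1 := he1 ▸ Complex.abs_re_le_norm e
    have him : |e.im| ≤ 1 := he1 ▸ Complex.abs_im_le_norm e
    have h1 : |e.re * s| ≤ s := by
      rw [abs_mul, abs_of_pos hs.1]
      nlinarith [hs.1]
    have h2 : |e.im * s ^ 2| ≤ s := by
      rw [abs_mul, abs_of_nonneg (sq_nonneg s)]
      nlinarith [sq_nonneg s]
    calc |tiltL s (s ^ 2) e| ≤ |e.re * s| + |e.im * s ^ 2| := abs_add_le _ _
      _ ≤ 2 * s := by linarith
  have hsm : ∀ e ∈ Metric.sphere (0 : ℂ) 1, ρ e * |tiltL s (s ^ 2) e| < 1 := by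
    intro e he
    have h1 : ρ e * |tiltL s (s ^ 2) e| ≤ M * (2 * s) :=
      mul_le_mul (hM e he) (hL e he) (abs_nonneg _) hM0.le
    have h2 := hs.1
    nlinarith
  refine ⟨_, _, tilt_indep hc s (s ^ 2), _, h.tilted hsm, fun p hp => ?_⟩
  have hl : a p.rep - s * b p.rep - s ^ 2 * d p.rep ≠ 0 := by
    intro h0
    exact hsbad (mem_biUnion hp h0)
  rw [← p.mk_rep, mk_mem_range_chart (tilt_indep hc s (s ^ 2)) (a - s • b - s ^ 2 • d)]
  · simpa using hl
  · simp [ha.1, hb.1, hd.1]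
  · simp [ha.1, ha.2.1, hb.1, hb.2.1, hd.1, hd.2.1]
  · simp [ha.1, ha.2.2, hb.1, hb.2.2, hd.1, hd.2.2]

end Pool.Agent.Rohlin
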