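import Pool.Agent.Rohlin.Iso.Ext
import Pool.Agent.Rohlin.Iso.Tilt
import Pool.Agent.Rohlin.Iso.Radial

/-!
# A star shaped disc is shrunk to a small round disc of another chart (helper26)
-/

set_option autoImplicit false

namespace Pool.Agent.Rohlin

open Set Topology Octic

/-- the small circles around `z₀` of the second chart are star curves of the first chart -/
theorem circle_eq_starCurve {F G : ℂ → RP2} {L : ℂ →ₗ[ℝ] ℝ} {δ : ℂ →ₗ[ℝ] ℂ}
    (hδ : Function.Injective δ) {A : ℝ} (hA : A ≠ 0) {z₀ : ℂ}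
    (H : ∀ z, A + L z ≠ 0 → F z = G (z₀ + (A + L z)⁻¹ • δ z)) {m : ℝ} (hm : 0 < m) :
    ∃ ε₁ : ℝ, 0 < ε₁ ∧ ∀ ε : ℝ, 0 < ε → ε < ε₁ → ∃ ρ : ℂ → ℝ,
      ContinuousOn ρ (Metric.sphere 0 1) ∧ (∀ w ∈ Metric.sphere (0 : ℂ) 1, 0 < ρ w ∧ ρ w < m) ∧
      F '' starCurve ρ = G '' Metric.sphere z₀ ε := by
  have hLc : Continuous L := LinearMap.continuous_of_finiteDimensional L
  have hδc : Continuous δ := LinearMap.continuous_of_finiteDimensional δ
  have hcomp : IsCompact (Metric.sphere (0 : ℂ) 1) := isCompact_sphere _ _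
  have hne : (Metric.sphere (0 : ℂ) 1).Nonempty := ⟨1, by simp⟩
  obtain ⟨K, hK⟩ : ∃ K : ℝ, ∀ w ∈ Metric.sphere (0 : ℂ) 1, |L w| ≤ K := by
    obtain ⟨w, -, hw⟩ := hcomp.exists_isMaxOn hne hLc.abs.continuousOn
    exact ⟨|L w|, fun y hy => hw hy⟩
  have hK0 : 0 ≤ K := (abs_nonneg _).trans (hK 1 (by simp))
  obtain ⟨μ, hμ, hμ2⟩ : ∃ μ : ℝ, 0 < μ ∧ ∀ w ∈ Metric.sphere (0 : ℂ) 1, μ ≤ ‖δ w‖ := by
    obtain ⟨w, hw1, hw⟩ := hcomp.exists_isMinOn hne hδc.norm.continuousOn
    refine ⟨‖δ w‖, norm_pos_iff.2 fun h0 => ?_, fun y hy => hw hy⟩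
    have : w = 0 := hδ (by rw [h0, map_zero])
    rw [this] at hw1
    simp at hw1
  have hsc : ∀ (z : ℂ), z = ‖z‖ • arc z := fun z => by
    rw [Complex.real_smul]; exact (norm_mul_arc z).symm
  have hLz : ∀ z, L z = ‖z‖ * L (arc z) := fun z => by
    conv_lhs => rw [hsc z]
    rw [map_smul, smul_eq_mul]
  have hδz : ∀ z, ‖δ z‖ = ‖z‖ * ‖δ (arc z)‖ := fun z => by
    conv_lhs => rw [hsc z]
    rw [map_smul, norm_smul, norm_norm]
  have hA0 : 0 < |A| := abs_pos.2 hA
  set σ : ℝ := A / |A| with hσ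
  have hσA : σ * A = |A| := by
    rw [hσ, div_mul_eq_mul_div, ← sq, ← sq_abs, sq, mul_div_assoc, div_self hA0.ne', mul_one]
  have hσ1 : |σ| = 1 := by
    rw [hσ, abs_div, abs_abs, div_self hA0.ne']
  have hσσ : σ * σ = 1 := by
    rw [← abs_mul_abs_self, hσ1, one_mul]
  refine ⟨min (μ / (2 * (K + 1))) (m * μ / (2 * |A|)), by positivity, fun ε hε hε1 => ?_⟩
  have he1 : ε * K ≤ μ / 2 := by
    have h1 := (lt_min_iff.1 hε1).1
    rw [lt_div_iff₀ (by positivity)] at h1
    nlinarith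
  have he2 : ε * |A| < m * (μ / 2) := by
    have h1 := (lt_min_iff.1 hε1).2
    rw [lt_div_iff₀ (by positivity)] at h1
    linarith
  have hden : ∀ w ∈ Metric.sphere (0 : ℂ) 1, μ / 2 ≤ ‖δ w‖ - ε * (σ * L w) := by
    intro w hw
    have h1 := hK w hw
    have h2 := hμ2 w hw
    have h3 : |ε * (σ * L w)| ≤ ε * K := by
      rw [abs_mul, abs_mul, hσ1, one_mul, abs_of_pos hε]
      exact mul_le_mul_of_nonneg_left h1 hε.le
    have h4 := (abs_le.1 h3).2
    linarith
  refine ⟨fun w => ε * |A| / (‖δ w‖ - ε * (σ * L w)), ?_, ?_, ?_⟩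
  · refine ContinuousOn.div continuousOn_const ?_ fun w hw => ?_
    · exact (hδc.norm.sub (continuous_const.mul (continuous_const.mul hLc))).continuousOn
    · have := hden w hw
      linarith
  · intro w hw
    have h1 := hden w hw
    have h2 : 0 < ‖δ w‖ - ε * (σ * L w) := by linarith
    refine ⟨by positivity, ?_⟩
    rw [div_lt_iff₀ h2]
    exact he2.trans_le (mul_le_mul_of_nonneg_left h1 hm.le)
  · -- the equation of the curve
    have hcurve : ∀ z : ℂ, z ≠ 0 → (‖z‖ = ε * |A| / (‖δ (arc z)‖ - ε * (σ * L (arc z))) ↔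
        ‖δ z‖ = ε * (σ * (A + L z))) := by
      intro z hz
      have h1 := hden _ (arc_mem_sphere hz)
      have h2 : 0 < ‖δ (arc z)‖ - ε * (σ * L (arc z)) := by linarith
      rw [eq_div_iff h2.ne', hδz z, hLz z]
      constructor
      · intro h3
        have : ε * (σ * (A + ‖z‖ * L (arc z))) = ε * |A| + ‖z‖ * (ε * (σ * L (arc z))) := by
          rw [← hσA]; ring
        rw [this, ← h3]
        ring
      · intro h3
        have : ε * (σ * (A + ‖z‖ * L (arc z))) = ε * |A| + ‖z‖ * (ε * (σ * L (arc z))) := by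
          rw [← hσA]; ring
        rw [this] at h3
        linarith
    have hδpos : ∀ z : ℂ, z ≠ 0 → 0 < ‖δ z‖ := fun z hz =>
      norm_pos_iff.2 fun h0 => hz (hδ (by rw [h0, map_zero]))
    ext p
    constructor
    · rintro ⟨z, ⟨hz, hzn⟩, rfl⟩
      have h1 := (hcurve z hz).1 hzn
      have h2 := hδpos z hz
      rw [h1] at h2
      have h3 : 0 < σ * (A + L z) := pos_of_mul_pos_right h2 hε.le
      have h4 : A + L z ≠ 0 := fun h0 => by rw [h0, mul_zero] at h3; exact lt_irrefl _ h3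
      have h5 : |A + L z| = σ * (A + L z) := by
        rw [← abs_of_pos h3, abs_mul, hσ1, one_mul]
      refine ⟨z₀ + (A + L z)⁻¹ • δ z, ?_, (H z h4).symm⟩
      rw [mem_sphere_iff_norm, add_sub_cancel_left, norm_smul, norm_inv, Real.norm_eq_abs, h5, h1,
        mul_left_comm, inv_mul_cancel₀ h3.ne', mul_one]
    · rintro ⟨z', hz', rfl⟩
      rw [mem_sphere_iff_norm] at hz'
      obtain ⟨y, hy⟩ : ∃ y, δ y = z' - z₀ := (LinearMap.injective_iff_surjective.1 hδ) _
      have hy0 : y ≠ 0 := by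
        rintro rfl
        rw [map_zero] at hy
        rw [← hy, norm_zero] at hz'
        exact hε.ne hz'
      have hyn : ‖y‖ * μ ≤ ε := by
        have h1 := hδz y
        rw [hy, hz'] at h1
        have h2 := hμ2 _ (arc_mem_sphere hy0)
        rw [h1]
        exact mul_le_mul_of_nonneg_left h2 (norm_nonneg _)
      have hLy : |L y| ≤ 1 / 2 := by
        rw [hLz y, abs_mul, abs_norm]
        have h1 := hK _ (arc_mem_sphere hy0)
        have h2 : ‖y‖ * |L (arc y)| ≤ ‖y‖ * K := mul_le_mul_of_nonneg_left h1 (norm_nonneg _)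
        have h3 : (‖y‖ * K) * μ ≤ (1 / 2) * μ := by nlinarith
        exact h2.trans (le_of_mul_le_mul_right h3 hμ)
      have hq : 0 < 1 - L y := by linarith [(abs_le.1 hLy).2]
      set D : ℝ := A / (1 - L y) with hD
      have hD0 : D ≠ 0 := div_ne_zero hA hq.ne'
      have hDL : A + L (D • y) = D := by
        rw [map_smul, smul_eq_mul]
        have : A = D * (1 - L y) := by rw [hD, div_mul_cancel₀ _ hq.ne']
        linarith
      have hz : D • y ≠ 0 := smul_ne_zero hD0 hy0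
      refine ⟨D • y, ⟨hz, (hcurve _ hz).2 ?_⟩, ?_⟩
      · rw [hDL, map_smul, norm_smul, hy, hz', Real.norm_eq_abs]
        have : σ * D = |D| := by
          rw [hD, ← mul_div_assoc, hσA, abs_div, abs_of_pos hq]
        rw [this]
        ring
      · rw [H _ (by rw [hDL]; exact hD0), hDL, map_smul, smul_smul, inv_mul_cancel₀ hD0, one_smul,
          hy, add_sub_cancel]

/-- transition from one chart to another one -/
theorem exists_transition {c u v c' u' v' : Fin 3 → ℝ} (hc : LinearIndependent ℝ ![c, u, v])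
    (hc' : LinearIndependent ℝ ![c', u', v']) {z₀ : ℂ} (hz₀ : chart hc' z₀ = chart hc 0) :
    ∃ (L : ℂ →ₗ[ℝ] ℝ) (δ : ℂ →ₗ[ℝ] ℂ) (A : ℝ), Function.Injective δ ∧ A ≠ 0 ∧
      ∀ z, A + L z ≠ 0 → chart hc z = chart hc' (z₀ + (A + L z)⁻¹ • δ z) := by
  obtain ⟨a, b, d, ha, hb, hd, hx⟩ := exists_coord hc'
  -- the functionals
  let ddm : ℂ →ₗ[ℝ] (Fin 3 → ℝ) :=
    { toFun := fun z => z.re • u + z.im • v
      map_add' := by intro z w; simp only [Complex.add_re, Complex.add_im]; module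
      map_smul' := by
        intro r z
        simp only [Complex.real_smul, Complex.re_ofReal_mul, Complex.im_ofReal_mul,
          RingHom.id_apply]
        module }
  have hdd : ∀ z, ddm z = z.re • u + z.im • v := fun z => rfl
  obtain ⟨t, ht⟩ := (Projectivization.mk_eq_mk_iff' ℝ _ _ _ _).1 hz₀
  have e1 := congrArg a ht
  have e2 := congrArg b ht
  have e3 := congrArg d ht
  simp only [map_smul, map_add, Complex.zero_re, Complex.zero_im, zero_smul, add_zero, ha.1,
    ha.2.1, ha.2.2, hb.1, hb.2.1, hb.2.2, hd.1, hd.2.1, hd.2.2, smul_eq_mul, mul_zero, mul_one,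
    zero_add] at e1 e2 e3
  have hA : a c ≠ 0 := fun h0 => by rw [h0, mul_zero] at e1; exact zero_ne_one e1
  have hbc : b c = z₀.re * a c := by
    have : t = (a c)⁻¹ := eq_inv_of_mul_eq_one_left e1
    rw [← e2, this]
    field_simp
  have hdc : d c = z₀.im * a c := by
    have : t = (a c)⁻¹ := eq_inv_of_mul_eq_one_left e1
    rw [← e3, this]
    field_simp
  let δ : ℂ →ₗ[ℝ] ℂ :=
    { toFun := fun z => ⟨b (ddm z) - z₀.re * a (ddm z), d (ddm z) - z₀.im * a (ddm z)⟩
      map_add' := by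
        intro z w
        apply Complex.ext
        · simp only [map_add, Complex.add_re]; ring
        · simp only [map_add, Complex.add_im]; ring
      map_smul' := by
        intro r z
        apply Complex.ext
        · simp only [map_smul, smul_eq_mul, RingHom.id_apply, Complex.smul_re]
          ring
        · simp only [map_smul, smul_eq_mul, RingHom.id_apply, Complex.smul_im]
          ring }
  have hδ : ∀ z, δ z = ⟨b (ddm z) - z₀.re * a (ddm z), d (ddm z) - z₀.im * a (ddm z)⟩ :=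
    fun z => rfl
  let L : ℂ →ₗ[ℝ] ℝ := a.comp ddm
  have hL : ∀ z, L z = a (ddm z) := fun z => rfl
  have H : ∀ z, a c + L z ≠ 0 → chart hc z = chart hc' (z₀ + (a c + L z)⁻¹ • δ z) := by
    intro z hz
    have hz' : a (c + z.re • u + z.im • v) = a c + L z := by
      rw [hL, hdd, add_assoc, map_add]
    have hmem := (mk_mem_image_chart hc' ha hb hd hx
      {z₀ + (a c + L z)⁻¹ • δ z} _ (chart_ne_zero hc z)).2 (by
        rw [hz']
        refine ⟨hz, ?_⟩
        rw [mem_singleton_iff, hδ]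
        apply Complex.ext
        · simp only [Complex.add_re, Complex.real_smul, Complex.re_ofReal_mul]
          rw [add_assoc c, map_add, hbc, ← hdd, hL] at *
          field_simp
          ring
        · simp only [Complex.add_im, Complex.real_smul, Complex.im_ofReal_mul]
          rw [add_assoc c, map_add, hdc, ← hdd, hL] at *
          field_simp
          ring)
    obtain ⟨w, hw, hw2⟩ := hmem
    rw [mem_singleton_iff] at hw
    rw [← hw]
    exact hw2.symm
  refine ⟨L, δ, a c, ?_, hA, H⟩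
  rw [injective_iff_map_eq_zero]
  intro z hz
  have key : ∀ r : ℝ, a c + L (r • z) ≠ 0 → r • z = 0 := by
    intro r hr
    have h1 := H (r • z) hr
    have h2 : δ (r • z) = 0 := by rw [map_smul, hz, smul_zero]
    rw [h2, smul_zero, add_zero, hz₀] at h1
    exact chart_injective hc h1
  by_cases h1 : a c + L z = 0
  · have h2 := key (1 / 2) (by
      rw [map_smul, smul_eq_mul]
      intro h3
      apply hA
      linarith)
    rcases smul_eq_zero.1 h2 with h3 | h3
    · norm_num at h3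
    · exact h3
  · have h2 := key 1 (by rwa [one_smul])
    rwa [one_smul] at h2

/-! ### stubs -/

/-- a slightly larger star set is still in the open set -/
theorem exists_larger {c u v : Fin 3 → ℝ} {hc : LinearIndependent ℝ ![c, u, v]} {ρ : ℂ → ℝ}
    {Δ : Set RP2} (h : StarOval c u v hc ρ Δ) {V : Set RP2} (hV : IsOpen V) (hΔ : Δ ⊆ V) :
    ∃ η : ℝ, 0 < η ∧ chart hc '' starSet (fun w => (1 + η) * ρ w) ⊆ V := by
  have hK : IsCompact (starSet ρ) := isCompact_starSet h.cont fun z hz => (h.pos z hz).le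
  have hc1 : Continuous fun p : ℝ × ℂ => chart hc (((1 + p.1 : ℝ) : ℂ) * p.2) := by
    refine (continuous_chart hc).comp ?_
    exact (Complex.continuous_ofReal.comp (continuous_const.add continuous_fst)).mul continuous_snd
  have hev : ∀ᶠ η in 𝓝 (0 : ℝ), ∀ z ∈ starSet ρ, chart hc (((1 + η : ℝ) : ℂ) * z) ∈ V := by
    refine hK.eventually_forall_of_forall_eventually fun z hz => ?_
    refine hc1.continuousAt.eventually (hV.mem_nhds ?_)
    simp only [add_zero, Complex.ofReal_one, one_mul]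
    apply hΔ
    rw [h.disc]
    exact ⟨z, hz, rfl⟩
  obtain ⟨r, hr, hball⟩ := Metric.eventually_nhds_iff.1 hev
  refine ⟨r / 2, by positivity, ?_⟩
  rintro _ ⟨z, hz, rfl⟩
  have hη : (0 : ℝ) < 1 + r / 2 := by positivity
  have h1 := hball (y := r / 2) (by
    rw [Real.dist_eq, sub_zero, abs_of_pos (by positivity)]; linarith)
    (((1 + r / 2)⁻¹ : ℝ) * z) (by
    rcases hz with rfl | hz
    · exact Or.inl (by simp)
    · right
      rw [arc_smul (inv_pos.2 hη), norm_mul, Complex.norm_real, Real.norm_eq_abs,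
        abs_of_pos (inv_pos.2 hη)]
      rw [inv_mul_le_iff₀ hη]
      exact hz)
  rw [← mul_assoc, ← Complex.ofReal_mul, mul_inv_cancel₀ hη.ne', Complex.ofReal_one, one_mul] at h1
  exact h1

/-- **Shrinking** a star shaped disc to a small round disc of another chart, centred at the
centre -/
theorem StarOval.shrink {c u v : Fin 3 → ℝ} {hc : LinearIndependent ℝ ![c, u, v]} {ρ : ℂ → ℝ}
    {Δ : Set RP2} (h : StarOval c u v hc ρ Δ) {V : Set RP2} (hV : IsOpen V) (hΔ : Δ ⊆ V)
    {c' u' v' : Fin 3 → ℝ} (hc' : LinearIndependent ℝ ![c', u', v']) {z₀ : ℂ}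
    (hz₀ : Octic.chart hc' z₀ = Octic.chart hc 0) :
    ∃ ε₀ > 0, ∀ ε, 0 < ε → ε < ε₀ → ∃ h, RIso V h ∧
      h 1 '' frontier Δ = Octic.chart hc' '' Metric.sphere z₀ ε := by
  obtain ⟨η, hη, hηV⟩ := exists_larger h hV hΔ
  obtain ⟨m, hm, hm2⟩ : ∃ m : ℝ, 0 < m ∧ ∀ w ∈ Metric.sphere (0 : ℂ) 1, m ≤ ρ w := by
    obtain ⟨w, hw1, hw⟩ := (isCompact_sphere (0 : ℂ) 1).exists_isMinOn ⟨1, by simp⟩ h.cont
    exact ⟨ρ w, h.pos w hw1, fun y hy => hw hy⟩
  obtain ⟨L, δ, A, hδ, hA, H⟩ := exists_transition hc hc' hz₀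
  obtain ⟨ε₁, hε₁, hmain⟩ := circle_eq_starCurve hδ hA H hm
  refine ⟨ε₁, hε₁, fun ε hε hε2 => ?_⟩
  obtain ⟨ρ₁, hρ₁c, hρ₁, himg⟩ := hmain ε hε hε2
  have hlarge : ∀ w ∈ Metric.sphere (0 : ℂ) 1, ρ w < (1 + η) * ρ w := by
    intro w hw
    have := mul_pos hη (h.pos w hw)
    linarith
  have hRc : ContinuousOn (fun w => (1 + η) * ρ w) (Metric.sphere 0 1) :=
    continuousOn_const.mul h.cont
  obtain ⟨g, hg, hg1, -⟩ := exists_radial (ρ₀ := ρ) (ρ₁ := ρ₁) (k := fun _ => 0)
    (R := fun w => (1 + η) * ρ w) h.cont hρ₁c continuousOn_const hRc (fun _ _ => le_rfl) h.pos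
    (fun w hw => (hρ₁ w hw).1) hlarge
    (fun w hw => ((hρ₁ w hw).2.trans_le (hm2 w hw)).trans (hlarge w hw))
  have hcomp : IsCompact (starSet fun w => (1 + η) * ρ w) :=
    isCompact_starSet hRc fun w hw => ((h.pos w hw).trans (hlarge w hw)).le
  obtain ⟨G, hG, hG2⟩ := hg.exists_ext hc hcomp
  refine ⟨G, hG.mono hηV, ?_⟩
  rw [h.front, ← himg, ← hg1, image_image, image_image]
  exact image_congr fun z _ => hG2 1 z

end Pool.Agent.Rohlin
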