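import Pool.Agent.Rohlin.Iso.Ext
import Pool.Agent.Rohlin.Iso.Lin
import Pool.Agent.Rohlin.Iso.Shrink
import Pool.Agent.Rohlin.Iso.Push
import Pool.Agent.Rohlin.Iso.Radial
import Pool.Agent.Rohlin.Iso.Tilt

/-!
# The standard form of a star system; isotopy of two star systems (helper87)
-/

set_option autoImplicit false

namespace Pool.Agent.Rohlin

open Set Topology

/-! ### replacing the pieces of a union one after the other -/

theorem RIso.image_eq_self {V : Set RP2} {h : unitInterval → RP2 ≃ₜ RP2} (hh : RIso V h)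
    (t : unitInterval) {B : Set RP2} (hB : Disjoint B V) : h t '' B = B := by
  have h1 : ∀ p ∈ B, h t p = p := fun p hp => hh.2.2 t p fun hpV => disjoint_left.1 hB hp hpV
  ext p
  constructor
  · rintro ⟨x, hx, rfl⟩
    rw [h1 x hx]; exact hx
  · intro hp
    exact ⟨p, hp, h1 p hp⟩

theorem RIso.image_subset {V : Set RP2} {h : unitInterval → RP2 ≃ₜ RP2} (hh : RIso V h)
    (t : unitInterval) {B : Set RP2} (hB : B ⊆ V) : h t '' B ⊆ V := by
  rintro _ ⟨x, hx, rfl⟩
  by_contra h1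
  have h2 := hh.2.2 t _ h1
  have h3 := (h t).injective h2
  rw [h3] at h1
  exact h1 (hB hx)

theorem iso_replace {ι : Type*} [Fintype ι] (C C' V : ι → Set RP2)
    (hV : Pairwise fun i j => Disjoint (V i) (V j)) (hC : ∀ i, C i ⊆ V i)
    (H : ∀ i, ∃ h, RIso (V i) h ∧ h 1 '' C i = C' i) :
    Isotopic (⋃ i, C i) (⋃ i, C' i) := by
  classical
  have hC' : ∀ i, C' i ⊆ V i := by
    intro i
    obtain ⟨h, h1, h2⟩ := H i
    rw [← h2]
    exact h1.image_subset 1 (hC i)
  have key : ∀ S : Finset ι, Isotopic (⋃ i, C i) (⋃ i, if i ∈ S then C' i else C i) := by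
    intro S
    induction S using Finset.induction_on with
    | empty => simpa using Isotopic.refl (⋃ i, C i)
    | @insert a S ha ih =>
      obtain ⟨h, h1, h2⟩ := H a
      refine ih.trans ?_
      have h3 := h1.isotopic (⋃ i, if i ∈ S then C' i else C i)
      have e : h 1 '' (⋃ i, if i ∈ S then C' i else C i)
          = ⋃ i, if i ∈ insert a S then C' i else C i := by
        rw [image_iUnion]
        refine iUnion_congr fun i => ?_
        by_cases hia : i = a
        · subst hia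
          rw [if_neg ha, if_pos (Finset.mem_insert_self _ _), h2]
        · have h4 : (if i ∈ insert a S then C' i else C i) = if i ∈ S then C' i else C i := by
            simp [Finset.mem_insert, hia]
          rw [h4]
          refine h1.image_eq_self 1 ?_
          refine (hV hia).mono_left ?_
          split_ifs
          · exact hC' i
          · exact hC i
      rw [e] at h3
      exact h3
  have := key Finset.univ
  simpa using this

/-- pairwise disjoint compact sets have pairwise disjoint open neighbourhoods -/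
theorem exists_disjoint_opens {ι : Type*} [Fintype ι] {T : Type*} [TopologicalSpace T] [T2Space T]
    (K : ι → Set T) (hK : ∀ i, IsCompact (K i)) (hd : Pairwise fun i j => Disjoint (K i) (K j)) :
    ∃ V : ι → Set T, (∀ i, IsOpen (V i)) ∧ (∀ i, K i ⊆ V i) ∧
      Pairwise fun i j => Disjoint (V i) (V j) := by
  classical
  have h1 : ∀ i j, ∃ U W : Set T, IsOpen U ∧ IsOpen W ∧ (i ≠ j → K i ⊆ U ∧ K j ⊆ W ∧
      Disjoint U W) := by
    intro i j
    by_cases hij : i = j
    · exact ⟨univ, univ, isOpen_univ, isOpen_univ, fun h => absurd hij h⟩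
    · obtain ⟨U, W, hU, hW, h2, h3, h4⟩ :=
        SeparatedNhds.of_isCompact_isCompact (hK i) (hK j) (hd hij)
      exact ⟨U, W, hU, hW, fun _ => ⟨h2, h3, h4⟩⟩
  choose U W hU hW h using h1
  refine ⟨fun i => (⋂ j ∈ Finset.univ.erase i, U i j) ∩ ⋂ j ∈ Finset.univ.erase i, W j i,
    fun i => ?_, fun i => ?_, fun i j hij => ?_⟩
  · refine IsOpen.inter ?_ ?_
    · exact isOpen_biInter_finset fun j _ => hU i j
    · exact isOpen_biInter_finset fun j _ => hW j i
  · intro x hx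
    refine ⟨?_, ?_⟩
    · simp only [mem_iInter, Finset.mem_erase, Finset.mem_univ, and_true]
      intro j hj
      exact (h i j (Ne.symm hj)).1 hx
    · simp only [mem_iInter, Finset.mem_erase, Finset.mem_univ, and_true]
      intro j hj
      exact (h j i hj).2.1 hx
  · show Disjoint _ _
    rw [disjoint_left]
    rintro x ⟨hx, -⟩ ⟨-, hx'⟩
    simp only [mem_iInter, Finset.mem_erase, Finset.mem_univ, and_true] at hx hx'
    exact disjoint_left.1 (h i j hij).2.2 (hx j (Ne.symm hij)) (hx' i hij)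

/-! ### isotopies of the image of a chart -/

section chart

variable {c u v : Fin 3 → ℝ} (hc : LinearIndependent ℝ ![c, u, v])

theorem isotopic_of_plane {K : Set ℂ} (hK : IsCompact K) {h : unitInterval → ℂ ≃ₜ ℂ}
    (hh : PlaneIso K h) {A B : Set ℂ} (hAB : h 1 '' A = B) :
    Isotopic (Octic.chart hc '' A) (Octic.chart hc '' B) := by
  obtain ⟨g, hg, hgh⟩ := hh.exists_ext hc hK
  have h1 := hg.isotopic (Octic.chart hc '' A)
  have e : g 1 '' (Octic.chart hc '' A) = Octic.chart hc '' B := by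
    rw [← hAB, ← image_comp, ← image_comp]
    refine image_congr fun z _ => ?_
    exact hgh 1 z
  rw [e] at h1
  exact h1

theorem push_step {n : ℕ} {U : Set ℂ} (hU : IsOpen U) (hUc : IsConnected U)
    {p q : Fin n → ℂ} (hp : Function.Injective p) (hq : Function.Injective q)
    (hpU : ∀ i, p i ∈ U) (hqU : ∀ i, q i ∈ U) :
    ∃ ε₀ > 0, ∀ ε, 0 < ε → ε < ε₀ → ∀ B : Set ℂ, Disjoint B U →
      Isotopic (Octic.chart hc '' (B ∪ ⋃ i, Metric.sphere (p i) ε))
        (Octic.chart hc '' (B ∪ ⋃ i, Metric.sphere (q i) ε)) := by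
  obtain ⟨K, hKU, hK, h, hh, hev⟩ := exists_push hU hUc p q hpU hqU hp hq
  have h1 : ∀ i, ∃ r > 0, ∀ z ∈ Metric.ball (p i) r, h 1 z = z + (q i - p i) := by
    intro i
    obtain ⟨r, hr, h2⟩ := Metric.eventually_nhds_iff_ball.1 (hev i)
    exact ⟨r, hr, h2⟩
  choose r hr h2 using h1
  obtain ⟨ε₀, hε₀, h3⟩ : ∃ ε₀ > 0, ∀ i, ε₀ ≤ r i := by
    rcases isEmpty_or_nonempty (Fin n) with hn | hn
    · exact ⟨1, one_pos, fun i => isEmptyElim i⟩
    · obtain ⟨i, hi⟩ := Finite.exists_min r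
      exact ⟨r i, hr i, hi⟩
  refine ⟨ε₀, hε₀, fun ε hε hεε B hB => isotopic_of_plane hc hK hh ?_⟩
  rw [image_union, image_iUnion]
  congr 1
  · have h4 : ∀ z ∈ B, h 1 z = z := fun z hz => hh.2.2 1 z fun hzK =>
      disjoint_left.1 hB hz (hKU hzK)
    ext z
    constructor
    · rintro ⟨x, hx, rfl⟩
      rw [h4 x hx]; exact hx
    · intro hz
      exact ⟨z, hz, h4 z hz⟩
  · refine iUnion_congr fun i => ?_
    have h4 : ∀ z ∈ Metric.sphere (p i) ε, h 1 z = z + (q i - p i) := by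
      intro z hz
      refine h2 i z ?_
      rw [Metric.mem_ball]
      rw [Metric.mem_sphere] at hz
      linarith [h3 i]
    ext z
    constructor
    · rintro ⟨x, hx, rfl⟩
      rw [h4 x hx]
      rw [Metric.mem_sphere, dist_eq_norm] at hx ⊢
      rw [← hx]
      congr 1
      ring
    · intro hz
      refine ⟨z - (q i - p i), ?_, ?_⟩
      · rw [Metric.mem_sphere, dist_eq_norm] at hz ⊢
        rw [← hz]
        congr 1
        ring
      · rw [h4 _ ?_]
        · ring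
        · rw [Metric.mem_sphere, dist_eq_norm] at hz ⊢
          rw [← hz]
          congr 1
          ring

end chart

/-! ### the standard configuration -/

/-- a star shaped curve with small circles -/
def cfg (ρ : ℂ → ℝ) (p : Fin 4 → ℂ) (q : Fin 15 → ℂ) (ε : ℝ) : Set ℂ :=
  starCurve ρ ∪ ((⋃ i, Metric.sphere (p i) ε) ∪ ⋃ j, Metric.sphere (q j) ε)

theorem stdLI : LinearIndependent ℝ ![(![1, 0, 0] : Fin 3 → ℝ), ![0, 1, 0], ![0, 0, 1]] := by
  rw [Fintype.linearIndependent_iff]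
  intro g hg i
  rw [Fin.sum_univ_three] at hg
  have h0 := congrFun hg 0
  have h1 := congrFun hg 1
  have h2 := congrFun hg 2
  simp at h0 h1 h2
  fin_cases i
  · exact h0
  · exact h1
  · exact h2

/-- the inner standard points -/
def pin (δ : ℝ) (i : Fin 4) : ℂ := ((δ * ((i : ℕ) + 1) : ℝ) : ℂ)

/-- the outer standard points -/
def pout (K : ℝ) (j : Fin 15) : ℂ := ((K * ((j : ℕ) + 1) : ℝ) : ℂ)

/-- the standard configuration -/
noncomputable def stdSet (δ K ε : ℝ) : Set RP2 :=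
  Octic.chart stdLI '' cfg (fun _ => 1) (pin δ) (pout K) ε

theorem pin_injective {δ : ℝ} (hδ : 0 < δ) : Function.Injective (pin δ) := by
  intro i j hij
  simp only [pin, Complex.ofReal_inj] at hij
  have h1 := mul_left_cancel₀ hδ.ne' hij
  have h2 : ((i : ℕ) : ℝ) = ((j : ℕ) : ℝ) := by linarith
  exact Fin.ext (by exact_mod_cast h2)

theorem pout_injective {K : ℝ} (hK : 0 < K) : Function.Injective (pout K) := by
  intro i j hij
  simp only [pout, Complex.ofReal_inj] at hij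
  have h1 := mul_left_cancel₀ hK.ne' hij
  have h2 : ((i : ℕ) : ℝ) = ((j : ℕ) : ℝ) := by linarith
  exact Fin.ext (by exact_mod_cast h2)

theorem norm_pin {δ : ℝ} (hδ : 0 < δ) (i : Fin 4) : ‖pin δ i‖ ≤ 4 * δ := by
  have h1 : ((i : ℕ) : ℝ) ≤ 3 := by
    have := i.2
    exact_mod_cast (by omega : (i : ℕ) ≤ 3)
  rw [pin, Complex.norm_real, Real.norm_of_nonneg (by positivity)]
  nlinarith

theorem norm_pout {K : ℝ} (hK : 0 < K) (j : Fin 15) : K ≤ ‖pout K j‖ := by
  rw [pout, Complex.norm_real, Real.norm_of_nonneg (by positivity)]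
  have : (0 : ℝ) ≤ ((j : ℕ) : ℝ) := Nat.cast_nonneg _
  nlinarith

/-! ### change of the chart -/

theorem isotopic_chart {c u v : Fin 3 → ℝ} (hc : LinearIndependent ℝ ![c, u, v]) (A : Set ℂ) :
    Isotopic (Octic.chart hc '' A) (Octic.chart stdLI '' A) := by
  set M : Matrix (Fin 3) (Fin 3) ℝ := (Matrix.of ![c, u, v]).transpose with hMdef
  have hM : M.det ≠ 0 := by
    rw [hMdef, Matrix.det_transpose]
    have h1 : LinearIndependent ℝ (Matrix.of ![c, u, v]).row := hc
    rw [Matrix.linearIndependent_rows_iff_isUnit, Matrix.isUnit_iff_isUnit_det] at h1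
    exact h1.ne_zero
  have h1 := isotopic_lin M hM (Octic.chart stdLI '' A)
  have e : linR M hM '' (Octic.chart stdLI '' A) = Octic.chart hc '' A := by
    rw [← image_comp]
    refine image_congr fun z _ => ?_
    simp only [Function.comp, Octic.chart]
    rw [linR_mk]
    congr 1
    funext i
    simp only [hMdef, Matrix.mulVec, dotProduct, Fin.sum_univ_three, Matrix.transpose_apply,
      Matrix.of_apply]
    simp
    ring
  rw [e] at h1
  exact h1.symm

/-! ### from the pushed configuration to the standard one -/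

theorem starCurve_disjoint_inner (ρ : ℂ → ℝ) :
    Disjoint (starCurve ρ) {z : ℂ | z = 0 ∨ ‖z‖ < ρ (arc z)} := by
  rw [disjoint_left]
  rintro z ⟨h1, h2⟩ (h3 | h3)
  · exact h1 h3
  · exact h3.ne h2

theorem starCurve_disjoint_outer (ρ : ℂ → ℝ) :
    Disjoint (starCurve ρ) {z : ℂ | z ≠ 0 ∧ ρ (arc z) < ‖z‖} := by
  rw [disjoint_left]
  rintro z ⟨h1, h2⟩ ⟨h3, h4⟩
  exact h4.ne' h2

theorem inner_disjoint_outer (ρ : ℂ → ℝ) :
    Disjoint {z : ℂ | z = 0 ∨ ‖z‖ < ρ (arc z)} {z : ℂ | z ≠ 0 ∧ ρ (arc z) < ‖z‖} := by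
  rw [disjoint_left]
  rintro z (h1 | h1) ⟨h3, h4⟩
  · exact h3 h1
  · exact lt_asymm h1 h4

theorem exists_spheres_subset {n : ℕ} {U : Set ℂ} (hU : IsOpen U) {p : Fin n → ℂ}
    (hp : ∀ i, p i ∈ U) : ∃ ε₀ > 0, ∀ ε, 0 < ε → ε < ε₀ → (⋃ i, Metric.sphere (p i) ε) ⊆ U := by
  have h1 : ∀ i, ∃ r > 0, Metric.ball (p i) r ⊆ U := fun i => Metric.isOpen_iff.1 hU _ (hp i)
  choose r hr h2 using h1
  obtain ⟨ε₀, hε₀, h3⟩ : ∃ ε₀ > 0, ∀ i, ε₀ ≤ r i := by
    rcases isEmpty_or_nonempty (Fin n) with hn | hn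
    · exact ⟨1, one_pos, fun i => isEmptyElim i⟩
    · obtain ⟨i, hi⟩ := Finite.exists_min r
      exact ⟨r i, hr i, hi⟩
  refine ⟨ε₀, hε₀, fun ε hε hεε => iUnion_subset fun i => ?_⟩
  intro z hz
  refine h2 i ?_
  rw [Metric.mem_sphere] at hz
  rw [Metric.mem_ball]
  linarith [h3 i]

/-- pushing the small circles inside and outside -/
theorem push_both {c u v : Fin 3 → ℝ} (hc : LinearIndependent ℝ ![c, u, v]) {ρ : ℂ → ℝ}
    (hρ : ContinuousOn ρ (Metric.sphere 0 1)) (hρ0 : ∀ z ∈ Metric.sphere (0 : ℂ) 1, 0 < ρ z)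
    {p p' : Fin 4 → ℂ} {q q' : Fin 15 → ℂ}
    (hp : Function.Injective p) (hp' : Function.Injective p')
    (hq : Function.Injective q) (hq' : Function.Injective q')
    (hpU : ∀ i, p i ∈ {z : ℂ | z = 0 ∨ ‖z‖ < ρ (arc z)})
    (hpU' : ∀ i, p' i ∈ {z : ℂ | z = 0 ∨ ‖z‖ < ρ (arc z)})
    (hqU : ∀ i, q i ∈ {z : ℂ | z ≠ 0 ∧ ρ (arc z) < ‖z‖})
    (hqU' : ∀ i, q' i ∈ {z : ℂ | z ≠ 0 ∧ ρ (arc z) < ‖z‖}) :
    ∃ ε₀ > 0, ∀ ε, 0 < ε → ε < ε₀ →
      Isotopic (Octic.chart hc '' cfg ρ p q ε) (Octic.chart hc '' cfg ρ p' q' ε) := by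
  obtain ⟨e1, h1, H1⟩ := push_step hc (isOpen_inner hρ hρ0) (isConnected_inner hρ hρ0) hp hp'
    hpU hpU'
  obtain ⟨e2, h2, H2⟩ := push_step hc (isOpen_outer hρ hρ0) (isConnected_outer hρ hρ0) hq hq'
    hqU hqU'
  obtain ⟨e3, h3, H3⟩ := exists_spheres_subset (isOpen_outer hρ hρ0) hqU
  obtain ⟨e4, h4, H4⟩ := exists_spheres_subset (isOpen_inner hρ hρ0) hpU'
  refine ⟨min (min e1 e2) (min e3 e4), lt_min (lt_min h1 h2) (lt_min h3 h4), fun ε hε hεε => ?_⟩
  have g1 : ε < e1 := lt_of_lt_of_le hεε ((min_le_left _ _).trans (min_le_left _ _))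
  have g2 : ε < e2 := lt_of_lt_of_le hεε ((min_le_left _ _).trans (min_le_right _ _))
  have g3 : ε < e3 := lt_of_lt_of_le hεε ((min_le_right _ _).trans (min_le_left _ _))
  have g4 : ε < e4 := lt_of_lt_of_le hεε ((min_le_right _ _).trans (min_le_right _ _))
  have F1 := H1 ε hε g1 (starCurve ρ ∪ ⋃ j, Metric.sphere (q j) ε) (by
    rw [disjoint_union_left]
    refine ⟨starCurve_disjoint_inner ρ, ?_⟩
    exact ((inner_disjoint_outer ρ).mono_right (H3 ε hε g3)).symm)
  have F2 := H2 ε hε g2 (starCurve ρ ∪ ⋃ i, Metric.sphere (p' i) ε) (by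
    rw [disjoint_union_left]
    refine ⟨starCurve_disjoint_outer ρ, ?_⟩
    exact (inner_disjoint_outer ρ).mono_left (H4 ε hε g4))
  have a1 : cfg ρ p q ε = (starCurve ρ ∪ ⋃ j, Metric.sphere (q j) ε) ∪
      ⋃ i, Metric.sphere (p i) ε := by
    rw [cfg, union_assoc]
    congr 1
    exact union_comm _ _
  have a2 : (starCurve ρ ∪ ⋃ j, Metric.sphere (q j) ε) ∪ (⋃ i, Metric.sphere (p' i) ε)
      = (starCurve ρ ∪ ⋃ i, Metric.sphere (p' i) ε) ∪ ⋃ j, Metric.sphere (q j) ε := by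
    rw [union_assoc, union_assoc]
    congr 1
    exact union_comm _ _
  have a3 : cfg ρ p' q' ε = (starCurve ρ ∪ ⋃ i, Metric.sphere (p' i) ε) ∪
      ⋃ j, Metric.sphere (q' j) ε := by
    rw [cfg, union_assoc]
  rw [a1, a3]
  refine F1.trans ?_
  rw [a2]
  exact F2

/-- the standard form of a configuration in a chart -/
theorem cfg_std {c u v : Fin 3 → ℝ} (hc : LinearIndependent ℝ ![c, u, v]) {ρ : ℂ → ℝ}
    (hρ : ContinuousOn ρ (Metric.sphere 0 1)) (hρ0 : ∀ z ∈ Metric.sphere (0 : ℂ) 1, 0 < ρ z)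
    {p : Fin 4 → ℂ} {q : Fin 15 → ℂ} (hp : Function.Injective p) (hq : Function.Injective q)
    (hpU : ∀ i, p i ∈ {z : ℂ | z = 0 ∨ ‖z‖ < ρ (arc z)})
    (hqU : ∀ i, q i ∈ {z : ℂ | z ≠ 0 ∧ ρ (arc z) < ‖z‖}) :
    ∃ δ₀ > 0, ∃ K₀ > 0, ∀ δ, 0 < δ → δ < δ₀ → ∀ K, K₀ < K →
      ∃ ε₀ > 0, ∀ ε, 0 < ε → ε < ε₀ →
        Isotopic (Octic.chart hc '' cfg ρ p q ε) (stdSet δ K ε) := by
  have hsc : IsCompact (Metric.sphere (0 : ℂ) 1) := isCompact_sphere 0 1
  have hsn : (Metric.sphere (0 : ℂ) 1).Nonempty := ⟨1, by simp⟩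
  obtain ⟨a, ha, hmin⟩ := hsc.exists_isMinOn hsn hρ
  obtain ⟨b, hb, hmax⟩ := hsc.exists_isMaxOn hsn hρ
  have hmin' : ∀ z ∈ Metric.sphere (0 : ℂ) 1, ρ a ≤ ρ z := fun z hz => hmin hz
  have hmax' : ∀ z ∈ Metric.sphere (0 : ℂ) 1, ρ z ≤ ρ b := fun z hz => hmax hz
  have ha0 := hρ0 a ha
  set k : ℝ := min (ρ a) 1 / 2 with hk
  have hm0 : 0 < min (ρ a) 1 := lt_min ha0 one_pos
  have hk0 : 0 < k := by positivity
  have hka : k < ρ a := by
    have := min_le_left (ρ a) 1
    rw [hk]; linarith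
  have hk1 : k < 1 := by
    have := min_le_right (ρ a) 1
    rw [hk]; linarith
  set R : ℝ := max (ρ b) 1 + 1 with hR
  have hRb : ρ b < R := by
    have := le_max_left (ρ b) 1
    rw [hR]; linarith
  have hR1 : 1 < R := by
    have := le_max_right (ρ b) 1
    rw [hR]; linarith
  refine ⟨k / 8, by positivity, R + 1, by linarith, fun δ hδ hδk K hK => ?_⟩
  have hK0 : 0 < K := by linarith
  have hpin : ∀ i, pin δ i ∈ {z : ℂ | z = 0 ∨ ‖z‖ < ρ (arc z)} := by
    intro i
    by_cases h0 : pin δ i = 0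
    · exact Or.inl h0
    · right
      have h1 := norm_pin hδ i
      have h2 := hmin' _ (arc_mem_sphere h0)
      linarith
  have hpout : ∀ j, pout K j ∈ {z : ℂ | z ≠ 0 ∧ ρ (arc z) < ‖z‖} := by
    intro j
    have h1 := norm_pout hK0 j
    have h0 : pout K j ≠ 0 := by
      rw [← norm_pos_iff]; linarith
    refine ⟨h0, ?_⟩
    have h2 := hmax' _ (arc_mem_sphere h0)
    linarith
  obtain ⟨e1, h1, H1⟩ := push_both hc hρ hρ0 hp (pin_injective hδ) hq (pout_injective hK0)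
    hpU hpin hqU hpout
  obtain ⟨h, hh, hcurve, hfix⟩ := exists_radial (ρ₀ := ρ) (ρ₁ := fun _ => 1) (k := fun _ => k)
    (R := fun _ => R) hρ continuousOn_const continuousOn_const continuousOn_const
    (fun _ _ => hk0.le) (fun z hz => lt_of_lt_of_le hka (hmin' z hz)) (fun _ _ => hk1)
    (fun z hz => lt_of_le_of_lt (hmax' z hz) hRb) (fun _ _ => hR1)
  refine ⟨min e1 (k / 2), lt_min h1 (by positivity), fun ε hε hεε => ?_⟩
  have g1 : ε < e1 := lt_of_lt_of_le hεε (min_le_left _ _)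
  have g2 : ε < k / 2 := lt_of_lt_of_le hεε (min_le_right _ _)
  refine (H1 ε hε g1).trans ?_
  refine Isotopic.trans ?_ (isotopic_chart hc _)
  refine isotopic_of_plane hc (isCompact_starSet (ρ := fun _ => R) continuousOn_const
    (fun _ _ => by linarith)) hh ?_
  rw [cfg, cfg, image_union, hcurve]
  congr 1
  have hfix1 : ∀ z ∈ ((⋃ i, Metric.sphere (pin δ i) ε) ∪ ⋃ j, Metric.sphere (pout K j) ε),
      h 1 z = z := by
    rintro z (hz | hz)
    · rw [mem_iUnion] at hz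
      obtain ⟨i, hi⟩ := hz
      refine hfix 1 z (Or.inr ?_)
      show ‖z‖ ≤ k
      rw [mem_sphere_iff_norm] at hi
      have h2 := norm_pin hδ i
      have h3 : ‖z‖ ≤ ‖z - pin δ i‖ + ‖pin δ i‖ := by
        calc ‖z‖ = ‖(z - pin δ i) + pin δ i‖ := by rw [sub_add_cancel]
          _ ≤ _ := norm_add_le _ _
      linarith
    · rw [mem_iUnion] at hz
      obtain ⟨j, hj⟩ := hz
      refine hh.2.2 1 z ?_
      rw [mem_sphere_iff_norm] at hj
      have h2 := norm_pout hK0 j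
      have h3 : ‖pout K j‖ ≤ ‖z - pout K j‖ + ‖z‖ := by
        calc ‖pout K j‖ = ‖z - (z - pout K j)‖ := by rw [sub_sub_cancel]
          _ ≤ ‖z‖ + ‖z - pout K j‖ := norm_sub_le _ _
          _ = _ := add_comm _ _
      rintro (h0 | h0)
      · have h4 : ‖z‖ = 0 := by rw [h0, norm_zero]
        linarith
      · linarith
  ext z
  constructor
  · rintro ⟨x, hx, rfl⟩
    rw [hfix1 x hx]; exact hx
  · intro hz
    exact ⟨z, hz, hfix1 z hz⟩

/-! ### star systems -/

theorem StarOval.isCompact {c u v : Fin 3 → ℝ} {hc : LinearIndependent ℝ ![c, u, v]} {ρ : ℂ → ℝ}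
    {Δ : Set RP2} (h : StarOval c u v hc ρ Δ) : IsCompact Δ := by
  rw [h.disc]
  exact (isCompact_starSet h.cont fun z hz => (h.pos z hz).le).image (Octic.continuous_chart hc)

theorem StarOval.front_subset {c u v : Fin 3 → ℝ} {hc : LinearIndependent ℝ ![c, u, v]}
    {ρ : ℂ → ℝ} {Δ : Set RP2} (h : StarOval c u v hc ρ Δ) : frontier Δ ⊆ Δ :=
  h.isCompact.isClosed.frontier_subset

/-- indices of the inner discs -/
def idIn (i : Fin 4) : Fin 20 := ⟨i, by omega⟩

/-- indices of the outer discs -/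
def idOut (j : Fin 15) : Fin 20 := ⟨j + 5, by omega⟩

theorem idIn_ne (i : Fin 4) : idIn i ≠ 4 := by
  intro h
  have h1 : (idIn i).val = 4 := by rw [h]; rfl
  have := i.2
  simp only [idIn] at h1
  omega

theorem idOut_ne (j : Fin 15) : idOut j ≠ 4 := by
  intro h
  have h1 : (idOut j).val = 4 := by rw [h]; rfl
  simp only [idOut] at h1
  omega

theorem idx_cases (i : Fin 20) : i = 4 ∨ (∃ j, i = idIn j) ∨ ∃ j, i = idOut j := by
  rcases lt_trichotomy i.val 4 with h | h | h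
  · exact Or.inr (Or.inl ⟨⟨i.val, h⟩, rfl⟩)
  · exact Or.inl (Fin.ext h)
  · refine Or.inr (Or.inr ⟨⟨i.val - 5, by omega⟩, Fin.ext ?_⟩)
    simp only [idOut]
    omega

theorem StarSystem.disj_small {X : Set RP2} {c : Fin 20 → Fin 3 → ℝ} {Δ : Fin 20 → Set RP2}
    (h : StarSystem X c Δ) {i j : Fin 20} (hij : i ≠ j) (hi : i ≠ 4) (hj : j ≠ 4) :
    Disjoint (Δ i) (Δ j) :=
  h.disj i j hij (fun h1 => hj h1.2) (fun h1 => hi h1.2)

theorem StarSystem.exists_cfg {X : Set RP2} {c : Fin 20 → Fin 3 → ℝ} {Δ : Fin 20 → Set RP2}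
    (h : StarSystem X c Δ) : ∃ u v, ∃ hc : LinearIndependent ℝ ![c 4, u, v], ∃ ρ : ℂ → ℝ,
      ContinuousOn ρ (Metric.sphere 0 1) ∧ (∀ z ∈ Metric.sphere (0 : ℂ) 1, 0 < ρ z) ∧
      ∃ (p : Fin 4 → ℂ) (q : Fin 15 → ℂ), Function.Injective p ∧ Function.Injective q ∧
        (∀ i, p i ∈ {z : ℂ | z = 0 ∨ ‖z‖ < ρ (arc z)}) ∧
        (∀ i, q i ∈ {z : ℂ | z ≠ 0 ∧ ρ (arc z) < ‖z‖}) ∧
        ∃ ε₀ > 0, ∀ ε, 0 < ε → ε < ε₀ → Isotopic X (Octic.chart hc '' cfg ρ p q ε) := by
  choose u v hc ρ hs using h.star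
  obtain ⟨u', v', hc', ρ', hbig, hP⟩ := (hs 4).tilt
    (Set.finite_range fun i => Octic.chart (hc i) 0)
  have h1 : ∀ i, ∃ z, Octic.chart hc' z = Octic.chart (hc i) 0 := fun i => hP (mem_range_self i)
  choose z hz using h1
  -- the centres lie in the discs
  have hmem : ∀ i, Octic.chart hc' (z i) ∈ Δ i := by
    intro i
    rw [hz, (hs i).disc]
    exact ⟨0, Or.inl rfl, rfl⟩
  have hinj : ∀ i j : Fin 20, i ≠ j → i ≠ 4 → j ≠ 4 → z i ≠ z j := by
    intro i j hij hi hj heq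
    have h2 := hmem j
    rw [← heq] at h2
    exact disjoint_left.1 (h.disj_small hij hi hj) (hmem i) h2
  have hin : ∀ i : Fin 4, z (idIn i) ∈ {z : ℂ | z = 0 ∨ ‖z‖ < ρ' (arc z)} := by
    intro i
    have h2 : Octic.chart hc' (z (idIn i)) ∈ interior (Δ 4) := h.nest (idIn i) i.2 (hmem _)
    have h3 := interior_subset h2
    rw [hbig.disc] at h3
    obtain ⟨w, hw, hwz⟩ := h3
    have h4 := Octic.chart_injective hc' hwz
    rw [h4] at hw
    rcases hw with h5 | h5
    · exact Or.inl h5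
    · by_cases h0 : z (idIn i) = 0
      · exact Or.inl h0
      · right
        refine lt_of_le_of_ne h5 fun h6 => ?_
        have h7 : Octic.chart hc' (z (idIn i)) ∈ frontier (Δ 4) := by
          rw [hbig.front]
          exact ⟨_, ⟨h0, h6⟩, rfl⟩
        exact h7.2 h2
  have hout : ∀ j : Fin 15, z (idOut j) ∈ {z : ℂ | z ≠ 0 ∧ ρ' (arc z) < ‖z‖} := by
    intro j
    have h2 : Octic.chart hc' (z (idOut j)) ∉ Δ 4 := by
      intro h3
      have h4 := h.disj (idOut j) 4 (idOut_ne j)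
        (fun h5 => by
          have := h5.1
          simp only [idOut] at this
          omega) (fun h5 => by
          have := h5.1
          exact absurd this (by decide))
      exact disjoint_left.1 h4 (hmem _) h3
    rw [hbig.disc] at h2
    have h3 : z (idOut j) ∉ starSet ρ' := fun h4 => h2 ⟨_, h4, rfl⟩
    simp only [starSet, mem_ofPred_eq, not_or, not_le] at h3
    exact h3
  -- disjoint neighbourhoods
  have hfr : ∀ i : Fin 20, i ≠ 4 → Disjoint (Δ i) (frontier (Δ 4)) := by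
    intro i hi
    rcases idx_cases i with h2 | ⟨j, rfl⟩ | ⟨j, rfl⟩
    · exact absurd h2 hi
    · rw [disjoint_left]
      intro x hx hx'
      exact hx'.2 (h.nest (idIn j) j.2 hx)
    · refine Disjoint.mono_right (hs 4).front_subset ?_
      refine h.disj (idOut j) 4 (idOut_ne j) (fun h5 => ?_) (fun h5 => ?_)
      · have := h5.1
        simp only [idOut] at this
        omega
      · exact absurd h5.1 (by decide)
  set Kc : Fin 20 → Set RP2 := fun i => if i = 4 then frontier (Δ 4) else Δ i with hKc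
  obtain ⟨V, hVo, hKV, hVd⟩ := exists_disjoint_opens Kc
    (fun i => by
      simp only [hKc]
      split_ifs
      · exact (hs 4).isCompact.of_isClosed_subset isClosed_frontier (hs 4).front_subset
      · exact (hs i).isCompact)
    (fun i j hij => by
      show Disjoint _ _
      simp only [hKc]
      split_ifs with h2 h3 h3
      · exact absurd (h2.trans h3.symm) hij
      · exact (hfr j h3).symm
      · exact hfr i h2
      · exact h.disj_small hij h2 h3)
  have hKi : ∀ i, i ≠ 4 → Δ i ⊆ V i := by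
    intro i hi
    have := hKV i
    simp only [hKc, if_neg hi] at this
    exact this
  have hK4 : frontier (Δ 4) ⊆ V 4 := by
    have := hKV 4
    simpa only [hKc, if_pos] using this
  -- shrinking
  have hsh : ∀ i : Fin 20, ∃ ε₀ > 0, ∀ ε, 0 < ε → ε < ε₀ → i ≠ 4 → ∃ h, RIso (V i) h ∧
      h 1 '' frontier (Δ i) = Octic.chart hc' '' Metric.sphere (z i) ε := by
    intro i
    by_cases hi : i = 4
    · exact ⟨1, one_pos, fun ε _ _ h2 => absurd hi h2⟩
    · obtain ⟨ε₀, h2, h3⟩ := (hs i).shrink (hVo i) (hKi i hi) hc' (hz i)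
      exact ⟨ε₀, h2, fun ε h4 h5 _ => h3 ε h4 h5⟩
  choose e he H using hsh
  obtain ⟨i₀, hi₀⟩ := Finite.exists_min e
  refine ⟨u', v', hc', ρ', hbig.cont, hbig.pos, fun i => z (idIn i), fun j => z (idOut j),
    ?_, ?_, hin, hout, e i₀, he i₀, fun ε hε hεε => ?_⟩
  · intro i j hij
    by_contra hne
    refine hinj (idIn i) (idIn j) (fun h2 => hne ?_) (idIn_ne i) (idIn_ne j) hij
    have := congrArg Fin.val h2
    exact Fin.ext this
  · intro i j hij
    by_contra hne
    refine hinj (idOut i) (idOut j) (fun h2 => hne ?_) (idOut_ne i) (idOut_ne j) hij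
    have := congrArg Fin.val h2
    simp only [idOut] at this
    exact Fin.ext (by omega)
  have h2 := iso_replace (fun i => frontier (Δ i))
    (fun i => if i = 4 then frontier (Δ 4) else Octic.chart hc' '' Metric.sphere (z i) ε) V hVd
    (fun i => by
      by_cases hi : i = 4
      · subst hi; exact hK4
      · exact (hs i).front_subset.trans (hKi i hi))
    (fun i => by
      by_cases hi : i = 4
      · subst hi
        refine ⟨_, RIso.refl _, ?_⟩
        simp
      · simp only [if_neg hi]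
        exact H i ε hε (lt_of_lt_of_le hεε (hi₀ i)) hi)
  rw [← h.eq] at h2
  have h3 : (⋃ i : Fin 20, if i = 4 then frontier (Δ 4) else
      Octic.chart hc' '' Metric.sphere (z i) ε) =
      Octic.chart hc' '' cfg ρ' (fun i => z (idIn i)) (fun j => z (idOut j)) ε := by
    rw [cfg, image_union, image_union, image_iUnion, image_iUnion, ← hbig.front]
    ext x
    simp only [mem_iUnion, mem_union]
    constructor
    · rintro ⟨i, hi⟩
      rcases idx_cases i with h4 | ⟨j, rfl⟩ | ⟨j, rfl⟩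
      · rw [if_pos h4] at hi
        exact Or.inl hi
      · rw [if_neg (idIn_ne j)] at hi
        exact Or.inr (Or.inl ⟨j, hi⟩)
      · rw [if_neg (idOut_ne j)] at hi
        exact Or.inr (Or.inr ⟨j, hi⟩)
    · rintro (hi | ⟨j, hi⟩ | ⟨j, hi⟩)
      · exact ⟨4, by rw [if_pos rfl]; exact hi⟩
      · exact ⟨idIn j, by rw [if_neg (idIn_ne j)]; exact hi⟩
      · exact ⟨idOut j, by rw [if_neg (idOut_ne j)]; exact hi⟩
  rw [h3] at h2
  exact h2

/-- every star system is isotopic to a standard configuration -/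
theorem StarSystem.exists_std {X : Set RP2} {c : Fin 20 → Fin 3 → ℝ} {Δ : Fin 20 → Set RP2}
    (h : StarSystem X c Δ) : ∃ δ₀ > 0, ∃ K₀ > 0, ∀ δ, 0 < δ → δ < δ₀ → ∀ K, K₀ < K →
      ∃ ε₀ > 0, ∀ ε, 0 < ε → ε < ε₀ → Isotopic X (stdSet δ K ε) := by
  obtain ⟨u, v, hc, ρ, hρ, hρ0, p, q, hp, hq, hpU, hqU, e, he, H⟩ := h.exists_cfg
  obtain ⟨δ₀, hδ₀, K₀, hK₀, H'⟩ := cfg_std hc hρ hρ0 hp hq hpU hqU
  refine ⟨δ₀, hδ₀, K₀, hK₀, fun δ hδ hδδ K hK => ?_⟩
  obtain ⟨ε₀, hε₀, H''⟩ := H' δ hδ hδδ K hK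
  refine ⟨min e ε₀, lt_min he hε₀, fun ε hε hεε => ?_⟩
  exact (H ε hε (lt_of_lt_of_le hεε (min_le_left _ _))).trans
    (H'' ε hε (lt_of_lt_of_le hεε (min_le_right _ _)))

/-- ISO: two star systems are isotopic in the real projective plane -/
theorem isotopic_of_star {X X' : Set RP2} {c c' : Fin 20 → Fin 3 → ℝ} {Δ Δ' : Fin 20 → Set RP2}
    (h : StarSystem X c Δ) (h' : StarSystem X' c' Δ') : Isotopic X X' := by
  obtain ⟨δ₀, hδ₀, K₀, hK₀, H⟩ := h.exists_std
  obtain ⟨δ₁, hδ₁, K₁, hK₁, H'⟩ := h'.exists_std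
  have hδ : 0 < min δ₀ δ₁ := lt_min hδ₀ hδ₁
  obtain ⟨ε₀, hε₀, G⟩ := H (min δ₀ δ₁ / 2) (by positivity)
    (by have := min_le_left δ₀ δ₁; linarith) (max K₀ K₁ + 1)
    (by have := le_max_left K₀ K₁; linarith)
  obtain ⟨ε₁, hε₁, G'⟩ := H' (min δ₀ δ₁ / 2) (by positivity)
    (by have := min_le_right δ₀ δ₁; linarith) (max K₀ K₁ + 1)
    (by have := le_max_right K₀ K₁; linarith)
  have hε : 0 < min ε₀ ε₁ := lt_min hε₀ hε₁
  have g := G (min ε₀ ε₁ / 2) (by positivity) (by have := min_le_left ε₀ ε₁; linarith)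
  have g' := G' (min ε₀ ε₁ / 2) (by positivity) (by have := min_le_right ε₀ ε₁; linarith)
  exact g.trans g'.symm

end Pool.Agent.Rohlin
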