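import Pool.Agent.Rohlin.Iso.Combine
import Pool.Agent.Rohlin.Iso.Standard
import Pool.Agent.Rohlin.Main

/-!
# The counterexample from the two octics
-/

set_option autoImplicit false

namespace Pool.Agent.Rohlin

/-- the counterexample from two octics with star shaped discs -/
theorem counter_of_octics {A A' : RealCurve 8} (h : ∃ c Δ, StarDiscs A.real S15 c Δ)
    (h' : ∃ c Δ, StarDiscs A'.real S13 c Δ) :
    (∃ A A' : RealCurve 8, HasScheme 8 A.real S15 ∧ HasScheme 8 A'.real S13 ∧
      (∀ B : RealCurve 8, Isotopic A.real B.real → B.Dividing) ∧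
      ProperSubscheme A.real A'.real) ∧ ¬ RohlinConjecture := by
  obtain ⟨c, Δ, h⟩ := h
  obtain ⟨c', Δ', h'⟩ := h'
  exact combine isTypeOne_S15 isotopic_of_star h h'

end Pool.Agent.Rohlin
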