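import Pool.Agent.Rohlin.Iso.Base
import Pool.Agent.Rohlin.RP2Top

/-!
# Isotopies of the real projective plane with support; extension of plane isotopies (helper49)
-/

set_option autoImplicit false

namespace Pool.Agent.Rohlin

open Set Topology

/-- an isotopy of the real projective plane which is the identity outside of `V` -/
def RIso (V : Set RP2) (h : unitInterval → RP2 ≃ₜ RP2) : Prop :=
  Continuous (fun p : unitInterval × RP2 => h p.1 p.2) ∧ h 0 = Homeomorph.refl RP2 ∧
    ∀ t, ∀ p ∉ V, h t p = p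

theorem RIso.isotopic {V : Set RP2} {h : unitInterval → RP2 ≃ₜ RP2} (hh : RIso V h)
    (X : Set RP2) : Isotopic X (h 1 '' X) := ⟨h, hh.1, hh.2.1, rfl⟩

theorem RIso.mono {V W : Set RP2} {h : unitInterval → RP2 ≃ₜ RP2} (hh : RIso V h)
    (hVW : V ⊆ W) : RIso W h := ⟨hh.1, hh.2.1, fun t p hp => hh.2.2 t p fun hpV => hp (hVW hpV)⟩

theorem RIso.refl (V : Set RP2) : RIso V (fun _ => Homeomorph.refl RP2) :=
  ⟨continuous_snd, rfl, fun _ _ _ => rfl⟩

theorem RIso.trans {V W : Set RP2} {h g : unitInterval → RP2 ≃ₜ RP2} (hh : RIso V h)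
    (hg : RIso W g) : RIso (V ∪ W) (fun t => (h t).trans (g t)) := by
  refine ⟨hg.1.comp (continuous_fst.prodMk hh.1), ?_, ?_⟩
  · show (h 0).trans (g 0) = _
    rw [hh.2.1, hg.2.1]; rfl
  · intro t p hp
    rw [mem_union, not_or] at hp
    show g t (h t p) = p
    rw [hh.2.2 t p hp.1, hg.2.2 t p hp.2]

/-- joint continuity of the inverse isotopy -/
theorem continuous_symm_of_continuous {h : unitInterval → RP2 ≃ₜ RP2}
    (hh : Continuous (fun p : unitInterval × RP2 => h p.1 p.2)) :
    Continuous (fun p : unitInterval × RP2 => (h p.1).symm p.2) := by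
  let E : unitInterval × RP2 ≃ unitInterval × RP2 :=
    { toFun := fun p => (p.1, h p.1 p.2)
      invFun := fun p => (p.1, (h p.1).symm p.2)
      left_inv := fun p => by simp
      right_inv := fun p => by simp }
  have hE : Continuous E := continuous_fst.prodMk hh
  have h2 : Continuous E.symm := (hE.homeoOfEquivCompactToT2).continuous_symm
  exact continuous_snd.comp h2

theorem RIso.symm {V : Set RP2} {h : unitInterval → RP2 ≃ₜ RP2} (hh : RIso V h) :
    RIso V (fun t => (h t).symm) := by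
  refine ⟨continuous_symm_of_continuous hh.1, ?_, ?_⟩
  · show (h 0).symm = _
    rw [hh.2.1]; rfl
  · intro t p hp
    show (h t).symm p = p
    rw [Homeomorph.symm_apply_eq, hh.2.2 t p hp]

theorem Isotopic.refl (X : Set RP2) : Isotopic X X :=
  ⟨fun _ => Homeomorph.refl RP2, continuous_snd, rfl, by simp⟩

theorem Isotopic.symm {X Y : Set RP2} (h : Isotopic X Y) : Isotopic Y X := by
  obtain ⟨h, h1, h2, h3⟩ := h
  refine ⟨fun t => (h t).symm, continuous_symm_of_continuous h1, ?_, ?_⟩
  · show (h 0).symm = _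
    rw [h2]; rfl
  · rw [← h3]
    show (h 1).symm '' (h 1 '' X) = X
    rw [Homeomorph.image_symm, Homeomorph.preimage_image]

theorem Isotopic.trans {X Y Z : Set RP2} (h : Isotopic X Y) (g : Isotopic Y Z) :
    Isotopic X Z := by
  obtain ⟨h, h1, h2, h3⟩ := h
  obtain ⟨g, g1, g2, g3⟩ := g
  refine ⟨fun t => (h t).trans (g t), g1.comp (continuous_fst.prodMk h1), ?_, ?_⟩
  · show (h 0).trans (g 0) = _
    rw [h2, g2]; rfl
  · rw [← g3, ← h3, ← image_comp]; rfl

/-- an ambient isotopy class is a homeomorphism class: the time one map -/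
theorem Isotopic.exists_homeomorph {X Y : Set RP2} (h : Isotopic X Y) :
    ∃ e : RP2 ≃ₜ RP2, e '' X = Y := by
  obtain ⟨h, -, -, h3⟩ := h
  exact ⟨h 1, h3⟩

/-! ### plane isotopies -/

theorem PlaneIso.mono {K L : Set ℂ} {h : unitInterval → ℂ ≃ₜ ℂ} (hh : PlaneIso K h)
    (hKL : K ⊆ L) : PlaneIso L h := ⟨hh.1, hh.2.1, fun t z hz => hh.2.2 t z fun hzK => hz (hKL hzK)⟩

theorem PlaneIso.refl (K : Set ℂ) : PlaneIso K (fun _ => Homeomorph.refl ℂ) :=
  ⟨continuous_snd, rfl, fun _ _ _ => rfl⟩

theorem PlaneIso.trans {K L : Set ℂ} {h g : unitInterval → ℂ ≃ₜ ℂ} (hh : PlaneIso K h)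
    (hg : PlaneIso L g) : PlaneIso (K ∪ L) (fun t => (h t).trans (g t)) := by
  refine ⟨hg.1.comp (continuous_fst.prodMk hh.1), ?_, ?_⟩
  · show (h 0).trans (g 0) = _
    rw [hh.2.1, hg.2.1]; rfl
  · intro t p hp
    rw [mem_union, not_or] at hp
    show g t (h t p) = p
    rw [hh.2.2 t p hp.1, hg.2.2 t p hp.2]

theorem PlaneIso.mem_iff {K : Set ℂ} {h : unitInterval → ℂ ≃ₜ ℂ} (hh : PlaneIso K h)
    (t : unitInterval) (z : ℂ) : h t z ∈ K ↔ z ∈ K := by
  constructor
  · intro h1
    by_contra hz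
    rw [hh.2.2 t z hz] at h1
    exact hz h1
  · intro hz
    by_contra h1
    have h2 := hh.2.2 t _ h1
    have h3 := (h t).injective h2
    rw [h3] at h1
    exact h1 hz

section ext

variable {c u v : Fin 3 → ℝ} (hc : LinearIndependent ℝ ![c, u, v])

open Classical in
/-- extension of a map of the plane by the identity -/
noncomputable def extMap (f : ℂ → ℂ) (p : RP2) : RP2 :=
  if h : ∃ z, Octic.chart hc z = p then Octic.chart hc (f h.choose) else p

theorem extMap_chart (f : ℂ → ℂ) (z : ℂ) :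
    extMap hc f (Octic.chart hc z) = Octic.chart hc (f z) := by
  have h : ∃ w, Octic.chart hc w = Octic.chart hc z := ⟨z, rfl⟩
  unfold extMap
  rw [dif_pos h]
  have := Octic.chart_injective hc h.choose_spec
  rw [this]

theorem extMap_of_notMem (f : ℂ → ℂ) {p : RP2} (hp : p ∉ range (Octic.chart hc)) :
    extMap hc f p = p := by
  unfold extMap
  rw [dif_neg]
  rintro ⟨z, hz⟩
  exact hp ⟨z, hz⟩

theorem extMap_extMap (f g : ℂ → ℂ) (hfg : ∀ z, g (f z) = z) (p : RP2) :
    extMap hc g (extMap hc f p) = p := by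
  by_cases hp : p ∈ range (Octic.chart hc)
  · obtain ⟨z, rfl⟩ := hp
    rw [extMap_chart, extMap_chart, hfg]
  · rw [extMap_of_notMem hc f hp, extMap_of_notMem hc g hp]

theorem continuous_extMap {K : Set ℂ} (hK : IsCompact K) {T : Type*} [TopologicalSpace T]
    {f : T → ℂ → ℂ} (hf : Continuous fun p : T × ℂ => f p.1 p.2)
    (hfK : ∀ t, ∀ z ∉ K, f t z = z) :
    Continuous fun p : T × RP2 => extMap hc (f p.1) p.2 := by
  have hKc : IsClosed (Octic.chart hc '' K) :=
    (hK.image (Octic.continuous_chart hc)).isClosed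
  rw [continuous_iff_continuousAt]
  rintro ⟨t, p⟩
  by_cases hp : p ∈ range (Octic.chart hc)
  · obtain ⟨z, rfl⟩ := hp
    have he : IsOpenEmbedding (fun q : T × ℂ => ((q.1, Octic.chart hc q.2) : T × RP2)) :=
      IsOpenEmbedding.id.prodMap (Octic.isOpenEmbedding_chart hc)
    have h1 : ContinuousAt ((fun p : T × RP2 => extMap hc (f p.1) p.2) ∘
        (fun q : T × ℂ => ((q.1, Octic.chart hc q.2) : T × RP2))) (t, z) := by
      have e : ((fun p : T × RP2 => extMap hc (f p.1) p.2) ∘
          (fun q : T × ℂ => ((q.1, Octic.chart hc q.2) : T × RP2)))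
          = fun q : T × ℂ => Octic.chart hc (f q.1 q.2) := by
        funext q
        exact extMap_chart hc (f q.1) q.2
      rw [e]
      exact ((Octic.continuous_chart hc).comp hf).continuousAt
    exact he.continuousAt_iff.1 h1
  · have hpK : p ∈ (Octic.chart hc '' K)ᶜ := fun h => hp (image_subset_range _ _ h)
    have hev : ∀ᶠ q : T × RP2 in 𝓝 (t, p), q.2 = extMap hc (f q.1) q.2 := by
      have h1 : {q : T × RP2 | q.2 ∈ (Octic.chart hc '' K)ᶜ} ∈ 𝓝 (t, p) :=
        (hKc.isOpen_compl.preimage continuous_snd).mem_nhds hpK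
      filter_upwards [h1] with q hq
      by_cases hr : q.2 ∈ range (Octic.chart hc)
      · obtain ⟨z, hz⟩ := hr
        rw [← hz, extMap_chart]
        congr 1
        refine (hfK _ z fun hzK => hq ?_).symm
        exact ⟨z, hzK, hz⟩
      · exact (extMap_of_notMem hc _ hr).symm
    exact continuousAt_snd.congr hev

/-- the extension of a homeomorphism of the plane with compact support -/
noncomputable def extHomeo {K : Set ℂ} (hK : IsCompact K) (e : ℂ ≃ₜ ℂ)
    (he : ∀ z ∉ K, e z = z) : RP2 ≃ₜ RP2 :=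
  let E : RP2 ≃ RP2 :=
    { toFun := extMap hc e
      invFun := extMap hc e.symm
      left_inv := extMap_extMap hc e e.symm fun z => e.symm_apply_apply z
      right_inv := extMap_extMap hc e.symm e fun z => e.apply_symm_apply z }
  have hE : Continuous E := by
    have h1 := continuous_extMap hc hK (T := Unit) (f := fun _ => e)
      (e.continuous.comp continuous_snd) fun _ => he
    exact h1.comp (Continuous.prodMk_right ())
  hE.homeoOfEquivCompactToT2

theorem extHomeo_apply {K : Set ℂ} (hK : IsCompact K) (e : ℂ ≃ₜ ℂ) (he : ∀ z ∉ K, e z = z)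
    (p : RP2) : extHomeo hc hK e he p = extMap hc e p := rfl

/-- EXTENSION of a compactly supported isotopy of the chart to the real projective plane. -/
theorem PlaneIso.exists_ext {K : Set ℂ} (hK : IsCompact K) {h : unitInterval → ℂ ≃ₜ ℂ}
    (hh : PlaneIso K h) :
    ∃ g : unitInterval → RP2 ≃ₜ RP2, RIso (Octic.chart hc '' K) g ∧
      ∀ t z, g t (Octic.chart hc z) = Octic.chart hc (h t z) := by
  refine ⟨fun t => extHomeo hc hK (h t) (hh.2.2 t), ⟨?_, ?_, ?_⟩, ?_⟩
  · exact continuous_extMap hc hK hh.1 hh.2.2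
  · ext p
    rw [extHomeo_apply]
    by_cases hp : p ∈ range (Octic.chart hc)
    · obtain ⟨z, rfl⟩ := hp
      rw [extMap_chart, hh.2.1]; rfl
    · rw [extMap_of_notMem hc _ hp]; rfl
  · intro t p hp
    rw [extHomeo_apply]
    by_cases hr : p ∈ range (Octic.chart hc)
    · obtain ⟨z, rfl⟩ := hr
      rw [extMap_chart]
      congr 1
      exact hh.2.2 t z fun hz => hp ⟨z, hz, rfl⟩
    · exact extMap_of_notMem hc _ hr
  · intro t z
    rw [extHomeo_apply, extMap_chart]

end ext

end Pool.Agent.Rohlin
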