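import Pool.Agent.Rohlin.Iso.Export
import Pool.Agent.Rohlin.Main

/-!
# The disproof from the two octics and the isotopy theorem
-/

set_option autoImplicit false

namespace Pool.Agent.Rohlin

open Set

/-- **the disproof** from two octics with star shaped discs and the isotopy theorem -/
theorem not_rohlinConjecture_of_octics
    (hstar : ∀ {X X' : Set RP2} {c c' : Fin 20 → Fin 3 → ℝ} {D D' : Fin 20 → Set RP2},
      StarSystem X c D → StarSystem X' c' D' → Isotopic X X')
    {A A' : RealCurve 8} (h : ∃ c Δ, StarDiscs A.real S15 c Δ)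
    (h' : ∃ c Δ, StarDiscs A'.real S13 c Δ) : ¬ RohlinConjecture := by
  obtain ⟨c, Δ, h⟩ := h
  obtain ⟨c', Δ', h'⟩ := h'
  exact not_rohlinConjecture_of_star isTypeOne_S15 hstar h.starSystem h'.toHasDiscs (7 : Fin 21)
    h'.starSystem_forget

end Pool.Agent.Rohlin
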