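import Pool.Agent.Rohlin.Iso.Base

/-!
# Radial isotopies between star shaped curves
-/

set_option autoImplicit false

namespace Pool.Agent.Rohlin

open Set Topology

namespace RadialX

/-! ### one variable -/

/-- the tent function with the nodes `k < a < R` -/
noncomputable def tent (r k a R : ℝ) : ℝ := max 0 (min ((r - k) / (a - k)) ((R - r) / (R - a)))

theorem tent_nonneg (r k a R : ℝ) : 0 ≤ tent r k a R := le_max_left _ _

theorem tent_of_le {r k a R : ℝ} (hka : k < a) (hr : r ≤ k) : tent r k a R = 0 :=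
  max_eq_left ((min_le_left _ _).trans (div_nonpos_of_nonpos_of_nonneg (sub_nonpos.2 hr)
    (sub_pos.2 hka).le))

theorem tent_of_ge {r k a R : ℝ} (haR : a < R) (hr : R ≤ r) : tent r k a R = 0 :=
  max_eq_left ((min_le_right _ _).trans (div_nonpos_of_nonpos_of_nonneg (sub_nonpos.2 hr)
    (sub_pos.2 haR).le))

theorem tent_left {r k a R : ℝ} (hka : k < a) (haR : a < R) (h1 : k ≤ r) (h2 : r ≤ a) :
    tent r k a R = (r - k) / (a - k) := by
  have e1 : 0 ≤ (r - k) / (a - k) := div_nonneg (sub_nonneg.2 h1) (sub_pos.2 hka).le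
  have e2 : (r - k) / (a - k) ≤ (R - r) / (R - a) :=
    ((div_le_one (sub_pos.2 hka)).2 (by linarith)).trans
      ((one_le_div (sub_pos.2 haR)).2 (by linarith))
  unfold tent
  rw [min_eq_left e2, max_eq_right e1]

theorem tent_right {r k a R : ℝ} (hka : k < a) (haR : a < R) (h1 : a ≤ r) (h2 : r ≤ R) :
    tent r k a R = (R - r) / (R - a) := by
  have e1 : 0 ≤ (R - r) / (R - a) := div_nonneg (sub_nonneg.2 h2) (sub_pos.2 haR).le
  have e2 : (R - r) / (R - a) ≤ (r - k) / (a - k) :=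
    ((div_le_one (sub_pos.2 haR)).2 (by linarith)).trans
      ((one_le_div (sub_pos.2 hka)).2 (by linarith))
  unfold tent
  rw [min_eq_right e2, max_eq_right e1]

theorem tent_le {r k a R : ℝ} (hk : 0 ≤ k) (hka : k < a) (hr : 0 ≤ r) :
    tent r k a R ≤ r / (a - k) :=
  max_le (div_nonneg hr (sub_pos.2 hka).le) ((min_le_left _ _).trans
    ((div_le_div_iff_of_pos_right (sub_pos.2 hka)).2 (by linarith)))

/-- the piecewise linear map which takes `a` to `b` and fixes `k`, `R` -/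
noncomputable def mv (r k a b R : ℝ) : ℝ := r + (b - a) * tent r k a R

theorem mv_of_le {r k a b R : ℝ} (hka : k < a) (hr : r ≤ k) : mv r k a b R = r := by
  rw [mv, tent_of_le hka hr, mul_zero, add_zero]

theorem mv_of_ge {r k a b R : ℝ} (haR : a < R) (hr : R ≤ r) : mv r k a b R = r := by
  rw [mv, tent_of_ge haR hr, mul_zero, add_zero]

theorem mv_left {r k a b R : ℝ} (hka : k < a) (haR : a < R) (h1 : k ≤ r) (h2 : r ≤ a) :
    mv r k a b R = k + (r - k) * ((b - k) / (a - k)) := by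
  have := sub_pos.2 hka
  rw [mv, tent_left hka haR h1 h2]
  field_simp
  ring

theorem mv_right {r k a b R : ℝ} (hka : k < a) (haR : a < R) (h1 : a ≤ r) (h2 : r ≤ R) :
    mv r k a b R = R - (R - r) * ((R - b) / (R - a)) := by
  have := sub_pos.2 haR
  rw [mv, tent_right hka haR h1 h2]
  field_simp
  ring

theorem mv_mv {r k a b R : ℝ} (hka : k < a) (haR : a < R) (hkb : k < b) (hbR : b < R) :
    mv (mv r k a b R) k b a R = r := by
  have ha := sub_pos.2 hka
  have ha' := sub_pos.2 haR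
  have hb := sub_pos.2 hkb
  have hb' := sub_pos.2 hbR
  rcases le_total r k with h | h
  · rw [mv_of_le hka h, mv_of_le hkb h]
  rcases le_total R r with h' | h'
  · rw [mv_of_ge haR h', mv_of_ge hbR h']
  rcases le_total r a with h'' | h''
  · rw [mv_left hka haR h h'']
    have e1 : (r - k) * ((b - k) / (a - k)) ≤ b - k := by
      have : (r - k) * ((b - k) / (a - k)) = (b - k) * ((r - k) / (a - k)) := by ring
      rw [this]
      exact mul_le_of_le_one_right hb.le ((div_le_one ha).2 (by linarith))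
    have e2 : 0 ≤ (r - k) * ((b - k) / (a - k)) :=
      mul_nonneg (sub_nonneg.2 h) (div_nonneg hb.le ha.le)
    rw [mv_left hkb hbR (by linarith) (by linarith)]
    field_simp
    ring
  · rw [mv_right hka haR h'' h']
    have e1 : (R - r) * ((R - b) / (R - a)) ≤ R - b := by
      have : (R - r) * ((R - b) / (R - a)) = (R - b) * ((R - r) / (R - a)) := by ring
      rw [this]
      exact mul_le_of_le_one_right hb'.le ((div_le_one ha').2 (by linarith))
    have e2 : 0 ≤ (R - r) * ((R - b) / (R - a)) :=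
      mul_nonneg (sub_nonneg.2 h') (div_nonneg hb'.le ha'.le)
    rw [mv_right hkb hbR (by linarith) (by linarith)]
    field_simp
    ring

theorem mv_self {k a b R : ℝ} (hka : k < a) (haR : a < R) : mv a k a b R = b := by
  have := sub_pos.2 hka
  rw [mv_left hka haR hka.le le_rfl]
  field_simp
  ring

theorem mv_pos {r k a b R : ℝ} (hk : 0 ≤ k) (hka : k < a) (haR : a < R) (hkb : k < b)
    (hbR : b < R) (hr : 0 < r) : 0 < mv r k a b R := by
  have ha := sub_pos.2 hka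
  have ha' := sub_pos.2 haR
  have hb := sub_pos.2 hkb
  have hb' := sub_pos.2 hbR
  rcases le_or_gt r k with h | h
  · rwa [mv_of_le hka h]
  rcases le_total R r with h' | h'
  · rwa [mv_of_ge haR h']
  rcases le_total r a with h'' | h''
  · rw [mv_left hka haR h.le h'']
    have : 0 < (r - k) * ((b - k) / (a - k)) := mul_pos (sub_pos.2 h) (div_pos hb ha)
    linarith
  · rw [mv_right hka haR h'' h']
    have e1 : (R - r) * ((R - b) / (R - a)) ≤ R - b := by
      have : (R - r) * ((R - b) / (R - a)) = (R - b) * ((R - r) / (R - a)) := by ring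
      rw [this]
      exact mul_le_of_le_one_right hb'.le ((div_le_one ha').2 (by linarith))
    linarith

/-! ### the plane -/

theorem arc_zero : arc 0 = 0 := by simp [arc]

theorem norm_arc {z : ℂ} (hz : z ≠ 0) : ‖arc z‖ = 1 := by
  unfold arc
  rw [norm_mul, norm_inv, Complex.norm_real, norm_norm, inv_mul_cancel₀ (norm_ne_zero_iff.2 hz)]

theorem arc_mem {z : ℂ} (hz : z ≠ 0) : arc z ∈ Metric.sphere (0 : ℂ) 1 :=
  mem_sphere_zero_iff_norm.2 (norm_arc hz)

theorem norm_mul_arc (z : ℂ) : (‖z‖ : ℂ) * arc z = z := by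
  by_cases hz : z = 0
  · rw [hz, arc_zero, mul_zero]
  · unfold arc
    rw [← mul_assoc, mul_inv_cancel₀ (Complex.ofReal_ne_zero.2 (norm_ne_zero_iff.2 hz)), one_mul]

theorem norm_real_mul_arc {z : ℂ} (hz : z ≠ 0) {r : ℝ} (hr : 0 < r) : ‖(r : ℂ) * arc z‖ = r := by
  rw [norm_mul, norm_arc hz, mul_one, Complex.norm_real, Real.norm_of_nonneg hr.le]

theorem arc_real_mul_arc {z : ℂ} (hz : z ≠ 0) {r : ℝ} (hr : 0 < r) :
    arc ((r : ℂ) * arc z) = arc z := by
  have h := norm_real_mul_arc hz hr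
  conv_lhs => rw [arc, h]
  rw [← mul_assoc, inv_mul_cancel₀ (Complex.ofReal_ne_zero.2 hr.ne'), one_mul]

theorem continuousAt_arc {z : ℂ} (hz : z ≠ 0) : ContinuousAt arc z := by
  have h1 : ContinuousAt (fun z : ℂ => (‖z‖ : ℂ)) z :=
    (Complex.continuous_ofReal.comp continuous_norm).continuousAt
  exact (h1.inv₀ (Complex.ofReal_ne_zero.2 (norm_ne_zero_iff.2 hz))).mul continuousAt_id

/-- the radial map which takes the curve `a` to the curve `b` -/
noncomputable def rad (k a b R : ℂ → ℝ) (z : ℂ) : ℂ :=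
  ((mv ‖z‖ (k (arc z)) (a (arc z)) (b (arc z)) (R (arc z)) : ℝ) : ℂ) * arc z

theorem rad_zero (k a b R : ℂ → ℝ) : rad k a b R 0 = 0 := by
  rw [rad, arc_zero, mul_zero]

theorem rad_rad {k a b R : ℂ → ℝ} (hk0 : ∀ z ∈ Metric.sphere (0 : ℂ) 1, 0 ≤ k z)
    (hka : ∀ z ∈ Metric.sphere (0 : ℂ) 1, k z < a z)
    (haR : ∀ z ∈ Metric.sphere (0 : ℂ) 1, a z < R z)
    (hkb : ∀ z ∈ Metric.sphere (0 : ℂ) 1, k z < b z)
    (hbR : ∀ z ∈ Metric.sphere (0 : ℂ) 1, b z < R z) (z : ℂ) :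
    rad k b a R (rad k a b R z) = z := by
  by_cases hz : z = 0
  · rw [hz, rad_zero, rad_zero]
  · have hm := arc_mem hz
    have hpos := mv_pos (hk0 _ hm) (hka _ hm) (haR _ hm) (hkb _ hm) (hbR _ hm)
      (norm_pos_iff.2 hz)
    have h1 : rad k a b R z =
        ((mv ‖z‖ (k (arc z)) (a (arc z)) (b (arc z)) (R (arc z)) : ℝ) : ℂ) * arc z := rfl
    rw [h1]
    unfold rad
    rw [arc_real_mul_arc hz hpos, norm_real_mul_arc hz hpos,
      mv_mv (hka _ hm) (haR _ hm) (hkb _ hm) (hbR _ hm), norm_mul_arc]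

theorem continuous_rad {k R : ℂ → ℝ} {a b : unitInterval → ℂ → ℝ}
    (hk : ContinuousOn k (Metric.sphere 0 1)) (hR : ContinuousOn R (Metric.sphere 0 1))
    (ha : ContinuousOn (fun p : unitInterval × ℂ => a p.1 p.2) (univ ×ˢ Metric.sphere 0 1))
    (hb : ContinuousOn (fun p : unitInterval × ℂ => b p.1 p.2) (univ ×ˢ Metric.sphere 0 1))
    (hk0 : ∀ z ∈ Metric.sphere (0 : ℂ) 1, 0 ≤ k z)
    (hka : ∀ t, ∀ z ∈ Metric.sphere (0 : ℂ) 1, k z < a t z)
    (haR : ∀ t, ∀ z ∈ Metric.sphere (0 : ℂ) 1, a t z < R z) :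
    Continuous (fun p : unitInterval × ℂ => rad k (a p.1) (b p.1) R p.2) := by
  rw [continuous_iff_continuousAt]
  rintro ⟨t₀, z₀⟩
  by_cases hz₀ : z₀ = 0
  · subst hz₀
    have hcomp : IsCompact ((univ : Set unitInterval) ×ˢ Metric.sphere (0 : ℂ) 1) :=
      isCompact_univ.prod (isCompact_sphere _ _)
    have hne : ((univ : Set unitInterval) ×ˢ Metric.sphere (0 : ℂ) 1).Nonempty :=
      ⟨(0, 1), mem_univ _, by simp⟩
    have hsnd : MapsTo (Prod.snd : unitInterval × ℂ → ℂ)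
        ((univ : Set unitInterval) ×ˢ Metric.sphere (0 : ℂ) 1) (Metric.sphere 0 1) :=
      fun p hp => hp.2
    have hk' : ContinuousOn (fun p : unitInterval × ℂ => k p.2)
        ((univ : Set unitInterval) ×ˢ Metric.sphere (0 : ℂ) 1) :=
      hk.comp continuous_snd.continuousOn hsnd
    obtain ⟨p₁, hp₁, hmin⟩ := hcomp.exists_isMinOn hne (ha.sub hk')
    obtain ⟨p₂, hp₂, hmax⟩ := hcomp.exists_isMaxOn hne (hb.sub ha).abs
    obtain ⟨δ, hδ⟩ : ∃ δ, δ = a p₁.1 p₁.2 - k p₁.2 := ⟨_, rfl⟩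
    obtain ⟨C, hC⟩ : ∃ C, C = |b p₂.1 p₂.2 - a p₂.1 p₂.2| := ⟨_, rfl⟩
    have hδ0 : 0 < δ := by rw [hδ]; exact sub_pos.2 (hka _ _ hp₁.2)
    have hC0 : 0 ≤ C := by rw [hC]; exact abs_nonneg _
    have hbound : ∀ p : unitInterval × ℂ,
        ‖rad k (a p.1) (b p.1) R p.2‖ ≤ (1 + C / δ) * ‖p.2‖ := by
      rintro ⟨t, z⟩
      show ‖rad k (a t) (b t) R z‖ ≤ (1 + C / δ) * ‖z‖
      by_cases hz : z = 0
      · rw [hz, rad_zero, norm_zero, mul_zero]
      · have hm := arc_mem hz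
        have h1 : δ ≤ a t (arc z) - k (arc z) := by
          rw [hδ]
          exact hmin (show (t, arc z) ∈ (univ : Set unitInterval) ×ˢ Metric.sphere (0 : ℂ) 1 from
            ⟨mem_univ _, hm⟩)
        have h2 : |b t (arc z) - a t (arc z)| ≤ C := by
          rw [hC]
          exact hmax (show (t, arc z) ∈ (univ : Set unitInterval) ×ˢ Metric.sphere (0 : ℂ) 1 from
            ⟨mem_univ _, hm⟩)
        have h3 : tent ‖z‖ (k (arc z)) (a t (arc z)) (R (arc z)) ≤ ‖z‖ / δ :=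
          (tent_le (hk0 _ hm) (hka t _ hm) (norm_nonneg z)).trans
            (div_le_div_of_nonneg_left (norm_nonneg z) hδ0 h1)
        have h4 := tent_nonneg ‖z‖ (k (arc z)) (a t (arc z)) (R (arc z))
        unfold rad
        rw [norm_mul, norm_arc hz, mul_one, Complex.norm_real, Real.norm_eq_abs, mv]
        refine (abs_add_le _ _).trans ?_
        rw [abs_of_nonneg (norm_nonneg z), abs_mul, abs_of_nonneg h4]
        have h5 := mul_le_mul h2 h3 h4 hC0
        have h6 : (1 + C / δ) * ‖z‖ = ‖z‖ + C * (‖z‖ / δ) := by ring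
        rw [h6]
        linarith
    have hlim : Filter.Tendsto (fun p : unitInterval × ℂ => (1 + C / δ) * ‖p.2‖)
        (𝓝 (t₀, 0)) (𝓝 0) := by
      have hc : Continuous (fun p : unitInterval × ℂ => (1 + C / δ) * ‖p.2‖) :=
        continuous_const.mul (continuous_norm.comp continuous_snd)
      have := hc.tendsto (t₀, 0)
      simpa using this
    have h0 : (fun p : unitInterval × ℂ => rad k (a p.1) (b p.1) R p.2) (t₀, 0) = 0 :=
      rad_zero _ _ _ _
    unfold ContinuousAt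
    rw [h0]
    exact squeeze_zero_norm hbound hlim
  · have hm := arc_mem hz₀
    have harc : ContinuousAt (fun p : unitInterval × ℂ => arc p.2) (t₀, z₀) :=
      ContinuousAt.comp (f := fun p : unitInterval × ℂ => p.2) (continuousAt_arc hz₀)
        continuousAt_snd
    have hev : ∀ᶠ p : unitInterval × ℂ in 𝓝 (t₀, z₀), p.2 ≠ 0 := by
      have h1 : ∀ᶠ z : ℂ in 𝓝 z₀, z ≠ 0 := isOpen_ne.mem_nhds hz₀
      have h2 : Filter.Tendsto (Prod.snd : unitInterval × ℂ → ℂ) (𝓝 (t₀, z₀)) (𝓝 z₀) :=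
        continuous_snd.tendsto _
      exact h2.eventually h1
    have ht2 : Filter.Tendsto (fun p : unitInterval × ℂ => arc p.2) (𝓝 (t₀, z₀))
        (𝓝[Metric.sphere 0 1] (arc z₀)) :=
      tendsto_nhdsWithin_iff.2 ⟨harc, hev.mono fun p hp => arc_mem hp⟩
    have ht3 : Filter.Tendsto (fun p : unitInterval × ℂ => (p.1, arc p.2)) (𝓝 (t₀, z₀))
        (𝓝[univ ×ˢ Metric.sphere 0 1] (t₀, arc z₀)) :=
      tendsto_nhdsWithin_iff.2 ⟨continuousAt_fst.prodMk harc,
        hev.mono fun p hp => ⟨mem_univ _, arc_mem hp⟩⟩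
    have ck : ContinuousAt (fun p : unitInterval × ℂ => k (arc p.2)) (t₀, z₀) :=
      (hk _ hm).tendsto.comp ht2
    have cR : ContinuousAt (fun p : unitInterval × ℂ => R (arc p.2)) (t₀, z₀) :=
      (hR _ hm).tendsto.comp ht2
    have ca : ContinuousAt (fun p : unitInterval × ℂ => a p.1 (arc p.2)) (t₀, z₀) :=
      (ha (t₀, arc z₀) ⟨mem_univ _, hm⟩).tendsto.comp ht3
    have cb : ContinuousAt (fun p : unitInterval × ℂ => b p.1 (arc p.2)) (t₀, z₀) :=
      (hb (t₀, arc z₀) ⟨mem_univ _, hm⟩).tendsto.comp ht3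
    have cn : ContinuousAt (fun p : unitInterval × ℂ => ‖p.2‖) (t₀, z₀) :=
      (continuous_norm.comp continuous_snd).continuousAt
    have e1 : a t₀ (arc z₀) - k (arc z₀) ≠ 0 := (sub_pos.2 (hka t₀ _ hm)).ne'
    have e2 : R (arc z₀) - a t₀ (arc z₀) ≠ 0 := (sub_pos.2 (haR t₀ _ hm)).ne'
    have cmv : ContinuousAt (fun p : unitInterval × ℂ =>
        mv ‖p.2‖ (k (arc p.2)) (a p.1 (arc p.2)) (b p.1 (arc p.2)) (R (arc p.2))) (t₀, z₀) := by
      unfold mv tent
      refine cn.add ((cb.sub ca).mul (continuousAt_const.max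
        (((cn.sub ck).div (ca.sub ck) e1).min ((cR.sub cn).div (cR.sub ca) e2))))
    exact (Complex.continuous_ofReal.continuousAt.comp cmv).mul harc

theorem exists_radial {ρ₀ ρ₁ k R : ℂ → ℝ} (h₀ : ContinuousOn ρ₀ (Metric.sphere 0 1))
    (h₁ : ContinuousOn ρ₁ (Metric.sphere 0 1)) (hk : ContinuousOn k (Metric.sphere 0 1))
    (hR : ContinuousOn R (Metric.sphere 0 1))
    (hk0 : ∀ z ∈ Metric.sphere (0 : ℂ) 1, 0 ≤ k z)
    (hkρ₀ : ∀ z ∈ Metric.sphere (0 : ℂ) 1, k z < ρ₀ z)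
    (hkρ₁ : ∀ z ∈ Metric.sphere (0 : ℂ) 1, k z < ρ₁ z)
    (hρ₀R : ∀ z ∈ Metric.sphere (0 : ℂ) 1, ρ₀ z < R z)
    (hρ₁R : ∀ z ∈ Metric.sphere (0 : ℂ) 1, ρ₁ z < R z) :
    ∃ h, PlaneIso (starSet R) h ∧ h 1 '' starCurve ρ₀ = starCurve ρ₁ ∧
      ∀ t z, (z = 0 ∨ ‖z‖ ≤ k (arc z)) → h t z = z := by
  obtain ⟨ρ, hρ⟩ : ∃ ρ : unitInterval → ℂ → ℝ,
      ∀ t z, ρ t z = (1 - (t : ℝ)) * ρ₀ z + (t : ℝ) * ρ₁ z := ⟨_, fun _ _ => rfl⟩
  have hkρ : ∀ t, ∀ z ∈ Metric.sphere (0 : ℂ) 1, k z < ρ t z := by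
    intro t z hz
    have e1 := hkρ₀ z hz
    have e2 := hkρ₁ z hz
    have t0 := t.2.1
    have t1 := t.2.2
    rw [hρ]
    rcases t0.eq_or_lt with h | h
    · rw [← h]; linarith
    · nlinarith [mul_pos h (sub_pos.2 e2), mul_nonneg (sub_nonneg.2 t1) (sub_pos.2 e1).le]
  have hρR : ∀ t, ∀ z ∈ Metric.sphere (0 : ℂ) 1, ρ t z < R z := by
    intro t z hz
    have e1 := hρ₀R z hz
    have e2 := hρ₁R z hz
    have t0 := t.2.1
    have t1 := t.2.2
    rw [hρ]
    rcases t0.eq_or_lt with h | h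
    · rw [← h]; linarith
    · nlinarith [mul_pos h (sub_pos.2 e2), mul_nonneg (sub_nonneg.2 t1) (sub_pos.2 e1).le]
  have hsnd : MapsTo (Prod.snd : unitInterval × ℂ → ℂ)
      ((univ : Set unitInterval) ×ˢ Metric.sphere (0 : ℂ) 1) (Metric.sphere 0 1) :=
    fun p hp => hp.2
  have c0 : ContinuousOn (fun p : unitInterval × ℂ => ρ₀ p.2)
      ((univ : Set unitInterval) ×ˢ Metric.sphere (0 : ℂ) 1) :=
    h₀.comp continuous_snd.continuousOn hsnd
  have c1 : ContinuousOn (fun p : unitInterval × ℂ => ρ₁ p.2)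
      ((univ : Set unitInterval) ×ˢ Metric.sphere (0 : ℂ) 1) :=
    h₁.comp continuous_snd.continuousOn hsnd
  have ct : ContinuousOn (fun p : unitInterval × ℂ => (p.1 : ℝ))
      ((univ : Set unitInterval) ×ˢ Metric.sphere (0 : ℂ) 1) :=
    (continuous_subtype_val.comp continuous_fst).continuousOn
  have cρ : ContinuousOn (fun p : unitInterval × ℂ => ρ p.1 p.2)
      ((univ : Set unitInterval) ×ˢ Metric.sphere (0 : ℂ) 1) := by
    simp only [hρ]
    exact ((continuousOn_const.sub ct).mul c0).add (ct.mul c1)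
  have hF : Continuous (fun p : unitInterval × ℂ => rad k ρ₀ (ρ p.1) R p.2) :=
    continuous_rad (a := fun _ => ρ₀) (b := ρ) hk hR c0 cρ hk0 (fun _ => hkρ₀) (fun _ => hρ₀R)
  have hG : Continuous (fun p : unitInterval × ℂ => rad k (ρ p.1) ρ₀ R p.2) :=
    continuous_rad (a := ρ) (b := fun _ => ρ₀) hk hR cρ c0 hk0 hkρ hρR
  obtain ⟨h, hh, hs⟩ : ∃ h : unitInterval → ℂ ≃ₜ ℂ, (∀ t z, h t z = rad k ρ₀ (ρ t) R z) ∧
      ∀ t z, (h t).symm z = rad k (ρ t) ρ₀ R z :=
    ⟨fun t =>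
      { toFun := rad k ρ₀ (ρ t) R
        invFun := rad k (ρ t) ρ₀ R
        left_inv := rad_rad hk0 hkρ₀ hρ₀R (hkρ t) (hρR t)
        right_inv := rad_rad hk0 (hkρ t) (hρR t) hkρ₀ hρ₀R
        continuous_toFun := hF.comp (continuous_const.prodMk continuous_id)
        continuous_invFun := hG.comp (continuous_const.prodMk continuous_id) },
      fun _ _ => rfl, fun _ _ => rfl⟩
  have hρ1 : ρ 1 = ρ₁ := by
    funext z
    rw [hρ]
    simp
  refine ⟨h, ⟨?_, ?_, ?_⟩, ?_, ?_⟩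
  · simp only [hh]
    exact hF
  · ext1 z
    rw [hh]
    show _ = z
    have : ρ 0 = ρ₀ := by
      funext z
      rw [hρ]
      simp
    rw [this, rad, mv, sub_self, zero_mul, add_zero, norm_mul_arc]
  · intro t z hz
    have hz0 : z ≠ 0 := fun h => hz (Or.inl h)
    have hzR : R (arc z) ≤ ‖z‖ := by
      by_contra hcon
      exact hz (Or.inr (not_le.1 hcon).le)
    rw [hh, rad, mv_of_ge (hρ₀R _ (arc_mem hz0)) hzR, norm_mul_arc]
  · ext w
    constructor
    · rintro ⟨z, ⟨hz0, hz⟩, rfl⟩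
      have hm := arc_mem hz0
      have e1 : h 1 z = ((ρ₁ (arc z) : ℝ) : ℂ) * arc z := by
        rw [hh, hρ1, rad, hz, mv_self (hkρ₀ _ hm) (hρ₀R _ hm)]
      have e2 : 0 < ρ₁ (arc z) := (hk0 _ hm).trans_lt (hkρ₁ _ hm)
      rw [e1]
      refine ⟨?_, ?_⟩
      · intro h0
        have := norm_real_mul_arc hz0 e2
        rw [h0, norm_zero] at this
        exact e2.ne this
      · rw [norm_real_mul_arc hz0 e2, arc_real_mul_arc hz0 e2]
    · rintro ⟨hw0, hw⟩
      have hm := arc_mem hw0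
      have e1 : (h 1).symm w = ((ρ₀ (arc w) : ℝ) : ℂ) * arc w := by
        rw [hs, hρ1, rad, hw, mv_self (hkρ₁ _ hm) (hρ₁R _ hm)]
      have e2 : 0 < ρ₀ (arc w) := (hk0 _ hm).trans_lt (hkρ₀ _ hm)
      refine ⟨(h 1).symm w, ?_, (h 1).apply_symm_apply w⟩
      rw [e1]
      refine ⟨?_, ?_⟩
      · intro h0
        have := norm_real_mul_arc hw0 e2
        rw [h0, norm_zero] at this
        exact e2.ne this
      · rw [norm_real_mul_arc hw0 e2, arc_real_mul_arc hw0 e2]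
  · intro t z hz
    by_cases hz0 : z = 0
    · rw [hh, hz0, rad_zero]
    · rw [hh, rad, mv_of_le (hkρ₀ _ (arc_mem hz0)) (hz.resolve_left hz0), norm_mul_arc]

end RadialX

end Pool.Agent.Rohlin
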